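import Pool.Agent.W762.RK2.EXP4b
import Pool.Agent.L0h5.AG.A1

/-!
# Expansion of an average of local conditions into symbols
-/

set_option autoImplicit false

namespace Pool.Agent.L0h5.TF

open Finset Pool.Agent.W262.RK

open Pool.Agent.W762.RK2 (Pr Pr_prime nb nb_pf nb_ne_zero dvd_nb nb_inj nb_dvd nb_dvd_PP nb_eq
  prod_pf Dl Dl_mem lab sum_Tup Jr_nb_left sg sg_sg0 sgn_nb Sym_Dl)

open Pool.Agent.L0h5.AG (gg)

/-- `k` pairs of bits -/
abbrev Vk (k : ℕ) : Type := Fin k → Bool × Bool

/-- the number of the common bits -/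
def nd {k : ℕ} (x v : Vk k) : ℕ :=
  ∑ i, ((if ((x i).1 && (v i).1) = true then 1 else 0) +
    (if ((x i).2 && (v i).2) = true then 1 else 0))

/-- the labels `(v, x)` -/
def Lb (k : ℕ) : Type := {i : Vk k × Vk k // Even (nd i.2 i.1)}

instance (k : ℕ) : Fintype (Lb k) := by unfold Lb; infer_instance

instance (k : ℕ) : DecidableEq (Lb k) := by unfold Lb; infer_instance

/-- the indices -/
abbrev Ix (k B : ℕ) : Type := Lb k × Fin B

/-- the link of two labels -/
def Ll {k : ℕ} (i i' : Lb k) : Bool := decide (Odd (nd i'.1.2 i.1.1))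

/-- the link of two indices -/
def Lk {k B : ℕ} (i i' : Ix k B) : Bool := Ll i.1 i'.1

/-- the character -/
noncomputable def chi {k : ℕ} (x h : Vk k) : ℝ :=
  ∏ i, ((if (x i).1 = true then sg (h i).1 else 1) * (if (x i).2 = true then sg (h i).2 else 1))

/-- the weights of the indices -/
noncomputable def wt {k B : ℕ} (b : ℕ → Vk k → Vk k → ℝ) (c : ℕ) (i : Ix k B) (p : ℕ) : ℝ :=
  b p i.1.1.1 i.1.1.2 / (B * ((p : ℝ) - c))

/-- the average -/
noncomputable def Gs {k : ℕ} (lam : ℕ → Vk k → Vk k → ℝ) (s : ℕ) : ℝ :=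
  ∑ D ∈ Fintype.piFinset (fun _ : Fin k => s.divisors ×ˢ s.divisors),
    ∏ p ∈ s.primeFactors, lam p (fun i => (dv p (D i).1, dv p (D i).2))
      (fun i => (sgn p (D i).1, sgn p (D i).2))

section

variable {z y k : ℕ}

/-- first bit -/
def c1 (x : Option (Vk k)) (i : Fin k) : Bool := x.elim false fun v => (v i).1

/-- second bit -/
def c2 (x : Option (Vk k)) (i : Fin k) : Bool := x.elim false fun v => (v i).2

/-- the divisors -/
def Dd (ξ : Pr z y → Option (Vk k)) (i : Fin k) : ℕ × ℕ :=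
  (nb fun q => c1 (ξ q) i, nb fun q => c2 (ξ q) i)

/-- the symbols at `p` -/
def hx (ξ : Pr z y → Option (Vk k)) (p : Pr z y) : Vk k :=
  fun i => (sgn p (Dd ξ i).1, sgn p (Dd ξ i).2)

/-- the parity of the common bits -/
def oo (x : Vk k) (o : Option (Vk k)) : Bool := o.elim false fun v => decide (Odd (nd x v))

lemma Jr_sq' {p q : Pr z y} (h : q ≠ p) : Jr (q : ℕ) p * Jr (q : ℕ) p = 1 := by
  have hnd : ¬ ((p : ℕ) : ℤ) ∣ ((q : ℕ) : ℤ) := by
    rw [Int.natCast_dvd_natCast]
    intro hd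
    exact h (Subtype.ext ((Nat.prime_dvd_prime_iff_eq (Pr_prime p) (Pr_prime q)).1 hd).symm)
  rw [← sg_sg0 (Pr_prime p) hnd]
  unfold sg
  split_ifs <;> norm_num

lemma pow_par {x : ℝ} (h : x * x = 1) (n : ℕ) : x ^ n = if Odd n then x else 1 := by
  rcases Nat.even_or_odd n with ⟨m, hm⟩ | ⟨m, hm⟩
  · rw [if_neg (by rw [Nat.not_odd_iff_even]; exact ⟨m, hm⟩), hm, ← two_mul, pow_mul, sq, h, one_pow]
  · rw [if_pos ⟨m, hm⟩, hm, pow_succ, pow_mul, sq, h, one_pow, one_mul]

lemma prod_nd (x v : Vk k) (J : ℝ) :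
    ∏ i, ((if ((x i).1 && (v i).1) = true then J else 1) *
      (if ((x i).2 && (v i).2) = true then J else 1)) = J ^ nd x v := by
  unfold nd
  rw [← prod_pow_eq_pow_sum]
  refine prod_congr rfl fun i _ => ?_
  rw [pow_add]
  congr 1
  · split_ifs <;> simp
  · split_ifs <;> simp

lemma chi_eq (ξ : Pr z y → Option (Vk k)) (p : Pr z y) (x : Vk k)
    (h : oo x (ξ p) = false) :
    chi x (hx ξ p) = ∏ q : Pr z y, if oo x (ξ q) = true then Jr (q : ℕ) p else 1 := by
  have h3 : ∀ a : Bool, ∀ b : Pr z y → Bool, (if a = true then sg (sgn p (nb b : ℤ)) else 1) =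
      ∏ q : Pr z y, if a = true then (if q ≠ p ∧ b q = true then Jr (q : ℕ) p else 1)
        else 1 := by
    intro a b
    cases a
    · simp
    · simp only [if_true]
      exact sgn_nb b p
  unfold chi hx Dd
  simp only [h3]
  rw [prod_congr rfl fun i _ => prod_mul_distrib.symm, prod_comm]
  refine prod_congr rfl fun q _ => ?_
  by_cases hqp : q = p
  · rw [hqp, h]
    simp
  · have e1 : ∀ i, ((if (x i).1 = true then (if q ≠ p ∧ c1 (ξ q) i = true then Jr (q : ℕ) p else 1)
        else 1) * (if (x i).2 = true then (if q ≠ p ∧ c2 (ξ q) i = true then Jr (q : ℕ) p else 1)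
        else 1)) = ((if ((x i).1 && c1 (ξ q) i) = true then Jr (q : ℕ) p else 1) *
        (if ((x i).2 && c2 (ξ q) i) = true then Jr (q : ℕ) p else 1)) := by
      intro i
      congr 1
      · cases (x i).1 <;> simp [hqp]
      · cases (x i).2 <;> simp [hqp]
    rw [prod_congr rfl fun i _ => e1 i]
    cases hq : ξ q with
    | none => simp [c1, c2, oo]
    | some v =>
      have e2 := prod_nd x v (Jr (q : ℕ) p)
      have e3 : ∏ i, ((if ((x i).1 && c1 (some v) i) = true then Jr (q : ℕ) p else 1) *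
        (if ((x i).2 && c2 (some v) i) = true then Jr (q : ℕ) p else 1)) =
        Jr (q : ℕ) p ^ nd x v := e2
      rw [e3, pow_par (Jr_sq' hqp)]
      unfold oo
      simp only [Option.elim]
      by_cases ho : Odd (nd x v)
      · simp [ho]
      · simp [ho]

lemma sum_all (F : ℕ → (Fin k → ℕ × ℕ) → ℝ) :
    ∑ s ∈ (PP z y).divisors, ∑ D ∈ Fintype.piFinset (fun _ : Fin k => s.divisors ×ˢ s.divisors),
      F s D = ∑ ξ : Pr z y → Option (Vk k), F (nb fun p => (ξ p).isSome) (Dd ξ) := by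
  rw [sum_sigma']
  symm
  refine sum_bij (fun ξ _ => ⟨nb fun p => (ξ p).isSome, Dd ξ⟩) ?_ ?_ ?_ (fun _ _ => rfl)
  · intro ξ _
    rw [mem_sigma, Fintype.mem_piFinset]
    refine ⟨Nat.mem_divisors.2 ⟨nb_dvd_PP _, PP_ne_zero z y⟩, fun i => ?_⟩
    have hne : nb (fun p => (ξ p).isSome) ≠ 0 := nb_ne_zero _
    rw [mem_product, Nat.mem_divisors, Nat.mem_divisors]
    show ((nb fun q => c1 (ξ q) i) ∣ (nb fun p => (ξ p).isSome) ∧ _) ∧
      ((nb fun q => c2 (ξ q) i) ∣ (nb fun p => (ξ p).isSome) ∧ _)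
    refine ⟨⟨nb_dvd fun p hp => ?_, hne⟩, ⟨nb_dvd fun p hp => ?_, hne⟩⟩
    · cases h : ξ p with
      | none => rw [h] at hp; exact absurd hp (by simp [c1])
      | some a => rfl
    · cases h : ξ p with
      | none => rw [h] at hp; exact absurd hp (by simp [c2])
      | some a => rfl
  · intro ξ _ ξ' _ h
    have h1 : nb (fun p => (ξ p).isSome) = nb fun p => (ξ' p).isSome := congrArg Sigma.fst h
    have h2 : Dd ξ = Dd ξ' := congrArg Sigma.snd h
    funext p
    have e1 : (ξ p).isSome = (ξ' p).isSome := congrFun (nb_inj h1) p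
    have e2 : ∀ i, c1 (ξ p) i = c1 (ξ' p) i := fun i => by
      have h3 : nb (fun q => c1 (ξ q) i) = nb (fun q => c1 (ξ' q) i) :=
        congrArg Prod.fst (congrFun h2 i)
      exact congrFun (nb_inj h3) p
    have e3 : ∀ i, c2 (ξ p) i = c2 (ξ' p) i := fun i => by
      have h3 : nb (fun q => c2 (ξ q) i) = nb (fun q => c2 (ξ' q) i) :=
        congrArg Prod.snd (congrFun h2 i)
      exact congrFun (nb_inj h3) p
    cases hx : ξ p with
    | none =>
      cases hx' : ξ' p with
      | none => rfl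
      | some a' => rw [hx, hx'] at e1; exact absurd e1 (by simp)
    | some a =>
      cases hx' : ξ' p with
      | none => rw [hx, hx'] at e1; exact absurd e1 (by simp)
      | some a' =>
        rw [hx, hx'] at e2 e3
        congr 1
        funext i
        exact Prod.ext (e2 i) (e3 i)
  · rintro ⟨s, D⟩ hs
    rw [mem_sigma, Fintype.mem_piFinset] at hs
    obtain ⟨hs, hD⟩ := hs
    simp only at hs hD
    have hs' := Nat.dvd_of_mem_divisors hs
    have hD1 : ∀ i, (D i).1 ∣ s ∧ (D i).2 ∣ s := by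
      intro i
      have := hD i
      rw [mem_product] at this
      exact ⟨Nat.dvd_of_mem_divisors this.1, Nat.dvd_of_mem_divisors this.2⟩
    set ξ : Pr z y → Option (Vk k) := fun p => if (p : ℕ) ∣ s then
      some (fun i => (decide ((p : ℕ) ∣ (D i).1), decide ((p : ℕ) ∣ (D i).2))) else none with hξ
    have e1 : nb (fun p => (ξ p).isSome) = s := by
      conv_rhs => rw [← nb_eq hs']
      congr 1
      funext p
      rw [hξ]
      by_cases h : (p : ℕ) ∣ s
      · simp [h]
      · simp [h]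
    have e2 : Dd ξ = D := by
      funext i
      refine Prod.ext ?_ ?_
      · show nb (fun q => c1 (ξ q) i) = (D i).1
        conv_rhs => rw [← nb_eq ((hD1 i).1.trans hs')]
        congr 1
        funext p
        rw [hξ]
        by_cases h : (p : ℕ) ∣ s
        · simp [c1, h]
        · have : ¬ (p : ℕ) ∣ (D i).1 := fun h' => h (h'.trans (hD1 i).1)
          simp [c1, h, this]
      · show nb (fun q => c2 (ξ q) i) = (D i).2
        conv_rhs => rw [← nb_eq ((hD1 i).2.trans hs')]
        congr 1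
        funext p
        rw [hξ]
        by_cases h : (p : ℕ) ∣ s
        · simp [c2, h]
        · have : ¬ (p : ℕ) ∣ (D i).2 := fun h' => h (h'.trans (hD1 i).2)
          simp [c2, h, this]
    exact ⟨ξ, mem_univ _, by rw [e1, e2]⟩

/-- the local term -/
noncomputable def Tm (lam : ℕ → Vk k → Vk k → ℝ) (c : ℕ) (ξ : Pr z y → Option (Vk k))
    (p : Pr z y) : ℝ :=
  (ξ p).elim 1 fun v => lam p v (hx ξ p) * (1 / ((p : ℝ) - c))

lemma lhs_eq (lam : ℕ → Vk k → Vk k → ℝ) (c : ℕ) :
    ∑ s ∈ (PP z y).divisors, Gs lam s * gw 1 c s =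
      ∑ ξ : Pr z y → Option (Vk k), ∏ p, Tm lam c ξ p := by
  have h1 : ∀ s ∈ (PP z y).divisors, Gs lam s * gw 1 c s =
      ∑ D ∈ Fintype.piFinset (fun _ : Fin k => s.divisors ×ˢ s.divisors),
        (∏ p ∈ s.primeFactors, (lam p (fun i => (dv p (D i).1, dv p (D i).2))
          (fun i => (sgn p (D i).1, sgn p (D i).2)) * (1 / ((p : ℝ) - c)))) := by
    intro s _
    unfold Gs gw
    rw [sum_mul]
    refine sum_congr rfl fun D _ => ?_
    rw [prod_mul_distrib]
  rw [sum_congr rfl h1, sum_all fun s D =>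
    (∏ p ∈ s.primeFactors, (lam p (fun i => (dv p (D i).1, dv p (D i).2))
          (fun i => (sgn p (D i).1, sgn p (D i).2)) * (1 / ((p : ℝ) - c))))]
  refine sum_congr rfl fun ξ _ => ?_
  rw [prod_pf _ fun p => (lam p (fun i => (dv p (Dd ξ i).1, dv p (Dd ξ i).2))
          (fun i => (sgn p (Dd ξ i).1, sgn p (Dd ξ i).2)) * (1 / ((p : ℝ) - c)))]
  refine prod_congr rfl fun p _ => ?_
  unfold Tm
  cases hx : ξ p with
  | none => simp
  | some v =>
    have e1 : (fun i => (dv (p : ℕ) ((Dd ξ i).1 : ℤ), dv (p : ℕ) ((Dd ξ i).2 : ℤ))) = v := by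
      funext i
      refine Prod.ext ?_ ?_
      · have h2 : c1 (ξ p) i = (v i).1 := by rw [hx]; rfl
        rw [← h2]
        unfold dv
        rw [Bool.eq_iff_iff, decide_eq_true_iff, Int.natCast_dvd_natCast]
        exact dvd_nb _ p
      · have h2 : c2 (ξ p) i = (v i).2 := by rw [hx]; rfl
        rw [← h2]
        unfold dv
        rw [Bool.eq_iff_iff, decide_eq_true_iff, Int.natCast_dvd_natCast]
        exact dvd_nb _ p
    rw [e1]
    simp only [Option.isSome_some, if_true, Option.elim]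
    rfl

/-- forget the character -/
def fg {B : ℕ} (x : Option (Ix k B)) : Option (Vk k) := x.map fun i => i.1.1.1

/-- the local factor -/
noncomputable def Gt {B : ℕ} (b : ℕ → Vk k → Vk k → ℝ) (c : ℕ) (ξ : Pr z y → Option (Vk k))
    (p : Pr z y) (x : Option (Ix k B)) : ℝ :=
  x.elim 1 fun i => wt b c i p * chi i.1.1.2 (hx ξ p)

lemma sum_Lb (F : Vk k × Vk k → ℝ) (h : ∀ r, ¬ Even (nd r.2 r.1) → F r = 0) :
    ∑ i : Lb k, F i.1 = ∑ r, F r := by
  have h1 : ∑ r : Vk k × Vk k, F r =
      ∑ r ∈ univ.filter (fun r : Vk k × Vk k => Even (nd r.2 r.1)), F r := by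
    symm
    refine sum_filter_of_ne fun r _ hr => ?_
    by_contra hcon
    exact hr (h r hcon)
  rw [h1]
  exact (Finset.sum_subtype (univ.filter fun r : Vk k × Vk k => Even (nd r.2 r.1))
    (fun x => by simp) F).symm

lemma sum_Gt {B : ℕ} (hB : 0 < B) (lam b : ℕ → Vk k → Vk k → ℝ) (c : ℕ)
    (ξ : Pr z y → Option (Vk k)) (p : Pr z y)
    (hlam : ∀ v h, lam p v h = ∑ x, b p v x * chi x h)
    (hb : ∀ v x, ¬ Even (nd x v) → b p v x = 0) :
    ∑ x ∈ univ.filter (fun x : Option (Ix k B) => fg x = ξ p), Gt b c ξ p x =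
      Tm lam c ξ p := by
  rw [sum_filter, Fintype.sum_option]
  unfold Tm
  cases hξ : ξ p with
  | none => simp [fg, Gt]
  | some v =>
    have h0 : (if fg (none : Option (Ix k B)) = some v then Gt (B := B) b c ξ p none else 0) =
        0 := by
      rw [if_neg]
      simp [fg]
    rw [h0, zero_add]
    have h1 : ∀ i : Ix k B, (if fg (some i) = some v then Gt b c ξ p (some i) else 0) =
        (fun r : Vk k × Vk k => if r.1 = v then b p r.1 r.2 / (B * ((p : ℝ) - c)) *
          chi r.2 (hx ξ p) else 0) i.1.1 := by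
      intro i
      refine if_congr ?_ rfl rfl
      simp only [fg, Option.map_some, Option.some.injEq]
    rw [sum_congr rfl fun i _ => h1 i, Fintype.sum_prod_type]
    simp only [sum_const, card_univ, Fintype.card_fin, nsmul_eq_mul]
    rw [← mul_sum, sum_Lb (fun r : Vk k × Vk k => if r.1 = v then b p r.1 r.2 /
      (B * ((p : ℝ) - c)) * chi r.2 (hx ξ p) else 0)
      (fun r hr => by
        split_ifs
        · rw [hb r.1 r.2 hr]
          ring
        · rfl)]
    rw [Fintype.sum_prod_type, sum_eq_single v]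
    · simp only [if_true, Option.elim]
      rw [hlam, sum_mul, mul_sum]
      refine sum_congr rfl fun x _ => ?_
      have hB' : (B : ℝ) ≠ 0 := by exact_mod_cast hB.ne'
      have e1 : b p v x / (B * ((p : ℝ) - c)) = b p v x * (1 / ((p : ℝ) - c)) * (1 / B) := by
        rw [mul_one_div, mul_one_div, div_div, mul_comm (B : ℝ)]
      rw [e1]
      field_simp
    · intro v' _ hv'
      refine sum_eq_zero fun x _ => ?_
      simp [hv']
    · intro h
      exact absurd (mem_univ _) h

lemma prod_gg {ι : Type} [Fintype ι] [DecidableEq ι] (g : ι → ℕ → ℝ) (l : Pr z y → Option ι) :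
    ∏ i, gg g i (Dl l i) = ∏ p : Pr z y, (l p).elim 1 fun i => g i p := by
  have h1 : ∀ i, gg g i (Dl l i) = ∏ p : Pr z y, if l p = some i then g i p else 1 := by
    intro i
    unfold gg Dl
    rw [prod_pf _ fun p : ℕ => g i p]
    simp only [decide_eq_true_eq]
  rw [Finset.prod_congr rfl fun i _ => h1 i, Finset.prod_comm]
  refine Finset.prod_congr rfl fun p _ => ?_
  cases h : l p with
  | none => simp
  | some j => simp

lemma rhs_term {B : ℕ} (b : ℕ → Vk k → Vk k → ℝ) (c : ℕ)
    (ξ : Pr z y → Option (Vk k)) (l : Pr z y → Option (Ix k B)) (h : ∀ p, fg (l p) = ξ p) :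
    (∏ i, gg (wt b c) i (Dl l i)) * Sym (Lk (k := k) (B := B)) (fun _ => 1) (Dl l) =
      ∏ p, Gt b c ξ p (l p) := by
  rw [prod_gg, Sym_Dl, ← prod_mul_distrib, ← prod_mul_distrib]
  refine prod_congr rfl fun p _ => ?_
  cases hl : l p with
  | none =>
    have h0 : ∀ q, Pool.Agent.W762.RK2.lk (Lk (k := k) (B := B)) (l q) none = false := by
      intro q
      cases l q <;> rfl
    simp [h0, Gt]
  | some i =>
    have hev : oo i.1.1.2 (ξ p) = false := by
      rw [← h p, hl]
      simp only [oo, fg, Option.map_some, Option.elim]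
      have := i.1.2
      rw [decide_eq_false_iff_not, Nat.not_odd_iff_even]
      exact this
    have h1 : ∀ q, Pool.Agent.W762.RK2.lk (Lk (k := k) (B := B)) (l q) (some i) =
        oo i.1.1.2 (ξ q) := by
      intro q
      rw [← h q]
      cases hq : l q with
      | none => rfl
      | some i' => rfl
    have e1 : ∏ q : Pr z y, (if Pool.Agent.W762.RK2.lk (Lk (k := k) (B := B)) (l q) (some i) = true
        then Jr (q : ℕ) p else 1) = chi i.1.1.2 (hx ξ p) := by
      rw [chi_eq ξ p i.1.1.2 hev]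
      refine prod_congr rfl fun q _ => ?_
      rw [h1]
    rw [e1]
    simp [Gt, Pool.Agent.L0h5.AG.Jr_one_left']

/-- **The expansion** -/
theorem exp_id {B : ℕ} (hB : 0 < B) (lam b : ℕ → Vk k → Vk k → ℝ) (c z y : ℕ)
    (hlam : ∀ p ∈ PS z y, ∀ v h, lam p v h = ∑ x, b p v x * chi x h)
    (hb : ∀ p ∈ PS z y, ∀ v x, ¬ Even (nd x v) → b p v x = 0) :
    ∑ s ∈ (PP z y).divisors, Gs lam s * gw 1 c s =
      ∑ d ∈ Tup (Ix k B) z y, (∏ i, gg (wt b c) i (d i)) *
        Sym (Lk (k := k) (B := B)) (fun _ => 1) d := by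
  classical
  rw [lhs_eq, sum_Tup, ← Finset.sum_fiberwise univ
    (fun (l : Pr z y → Option (Ix k B)) => fun p => fg (l p))]
  refine Finset.sum_congr rfl fun ξ _ => ?_
  have h1 : (univ.filter fun l : Pr z y → Option (Ix k B) => (fun p => fg (l p)) = ξ) =
      Fintype.piFinset (fun p => univ.filter (fun x : Option (Ix k B) => fg x = ξ p)) := by
    ext l
    simp only [Finset.mem_filter, Finset.mem_univ, true_and, Fintype.mem_piFinset, funext_iff]
  rw [h1, Finset.prod_congr rfl fun p _ => (sum_Gt hB lam b c ξ p (hlam p p.2) (hb p p.2)).symm,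
    Finset.prod_univ_sum]
  refine Finset.sum_congr rfl fun l hl => ?_
  rw [Fintype.mem_piFinset] at hl
  exact (rhs_term b c ξ l fun p => (Finset.mem_filter.1 (hl p)).2).symm

end

end Pool.Agent.L0h5.TF
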