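import Pool.Agent.L0h5.TF.Fin

/-!
# Quadratic twists by the values of a polynomial
-/

set_option autoImplicit false
set_option linter.unusedSectionVars false

namespace Pool.Agent.L0h5.TF

open Finset Polynomial Pool.Agent.W262.RK

lemma exists_sqfree : ∀ (n : ℕ) (D : ℚ[X]), D ≠ 0 → D.natDegree ≤ n →
    ∃ s q : ℚ[X], Squarefree s ∧ D = s * q ^ 2 := by
  intro n
  induction n with
  | zero =>
    intro D hD hn
    refine ⟨D, 1, ?_, by ring⟩
    have h1 : D = C (D.coeff 0) := eq_C_of_natDegree_eq_zero (by omega)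
    have h2 : IsUnit D := by
      rw [h1]
      refine isUnit_C.2 (isUnit_iff_ne_zero.2 fun h => hD ?_)
      rw [h1, h, C_0]
    exact h2.squarefree
  | succ n ih =>
    intro D hD hn
    by_cases hsq : Squarefree D
    · exact ⟨D, 1, hsq, by ring⟩
    · have h1 : ∃ x, x * x ∣ D ∧ ¬ IsUnit x := by
        unfold Squarefree at hsq
        push Not at hsq
        exact hsq
      obtain ⟨x, ⟨D', hD'⟩, hx⟩ := h1
      have hx0 : x ≠ 0 := by
        rintro rfl
        rw [zero_mul, zero_mul] at hD'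
        exact hD hD'
      have hD'0 : D' ≠ 0 := by
        rintro rfl
        rw [mul_zero] at hD'
        exact hD hD'
      have hdeg : 0 < x.natDegree := by
        rw [Nat.pos_iff_ne_zero]
        intro h
        apply hx
        have h2 := eq_C_of_natDegree_eq_zero h
        rw [h2]
        refine isUnit_C.2 (isUnit_iff_ne_zero.2 fun h3 => hx0 ?_)
        rw [h2, h3, C_0]
      have h2 : D.natDegree = x.natDegree + x.natDegree + D'.natDegree := by
        rw [hD', natDegree_mul (mul_ne_zero hx0 hx0) hD'0, natDegree_mul hx0 hx0]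
      obtain ⟨s, q, hs, hq⟩ := ih D' hD'0 (by omega)
      exact ⟨s, q * x, hs, by rw [hD', hq]; ring⟩

lemma nfac_C {m : ℤ} (hm : m ≠ 0) : nfac (C m) = 0 := by
  unfold nfac
  rw [map_C, Multiset.card_eq_zero]
  have h1 : IsUnit (C ((Int.castRingHom ℚ) m) : ℚ[X]) :=
    isUnit_C.2 (isUnit_iff_ne_zero.2 (by simpa using hm))
  exact UniqueFactorizationMonoid.normalizedFactors_of_isUnit h1

lemma squarefree_C_mul {c : ℚ} (hc : c ≠ 0) {s : ℚ[X]} (hs : Squarefree s) :
    Squarefree (C c * s) := by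
  have h1 : Associated (C c * s) s :=
    associated_unit_mul_left _ _ (isUnit_C.2 (isUnit_iff_ne_zero.2 hc))
  exact (h1.squarefree_iff).2 hs

/-- all the moments of `2 ^ rank` for the twists by the values of a polynomial -/
theorem twists (A B : ℤ) (hA : A ≠ 0) (hB : B ≠ 0) (hAB : A ≠ B) (D : ℤ[X]) (hD : D ≠ 0)
    (k : ℕ) : ∃ C : ℝ, ∀ X : ℕ, 1 ≤ X →
      ∑ t ∈ (Icc (-(X : ℤ)) X).filter (fun t : ℤ => D.eval t ≠ 0),
        ((2 : ℝ) ^ Module.finrank ℤ (EAB (A * D.eval t) (B * D.eval t)).toAffine.Point) ^ k ≤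
          C * X := by
  classical
  set ι := Int.castRingHom ℚ with hι
  have hD' : D.map ι ≠ 0 := (Polynomial.map_ne_zero_iff (RingHom.injective_int ι)).2 hD
  obtain ⟨s, q, hs, hsq⟩ := exists_sqfree _ (D.map ι) hD' le_rfl
  obtain ⟨m1, hm1, S, hS⟩ := clear_den s
  obtain ⟨m2, hm2, Q, hQ⟩ := clear_den q
  have hm1q : (m1 : ℚ) ≠ 0 := by exact_mod_cast hm1
  set S' : ℤ[X] := C m1 * S with hS'
  have hS'map : S'.map ι = C ((m1 : ℚ) ^ 2) * s := by
    rw [hS', Polynomial.map_mul, map_C, hS, ← mul_assoc, ← C_mul, sq]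
    rfl
  have hmain : C ((m1 * m2) ^ 2) * D = S' * Q ^ 2 := by
    apply Polynomial.map_injective ι (RingHom.injective_int _)
    rw [Polynomial.map_mul, Polynomial.map_mul, Polynomial.map_pow, hS'map, hQ, hsq, map_C]
    have h1 : (C (ι ((m1 * m2) ^ 2)) : ℚ[X]) = C ((m1 : ℚ) ^ 2) * C (m2 : ℚ) ^ 2 := by
      rw [← C_pow, ← C_mul]
      congr 1
      rw [hι, eq_intCast]
      push_cast
      ring
    rw [h1]
    ring
  set H : Fin 4 → ℤ[X] := ![C A, C B, C (A - B), S'] with hH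
  have hsub : A - B ≠ 0 := sub_ne_zero.2 hAB
  have hsqf : Squarefree (∏ c, (H c).map ι) := by
    have h1 : ∏ c, (H c).map ι = C ((A : ℚ) * B * (A - B) * (m1 : ℚ) ^ 2) * s := by
      rw [Fin.prod_univ_four]
      have e0 : (H 0).map ι = C (A : ℚ) := by
        show (C A : ℤ[X]).map ι = _
        rw [map_C]
        rfl
      have e1 : (H 1).map ι = C (B : ℚ) := by
        show (C B : ℤ[X]).map ι = _
        rw [map_C]
        rfl
      have e2 : (H 2).map ι = C ((A : ℚ) - B) := by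
        show (C (A - B) : ℤ[X]).map ι = _
        rw [map_C]
        congr 1
        rw [hι, eq_intCast]
        push_cast
        ring
      have e3 : (H 3).map ι = C ((m1 : ℚ) ^ 2) * s := hS'map
      rw [e0, e1, e2, e3, C_mul, C_mul, C_mul]
      ring
    rw [h1]
    refine squarefree_C_mul ?_ hs
    have a1 : (A : ℚ) ≠ 0 := by exact_mod_cast hA
    have a2 : (B : ℚ) ≠ 0 := by exact_mod_cast hB
    have a3 : (A : ℚ) - B ≠ 0 := by exact_mod_cast hsub
    positivity
  have hrel : H 0 - H 1 = H 2 := by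
    show (C A : ℤ[X]) - C B = C (A - B)
    rw [C_sub]
  have hn : ∀ c, c ≠ 3 → nfac (H c) = 0 := by
    intro c hc
    fin_cases c
    · exact nfac_C hA
    · exact nfac_C hB
    · exact nfac_C hsub
    · exact absurd rfl hc
  obtain ⟨K, hK⟩ := gen H k hsqf hrel (Or.inr hn)
  refine ⟨K, fun X hX => le_trans ?_ (hK X hX)⟩
  have hu : m1 * m2 ≠ 0 := mul_ne_zero hm1 hm2
  have hev : ∀ t : ℤ, (m1 * m2) ^ 2 * D.eval t = S'.eval t * (Q.eval t) ^ 2 := by
    intro t
    have := congrArg (fun p : ℤ[X] => p.eval t) hmain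
    simpa only [eval_mul, eval_C, eval_pow] using this
  have hne : ∀ t : ℤ, D.eval t ≠ 0 → S'.eval t ≠ 0 ∧ Q.eval t ≠ 0 := by
    intro t ht
    have h1 : S'.eval t * (Q.eval t) ^ 2 ≠ 0 := by
      rw [← hev]
      exact mul_ne_zero (pow_ne_zero 2 hu) ht
    exact ⟨left_ne_zero_of_mul h1, fun h => right_ne_zero_of_mul h1 (by rw [h]; ring)⟩
  have e3 : H 3 = S' := rfl
  have e0 : H 0 = C A := rfl
  have e1 : H 1 = C B := rfl
  have e2 : H 2 = C (A - B) := rfl
  have hterm : ∀ t ∈ (Icc (-(X : ℤ)) X).filter (fun t : ℤ => D.eval t ≠ 0),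
      ((2 : ℝ) ^ Module.finrank ℤ (EAB (A * D.eval t) (B * D.eval t)).toAffine.Point) ^ k =
      ((2 : ℝ) ^ Module.finrank ℤ (EAB ((H 3 * H 0).eval t)
          ((H 3 * H 1).eval t)).toAffine.Point) ^ k := by
    intro t ht
    have h1 := hne t (mem_filter.1 ht).2
    have h2 := rank_scale (A * D.eval t) (B * D.eval t) hu
    have h3 := rank_scale ((H 3 * H 0).eval t) ((H 3 * H 1).eval t) h1.2
    rw [← h2, ← h3]
    have h4 : (m1 * m2) ^ 2 * (A * D.eval t) = Q.eval t ^ 2 * (H 3 * H 0).eval t := by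
      rw [e3, e0, eval_mul, eval_C]
      linear_combination A * hev t
    have h5 : (m1 * m2) ^ 2 * (B * D.eval t) = Q.eval t ^ 2 * (H 3 * H 1).eval t := by
      rw [e3, e1, eval_mul, eval_C]
      linear_combination B * hev t
    rw [h4, h5]
  rw [sum_congr rfl hterm]
  refine sum_le_sum_of_subset_of_nonneg ?_ (fun t _ _ => by positivity)
  intro t ht
  rw [mem_filter] at ht ⊢
  refine ⟨ht.1, ?_⟩
  rw [e3, e0, e1, e2]
  simp only [eval_mul, eval_C]
  exact mul_ne_zero (mul_ne_zero (mul_ne_zero (hne t ht.2).1 hA) hB) hsub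

end Pool.Agent.L0h5.TF
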