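import Pool.Agent.L0h5.TF.Sieve

/-!
# The Chinese remainder theorem and the sieve
-/

set_option autoImplicit false

namespace Pool.Agent.L0h5.TF

open Finset Polynomial Pool.Agent.W262.RK Pool.Agent.L0h5.MR

lemma card_crt (S : Finset ℕ) (hS : ∀ p ∈ S, p.Prime) (e : ℕ → ℕ) (W : ℕ → Finset ℕ) :
    ((range (∏ p ∈ S, p ^ e p)).filter (fun x => ∀ p ∈ S, x % p ^ e p ∈ W p)).card ≤
      ∏ p ∈ S, (W p).card := by
  rw [← card_pi]
  apply card_le_card_of_injOn (fun x => fun p (_ : p ∈ S) => x % p ^ e p)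
  · intro x hx
    have hx' := mem_filter.1 (mem_coe.1 hx)
    rw [mem_coe, mem_pi]
    intro p hp
    exact hx'.2 p hp
  · intro x hx x' hx' hxx
    have h1 := mem_filter.1 (mem_coe.1 hx)
    have h2 := mem_filter.1 (mem_coe.1 hx')
    have h3 : ((∏ p ∈ S, p ^ e p : ℕ) : ℤ) ∣ (x' : ℤ) - x := by
      rw [Nat.cast_prod]
      apply Finset.prod_dvd_of_coprime
      · intro p hp q hq hpq
        rw [Function.onFun, Nat.cast_pow, Nat.cast_pow]
        exact (Nat.isCoprime_iff_coprime.2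
          ((Nat.coprime_primes (hS p hp) (hS q hq)).2 hpq)).pow
      · intro p hp
        have h4 : x % p ^ e p = x' % p ^ e p := congrFun (congrFun hxx p) hp
        have h5 : x ≡ x' [MOD p ^ e p] := h4
        exact (Nat.modEq_iff_dvd).1 h5
    have h6 : x ≡ x' [MOD ∏ p ∈ S, p ^ e p] := (Nat.modEq_iff_dvd).2 h3
    exact Nat.ModEq.eq_of_lt_of_lt h6 (mem_range.1 h1.1) (mem_range.1 h2.1)

/-- the conclusion of the sieve -/
def SvC (F : ℤ[X]) (c N z : ℕ) (C : ℝ) (K y0 : ℕ) : Prop :=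
  ∀ X y : ℕ, y0 ≤ y → z < y → y ^ K ≤ X →
    ∀ m r : ℕ, 1 ≤ m → m ^ 4 ≤ X →
    (((Icc 1 X).filter (fun t : ℕ => t ≡ r [MOD m] ∧ ∀ p ∈ PS z y, ¬ p ∣ m →
      ¬ (p : ℤ) ∣ F.eval (t : ℤ))).card : ℝ) ≤
      C * (X / m) * (∏ p ∈ m.primeFactors.filter (fun p => p ∈ PS z y),
        (p : ℝ) / ((p : ℝ) - c)) / (Real.log y) ^ N

theorem crt_count {F : ℤ[X]} {c N z : ℕ} {C : ℝ} {K y0 : ℕ} (hsv : SvC F c N z C K y0)
    (hC : 0 ≤ C) (hzc : c ≤ z) {X y : ℕ} (hy : y0 ≤ y) (hzy : z < y) (hyX : y ^ K ≤ X)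
    (S : Finset ℕ) (hS : ∀ p ∈ S, p.Prime) (e : ℕ → ℕ) (he : ∀ p ∈ S, e p ≠ 0)
    (W : ℕ → Finset ℕ) (hq : (∏ p ∈ S, p ^ e p) ^ 4 ≤ X) (T : Finset ℕ)
    (hT : ∀ t ∈ T, t ∈ Icc 1 X ∧ (∀ p ∈ S, t % p ^ e p ∈ W p) ∧
      ∀ p ∈ PS z y, p ∉ S → ¬ (p : ℤ) ∣ F.eval (t : ℤ)) :
    (T.card : ℝ) ≤ (∏ p ∈ S, ((W p).card : ℝ)) *
      (C * (X / ((∏ p ∈ S, p ^ e p : ℕ) : ℝ)) * (∏ p ∈ S.filter (fun p => p ∈ PS z y),
        (p : ℝ) / ((p : ℝ) - c)) / (Real.log y) ^ N) := by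
  classical
  set q := ∏ p ∈ S, p ^ e p with hqd
  have hq0 : q ≠ 0 := by
    rw [hqd, prod_ne_zero_iff]
    intro p hp
    exact pow_ne_zero _ (hS p hp).ne_zero
  have hqpf : q.primeFactors = S := by
    rw [hqd]
    ext p
    rw [Nat.mem_primeFactors]
    constructor
    · rintro ⟨hp, hd, -⟩
      obtain ⟨r, hr, hpr⟩ := (hp.prime.dvd_finsetProd_iff _).1 hd
      have h1 := hp.dvd_of_dvd_pow hpr
      rwa [(Nat.prime_dvd_prime_iff_eq hp (hS r hr)).1 h1]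
    · intro hp
      exact ⟨hS p hp, (dvd_pow_self p (he p hp)).trans (dvd_prod_of_mem _ hp), hq0⟩
  set A := (range q).filter (fun x => ∀ p ∈ S, x % p ^ e p ∈ W p) with hA
  have hmap : ∀ t ∈ T, t % q ∈ A := by
    intro t ht
    rw [hA, mem_filter, mem_range]
    refine ⟨Nat.mod_lt _ (Nat.pos_of_ne_zero hq0), fun p hp => ?_⟩
    have h1 : p ^ e p ∣ q := dvd_prod_of_mem (fun p => p ^ e p) hp
    rw [Nat.mod_mod_of_dvd _ h1]
    exact (hT t ht).2.1 p hp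
  have hfib : ∀ x ∈ A, ((T.filter (fun t => t % q = x)).card : ℝ) ≤
      C * (X / (q : ℝ)) * (∏ p ∈ S.filter (fun p => p ∈ PS z y),
        (p : ℝ) / ((p : ℝ) - c)) / (Real.log y) ^ N := by
    intro x hx
    have h1 := hsv X y hy hzy hyX q x (Nat.pos_of_ne_zero hq0) hq
    rw [hqpf] at h1
    refine le_trans ?_ h1
    have h2 : T.filter (fun t => t % q = x) ⊆ (Icc 1 X).filter (fun t : ℕ => t ≡ x [MOD q] ∧
        ∀ p ∈ PS z y, ¬ p ∣ q → ¬ (p : ℤ) ∣ F.eval (t : ℤ)) := by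
      intro t ht
      rw [mem_filter] at ht
      obtain ⟨h3, h4, h5⟩ := hT t ht.1
      rw [mem_filter]
      refine ⟨h3, ?_, fun p hp hpq => h5 p hp fun hpS => hpq ?_⟩
      · have hxq := mem_range.1 (mem_filter.1 hx).1
        show t % q = x % q
        rw [ht.2, Nat.mod_eq_of_lt hxq]
      · exact (dvd_pow_self p (he p hpS)).trans (dvd_prod_of_mem (fun p => p ^ e p) hpS)
    exact_mod_cast card_le_card h2
  have hnn : 0 ≤ C * (X / (q : ℝ)) * (∏ p ∈ S.filter (fun p => p ∈ PS z y),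
        (p : ℝ) / ((p : ℝ) - c)) / (Real.log y) ^ N := by
    refine div_nonneg (mul_nonneg (mul_nonneg hC (by positivity)) ?_)
      (pow_nonneg (Real.log_natCast_nonneg y) _)
    refine prod_nonneg fun p hp => ?_
    have h1 := (mem_PS.1 (mem_filter.1 hp).2).1.1
    have h2 : (c : ℝ) ≤ p := by exact_mod_cast (by omega : c ≤ p)
    exact div_nonneg (Nat.cast_nonneg _) (by linarith)
  have h1 : (T.card : ℝ) = ∑ x ∈ A, ((T.filter (fun t => t % q = x)).card : ℝ) := by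
    rw [card_eq_sum_card_fiberwise hmap]
    push_cast
    rfl
  rw [h1]
  refine (sum_le_sum hfib).trans ?_
  rw [sum_const, nsmul_eq_mul]
  refine mul_le_mul_of_nonneg_right ?_ hnn
  have h2 := card_crt S hS e W
  rw [← hqd, ← hA] at h2
  exact_mod_cast h2

end Pool.Agent.L0h5.TF
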