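import Pool.Agent.L0h5.TF.Exp
import Pool.Agent.W125.RK2.SUB4

/-!
# Growth of the average
-/

set_option autoImplicit false

namespace Pool.Agent.L0h5.TF

open Finset Pool.Agent.W262.RK

open Classical in
/-- the indicator of the condition -/
noncomputable def iL (L : Bool → Bool → Bool → Bool → Prop) (v h : Bool × Bool) : ℝ :=
  if L v.1 v.2 h.1 h.2 then 1 else 0

lemma iL_nonneg (L : Bool → Bool → Bool → Bool → Prop) (v h : Bool × Bool) : 0 ≤ iL L v h := by
  unfold iL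
  split_ifs <;> norm_num

/-- the divisibility bits -/
def bv {k : ℕ} (p : ℕ) (D : Fin k → ℕ × ℕ) : Vk k := fun i => (dv p (D i).1, dv p (D i).2)

/-- the symbol bits -/
def bs {k : ℕ} (p : ℕ) (D : Fin k → ℕ × ℕ) : Vk k := fun i => (sgn p (D i).1, sgn p (D i).2)

/-- the pairs of divisors -/
def Dv (k s : ℕ) : Finset (Fin k → ℕ × ℕ) :=
  Fintype.piFinset (fun _ : Fin k => s.divisors ×ˢ s.divisors)

lemma Gs_def {k : ℕ} (lam : ℕ → Vk k → Vk k → ℝ) (s : ℕ) :
    Gs lam s = ∑ D ∈ Dv k s, ∏ p ∈ s.primeFactors, lam p (bv p D) (bs p D) := rfl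

lemma NL_pow (m k : ℕ) (L : ℕ → Bool → Bool → Bool → Bool → Prop) :
    (NL m L : ℝ) ^ k = ∑ D ∈ Dv k m, ∏ p ∈ m.primeFactors,
      ∏ i, iL (L p) (bv p D i) (bs p D i) := by
  classical
  have h1 : (NL m L : ℝ) = ∑ d ∈ m.divisors ×ˢ m.divisors, ∏ p ∈ m.primeFactors,
      iL (L p) (dv p d.1, dv p d.2) (sgn p d.1, sgn p d.2) := by
    unfold NL iL
    rw [card_filter]
    push_cast
    refine sum_congr rfl fun d _ => ?_
    rw [prod_boole]
  have h2 : (NL m L : ℝ) ^ k = ∏ _i : Fin k, (NL m L : ℝ) := by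
    rw [prod_const, card_univ, Fintype.card_fin]
  rw [h2, h1, prod_univ_sum]
  refine sum_congr rfl fun D _ => ?_
  rw [prod_comm]
  rfl

/-- the growth of the average -/
theorem sub_abs {St : Type} {k : ℕ} (Sp : ℕ → Finset St)
    (LS : St → ℕ → Bool → Bool → Bool → Bool → Prop) (lam : ℕ → Vk k → Vk k → ℝ)
    (b1 : ℝ) (m e : ℕ) (hme : Squarefree (m * e))
    (hlam : ∀ p, p.Prime → p ∣ m * e → ∀ v h, lam p v h =
      ∑ σ ∈ Sp p, (1 / 2) * ∏ i, iL (LS σ p) (v i) (h i))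
    (hb : ∀ p, p.Prime → p ∣ e → (1 / 2) * ((Sp p).card : ℝ) ≤ b1)
    (hXC : ∀ p, p.Prime → p ∣ m → ∀ σ ∈ Sp p, XC (LS σ p)) :
    Gs lam (m * e) ≤ (4 ^ k * b1) ^ e.primeFactors.card * Gs lam m := by
  classical
  have hm0 : m ≠ 0 := left_ne_zero_of_mul hme.ne_zero
  have he0 : e ≠ 0 := right_ne_zero_of_mul hme.ne_zero
  have hco : m.Coprime e := Nat.coprime_of_squarefree_mul hme
  have hpf : (m * e).primeFactors = m.primeFactors ∪ e.primeFactors :=
    Nat.primeFactors_mul hm0 he0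
  have hdj : Disjoint m.primeFactors e.primeFactors := hco.disjoint_primeFactors
  set S := (m * e).primeFactors with hS
  have hSp : ∀ p ∈ S, p.Prime ∧ p ∣ m * e := fun p hp =>
    ⟨Nat.prime_of_mem_primeFactors hp, Nat.dvd_of_mem_primeFactors hp⟩
  -- the conditions of an assignment
  set LA : (∀ p ∈ S, St) → ℕ → Bool → Bool → Bool → Bool → Prop := fun σ p =>
    if h : p ∈ S then LS (σ p h) p else fun _ _ _ _ => True with hLA
  -- the left side
  have hl : Gs lam (m * e) = ∑ σ ∈ S.pi Sp, (1 / 2) ^ S.card * (NL (m * e) (LA σ) : ℝ) ^ k := by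
    rw [Gs_def]
    have h1 : ∀ D ∈ Dv k (m * e), ∏ p ∈ S, lam p (bv p D) (bs p D) =
        ∑ σ ∈ S.pi Sp, ∏ x ∈ S.attach, ((1 / 2) * ∏ i, iL (LS (σ x.1 x.2) x.1)
          (bv x.1 D i) (bs x.1 D i)) := by
      intro D _
      rw [prod_congr rfl fun p hp => hlam p (hSp p hp).1 (hSp p hp).2 (bv p D) (bs p D)]
      exact prod_sum S Sp fun p σ => (1 / 2) * ∏ i, iL (LS σ p) (bv p D i) (bs p D i)
    rw [sum_congr rfl h1, sum_comm]
    refine sum_congr rfl fun σ _ => ?_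
    rw [NL_pow, mul_sum]
    refine sum_congr rfl fun D _ => ?_
    rw [prod_mul_distrib, prod_const, card_attach]
    congr 1
    rw [← prod_attach S (fun p => ∏ i, iL (LA σ p) (bv p D i) (bs p D i))]
    refine prod_congr rfl fun x _ => ?_
    rw [hLA]
    simp only [x.2, dite_true]
  -- the right side
  have hr : ∑ σ ∈ S.pi Sp, (1 / 2) ^ S.card * (NL m (LA σ) : ℝ) ^ k =
      ∑ D ∈ Dv k m, ∏ p ∈ S, ∑ σ ∈ Sp p, (1 / 2) *
        (if p ∣ m then ∏ i, iL (LS σ p) (bv p D i) (bs p D i) else 1) := by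
    have h1 : ∀ D ∈ Dv k m, ∏ p ∈ S, ∑ σ ∈ Sp p, (1 / 2 : ℝ) *
        (if p ∣ m then ∏ i, iL (LS σ p) (bv p D i) (bs p D i) else 1) =
        ∑ σ ∈ S.pi Sp, ∏ x ∈ S.attach, ((1 / 2) *
          (if x.1 ∣ m then ∏ i, iL (LS (σ x.1 x.2) x.1) (bv x.1 D i) (bs x.1 D i) else 1)) := by
      intro D _
      exact prod_sum S Sp fun p σ => (1 / 2 : ℝ) *
        (if p ∣ m then ∏ i, iL (LS σ p) (bv p D i) (bs p D i) else 1)
    rw [sum_congr rfl h1, sum_comm]
    refine sum_congr rfl fun σ _ => ?_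
    rw [NL_pow, mul_sum]
    refine sum_congr rfl fun D _ => ?_
    rw [prod_mul_distrib, prod_const, card_attach]
    congr 1
    have h2 : ∀ x ∈ S.attach, (if x.1 ∣ m then ∏ i, iL (LS (σ x.1 x.2) x.1) (bv x.1 D i)
        (bs x.1 D i) else 1) = (fun p => if p ∣ m then ∏ i, iL (LA σ p) (bv p D i) (bs p D i)
        else 1) x.1 := by
      intro x _
      rw [hLA]
      simp only [x.2, dite_true]
    rw [prod_congr rfl h2, prod_attach S (fun p => if p ∣ m then ∏ i, iL (LA σ p) (bv p D i)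
      (bs p D i) else 1), ← prod_filter]
    refine prod_congr ?_ fun _ _ => rfl
    ext p
    rw [mem_filter, Nat.mem_primeFactors, hS, Nat.mem_primeFactors]
    constructor
    · rintro ⟨h3, h4, -⟩
      exact ⟨⟨h3, h4.trans (Dvd.intro _ rfl), hme.ne_zero⟩, h4⟩
    · rintro ⟨⟨h3, -, -⟩, h4⟩
      exact ⟨h3, h4, hm0⟩
  have hstep : ∀ σ ∈ S.pi Sp, (1 / 2 : ℝ) ^ S.card * (NL (m * e) (LA σ) : ℝ) ^ k ≤
      ((4 : ℝ) ^ k) ^ e.primeFactors.card * ((1 / 2) ^ S.card * (NL m (LA σ) : ℝ) ^ k) := by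
    intro σ hσ
    rw [mem_pi] at hσ
    have h1 := Pool.Agent.W125.RK2.sub4 m e (LA σ) hme (fun p hp hpm => by
      have hpS : p ∈ S := Nat.mem_primeFactors.2 ⟨hp, hpm.trans (Dvd.intro _ rfl), hme.ne_zero⟩
      rw [hLA]
      simp only [hpS, dite_true]
      exact hXC p hp hpm _ (hσ p hpS))
    have h2 : (NL (m * e) (LA σ) : ℝ) ≤ 4 ^ e.primeFactors.card * (NL m (LA σ) : ℝ) := by
      exact_mod_cast h1
    have h3 := pow_le_pow_left₀ (Nat.cast_nonneg _) h2 k
    rw [mul_pow, ← pow_mul, mul_comm e.primeFactors.card k, pow_mul] at h3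
    calc (1 / 2 : ℝ) ^ S.card * (NL (m * e) (LA σ) : ℝ) ^ k ≤
        (1 / 2 : ℝ) ^ S.card * ((4 ^ k) ^ e.primeFactors.card * (NL m (LA σ) : ℝ) ^ k) :=
          mul_le_mul_of_nonneg_left h3 (by positivity)
      _ = _ := by ring
  rw [hl]
  refine (sum_le_sum hstep).trans ?_
  rw [← mul_sum, hr, Gs_def, mul_pow, mul_assoc, mul_sum (a := b1 ^ e.primeFactors.card)]
  refine mul_le_mul_of_nonneg_left (sum_le_sum fun D _ => ?_) (by positivity)
  rw [hpf, prod_union hdj]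
  have h1 : ∏ p ∈ m.primeFactors, ∑ σ ∈ Sp p, (1 / 2 : ℝ) *
      (if p ∣ m then ∏ i, iL (LS σ p) (bv p D i) (bs p D i) else 1) =
      ∏ p ∈ m.primeFactors, lam p (bv p D) (bs p D) := by
    refine prod_congr rfl fun p hp => ?_
    have hp1 := Nat.prime_of_mem_primeFactors hp
    have hp2 := Nat.dvd_of_mem_primeFactors hp
    rw [hlam p hp1 (hp2.trans (Dvd.intro _ rfl))]
    simp only [hp2, if_true]
  have h2 : ∏ p ∈ e.primeFactors, ∑ σ ∈ Sp p, (1 / 2 : ℝ) *
      (if p ∣ m then ∏ i, iL (LS σ p) (bv p D i) (bs p D i) else 1) ≤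
      b1 ^ e.primeFactors.card := by
    rw [← prod_const]
    refine prod_le_prod (fun p _ => sum_nonneg fun σ _ => ?_) fun p hp => ?_
    · refine mul_nonneg (by norm_num) ?_
      split_ifs
      · exact prod_nonneg fun i _ => iL_nonneg _ _ _
      · norm_num
    · have hp1 := Nat.prime_of_mem_primeFactors hp
      have hp2 := Nat.dvd_of_mem_primeFactors hp
      have hpm : ¬ p ∣ m := fun h => by
        have := Nat.dvd_gcd h hp2
        rw [hco.gcd_eq_one] at this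
        exact hp1.one_lt.ne' (Nat.dvd_one.1 this)
      simp only [hpm, if_false, mul_one, sum_const, nsmul_eq_mul]
      rw [mul_comm]
      exact hb p hp1 hp2
  have h3 : 0 ≤ ∏ p ∈ m.primeFactors, lam p (bv p D) (bs p D) := by
    rw [← h1]
    refine prod_nonneg fun p _ => sum_nonneg fun σ _ => mul_nonneg (by norm_num) ?_
    split_ifs
    · exact prod_nonneg fun i _ => iL_nonneg _ _ _
    · norm_num
  rw [h1, mul_comm (b1 ^ _)]
  exact mul_le_mul_of_nonneg_left h2 h3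

end Pool.Agent.L0h5.TF
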