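import Pool.Agent.L0h5.TF.Rank
import Pool.Agent.L0h5.TF.Crt
import Pool.Agent.L0h5.TF.Sub

/-!
# The count with given small prime factors
-/

set_option autoImplicit false
set_option linter.unusedSectionVars false

namespace Pool.Agent.L0h5.TF

open Finset Polynomial Pool.Agent.W262.RK Pool.Agent.L0h5.MR
open Pool.Agent.W307.RT (S1 S2)

section

variable {J : Type} [Fintype J] [DecidableEq J]

/-- the states -/
def Sp (P : J → ℤ[X]) (p : ℕ) : Finset (Σ _ : J, ℕ × Bool) :=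
  univ.sigma fun j => rts (P j) p ×ˢ (univ : Finset Bool)

/-- the condition of a state -/
def LS (cls : J → Fin 4) (a : Fin 3 → ℤ) (P : J → ℤ[X]) (σ : Σ _ : J, ℕ × Bool) (p : ℕ) :
    Bool → Bool → Bool → Bool → Prop :=
  LL (cls σ.1) (kapP cls a P σ.1 σ.2.1) σ.2.2 p

/-- the local average of the family -/
noncomputable def lamP (k : ℕ) (cls : J → Fin 4) (a : Fin 3 → ℤ) (P : J → ℤ[X]) (p : ℕ)
    (v h : Vk k) : ℝ := lamJ cls (kapP cls a P) P p v h

variable {cls : J → Fin 4} {a : Fin 3 → ℤ} {P : J → ℤ[X]} {z k : ℕ}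

lemma mem_Sp {p : ℕ} {σ : Σ _ : J, ℕ × Bool} :
    σ ∈ Sp P p ↔ σ.2.1 < p ∧ (p : ℤ) ∣ (P σ.1).eval (σ.2.1 : ℤ) := by
  unfold Sp rts
  rw [mem_sigma, mem_product, mem_filter, mem_range]
  simp

lemma lamP_eq (p : ℕ) (v h : Vk k) : lamP k cls a P p v h =
    ∑ σ ∈ Sp P p, (1 / 2) * ∏ i, iL (LS cls a P σ p) (v i) (h i) := by
  unfold lamP lamJ Sp lst
  rw [sum_sigma]
  refine sum_congr rfl fun j _ => ?_
  rw [sum_product]
  rfl

lemma lamP_nonneg (p : ℕ) (v h : Vk k) : 0 ≤ lamP k cls a P p v h := by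
  rw [lamP_eq]
  exact sum_nonneg fun σ _ => mul_nonneg (by norm_num) (prod_nonneg fun i _ => iL_nonneg _ _ _)

lemma card_Sp (p : ℕ) : (Sp P p).card = 2 * ∑ j, rho (P j) p := by
  unfold Sp
  rw [card_sigma, mul_sum]
  refine sum_congr rfl fun j _ => ?_
  rw [card_product, card_rts, card_univ, Fintype.card_bool, mul_comm]

open Classical in
/-- the classes modulo `p ^ 2` that satisfy the conditions -/
noncomputable def Wf (cls : J → Fin 4) (a : Fin 3 → ℤ) (P : J → ℤ[X]) (p : ℕ)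
    (D : Fin k → ℕ × ℕ) : Finset ℕ :=
  (range (p ^ 2)).filter (fun x : ℕ => ∃ j, (p : ℤ) ∣ (P j).eval (x : ℤ) ∧
    ¬ (p : ℤ) ^ 2 ∣ (P j).eval (x : ℤ) ∧ ∀ i, LL (cls j) (kapP cls a P j (x % p))
      (sg0 p ((P j).eval (x : ℤ) / p)) p (bv p D i).1 (bv p D i).2 (bs p D i).1 (bs p D i).2)

lemma card_Wf (g : Gz P a z) {p : ℕ} (hp : p.Prime) (hz : z < p) (D : Fin k → ℕ × ℕ) :
    ((Wf cls a P p D).card : ℝ) ≤ p * lamP k cls a P p (bv p D) (bs p D) := by
  classical
  set A : (Σ _ : J, ℕ × Bool) → Finset ℕ := fun σ => (range (p ^ 2)).filter (fun x : ℕ =>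
    x % p = σ.2.1 ∧ ¬ (p : ℤ) ^ 2 ∣ (P σ.1).eval (x : ℤ) ∧
      sg0 p ((P σ.1).eval (x : ℤ) / p) = σ.2.2) with hA
  set Q : (Σ _ : J, ℕ × Bool) → Prop := fun σ => ∀ i, LS cls a P σ p (bv p D i).1 (bv p D i).2
    (bs p D i).1 (bs p D i).2 with hQ
  have hsub : Wf cls a P p D ⊆ (Sp P p).biUnion fun σ => if Q σ then A σ else ∅ := by
    intro x hx
    unfold Wf at hx
    rw [mem_filter] at hx
    obtain ⟨hx1, j, hj1, hj2, hj3⟩ := hx
    rw [mem_biUnion]
    refine ⟨⟨j, x % p, sg0 p ((P j).eval (x : ℤ) / p)⟩, ?_, ?_⟩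
    · rw [mem_Sp]
      exact ⟨Nat.mod_lt _ hp.pos, (dvd_eval_congr (P j) (mod_dvd x p)).1 hj1⟩
    · have hj3' : Q ⟨j, x % p, sg0 p ((P j).eval (x : ℤ) / p)⟩ := hj3
      rw [if_pos hj3', hA, mem_filter]
      exact ⟨hx1, rfl, hj2, rfl⟩
  have h1 : ((Wf cls a P p D).card : ℝ) ≤
      ∑ σ ∈ Sp P p, ((if Q σ then A σ else ∅ : Finset ℕ).card : ℝ) := by
    exact_mod_cast (card_le_card hsub).trans card_biUnion_le
  refine h1.trans ?_
  rw [lamP_eq, mul_sum]
  refine sum_le_sum fun σ hσ => ?_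
  have h2 : ∏ i, iL (LS cls a P σ p) (bv p D i) (bs p D i) = if Q σ then (1 : ℝ) else 0 := by
    unfold iL
    rw [prod_boole]
    simp only [mem_univ, true_implies]
    rfl
  rw [h2]
  split_ifs with h3
  · have h4 := mem_Sp.1 hσ
    have h5 : p ≠ 2 := by
      have := g.two
      omega
    have h6 := card_half (P σ.1) hp h5 σ.2.1 σ.2.2 h4.2 (g.der p hp hz σ.1 _ h4.2)
    refine h6.trans (le_of_eq ?_)
    ring
  · simp

/-- the classes with square -/
def Vf (P : J → ℤ[X]) (p : ℕ) : Finset ℕ :=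
  (range (p ^ 2)).filter (fun x : ℕ => (p : ℤ) ^ 2 ∣ ∏ j, (P j).eval (x : ℤ))

lemma card_Vf (g : Gz P a z) {p : ℕ} (hp : p.Prime) (hz : z < p) :
    (Vf P p).card ≤ ∑ j, (P j).natDegree := by
  have hsub : Vf P p ⊆ univ.biUnion fun j => (range (p ^ 2)).filter (fun x : ℕ =>
      (p : ℤ) ^ 2 ∣ (P j).eval (x : ℤ)) := by
    intro x hx
    unfold Vf at hx
    rw [mem_filter, ← eval_FF] at hx
    have h1 := (dvd_FF hp _).1 ((dvd_pow_self (p : ℤ) two_ne_zero).trans hx.2)
    obtain ⟨j, hj⟩ := h1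
    rw [mem_biUnion]
    exact ⟨j, mem_univ _, mem_filter.2 ⟨hx.1, (g.sq_dvd_FF hp hz hj).1 hx.2⟩⟩
  refine (card_le_card hsub).trans (card_biUnion_le.trans (sum_le_sum fun j _ => ?_))
  exact (card_sq (P j) hp (g.der p hp hz j)).trans (rho_le (P j) hp (g.lc p hp hz j))

lemma sub_growth (g : Gz P a z) {y m e : ℕ} (hme : m * e ∈ (PP z y).divisors) :
    Gs (lamP k cls a P) (m * e) ≤
      (4 ^ k * ((∑ j, (P j).natDegree : ℕ) : ℝ)) ^ e.primeFactors.card *
        Gs (lamP k cls a P) m := by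
  have hPS : ∀ p : ℕ, p.Prime → p ∣ m * e → z < p := fun p hp h => (dv_prime hme hp h).1
  refine sub_abs (Sp P) (LS cls a P) (lamP k cls a P) _ m e (dv_squarefree hme)
    (fun p _ _ v h => lamP_eq p v h) (fun p hp hd => ?_) fun p hp hd σ hσ => ?_
  · rw [card_Sp]
    have h1 : ∑ j, rho (P j) p ≤ ∑ j, (P j).natDegree := sum_le_sum fun j _ =>
      rho_le (P j) hp (g.lc p hp (hPS p hp (hd.trans (Dvd.intro_left _ rfl))) j)
    have h2 : ((∑ j, rho (P j) p : ℕ) : ℝ) ≤ ((∑ j, (P j).natDegree : ℕ) : ℝ) := by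
      exact_mod_cast h1
    push_cast at h2 ⊢
    linarith
  · have hz := hPS p hp (hd.trans (Dvd.intro _ rfl))
    refine Pool.Agent.W342.RK2.xcl _ _ _ p hp ?_ fun k => ?_
    · have := g.two
      omega
    · exact kap_unit g hp hz (mem_Sp.1 hσ).2 k

lemma Gs_nonneg (s : ℕ) : 0 ≤ Gs (lamP k cls a P) s := by
  rw [Gs_def]
  exact sum_nonneg fun D _ => prod_nonneg fun p _ => lamP_nonneg p _ _

lemma gw_nonneg {c z y s : ℕ} (hc : c ≤ z) (hs : s ∈ (PP z y).divisors) : 0 ≤ gw 1 c s := by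
  unfold gw
  refine prod_nonneg fun p hp => ?_
  have h1 := (dv_prime hs (Nat.prime_of_mem_primeFactors hp) (Nat.dvd_of_mem_primeFactors hp)).1
  have h2 : (c : ℝ) ≤ p := by exact_mod_cast (by omega : c ≤ p)
  exact div_nonneg zero_le_one (by linarith)

open Classical in
/-- the count for one tuple of divisors -/
lemma cntD (g : Gz P a z) {c N K y0 : ℕ} {C : ℝ} (hc : c = ∑ j, (P j).natDegree)
    (hcz : 2 * c + 2 ≤ z) (hC : 0 ≤ C) (hsv : SvC (FF P) c N z C K y0)
    {X y Y s v u : ℕ} (hy : y0 ≤ y) (hzy : z < y) (hyX : y ^ K ≤ X)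
    (hs : s ∈ (PP z y).divisors) (hv : v ∈ (PP z y).divisors) (hu : u ∈ (PP y Y).divisors)
    (hsvu : (s * v * u) ^ 8 ≤ X) (hcop : s.Coprime v) (D : Fin k → ℕ × ℕ)
    (T : Finset ℕ) (hT : ∀ t ∈ T, t ∈ Icc 1 X ∧ S1 z y (fF P t) () = s ∧
      S2 z y (fF P t) () = v ∧ (u : ℤ) ∣ (FF P).eval (t : ℤ) ∧
      ∀ p ∈ s.primeFactors, ∀ i, Lt cls a P t p (bv p D i).1 (bv p D i).2 (bs p D i).1
        (bs p D i).2) :
    (T.card : ℝ) ≤ C * X * ((∏ p ∈ s.primeFactors, lamP k cls a P p (bv p D) (bs p D)) *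
      gw 1 c s) * ((c : ℝ) ^ v.primeFactors.card * (gw 1 c v / v)) *
      ((c : ℝ) ^ u.primeFactors.card / u) / (Real.log y) ^ N := by
  have hs0 : s ≠ 0 := dv_ne_zero hs
  have hv0 : v ≠ 0 := dv_ne_zero hv
  have hu0 : u ≠ 0 := dv_ne_zero hu
  have hsz : ∀ p ∈ s.primeFactors, (z < p ∧ p ≤ y) ∧ p.Prime := fun p hp =>
    ⟨dv_prime hs (Nat.prime_of_mem_primeFactors hp) (Nat.dvd_of_mem_primeFactors hp),
      Nat.prime_of_mem_primeFactors hp⟩
  have hvz : ∀ p ∈ v.primeFactors, (z < p ∧ p ≤ y) ∧ p.Prime := fun p hp =>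
    ⟨dv_prime hv (Nat.prime_of_mem_primeFactors hp) (Nat.dvd_of_mem_primeFactors hp),
      Nat.prime_of_mem_primeFactors hp⟩
  have huz : ∀ p ∈ u.primeFactors, (y < p ∧ p ≤ Y) ∧ p.Prime := fun p hp =>
    ⟨dv_prime hu (Nat.prime_of_mem_primeFactors hp) (Nat.dvd_of_mem_primeFactors hp),
      Nat.prime_of_mem_primeFactors hp⟩
  have dsv : Disjoint s.primeFactors v.primeFactors := hcop.disjoint_primeFactors
  have dsvu : Disjoint (s.primeFactors ∪ v.primeFactors) u.primeFactors := by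
    rw [disjoint_left]
    intro p hp hp'
    have h1 := (huz p hp').1.1
    rcases mem_union.1 hp with h2 | h2
    · have := (hsz p h2).1.2
      omega
    · have := (hvz p h2).1.2
      omega
  set S := (s.primeFactors ∪ v.primeFactors) ∪ u.primeFactors with hS
  have hSp : ∀ p ∈ S, p.Prime := by
    intro p hp
    rcases mem_union.1 hp with h1 | h1
    · rcases mem_union.1 h1 with h2 | h2
      · exact (hsz p h2).2
      · exact (hvz p h2).2
    · exact (huz p h1).2
  set e : ℕ → ℕ := fun p => if p ∈ u.primeFactors then 1 else 2 with he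
  set W : ℕ → Finset ℕ := fun p => if p ∈ u.primeFactors then rts (FF P) p
    else if p ∈ v.primeFactors then Vf P p else Wf cls a P p D with hW
  -- values on the parts
  have es : ∀ p ∈ s.primeFactors, p ∉ u.primeFactors ∧ p ∉ v.primeFactors := fun p hp =>
    ⟨fun h => (disjoint_left.1 dsvu (mem_union_left _ hp)) h,
      fun h => (disjoint_left.1 dsv hp) h⟩
  have ev : ∀ p ∈ v.primeFactors, p ∉ u.primeFactors := fun p hp h =>
    (disjoint_left.1 dsvu (mem_union_right _ hp)) h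
  have splitN : ∀ F : ℕ → ℕ, ∏ p ∈ S, F p =
      (∏ p ∈ s.primeFactors, F p) * (∏ p ∈ v.primeFactors, F p) * ∏ p ∈ u.primeFactors, F p := by
    intro F
    rw [hS, prod_union dsvu, prod_union dsv]
  have splitR : ∀ F : ℕ → ℝ, ∏ p ∈ S, F p =
      (∏ p ∈ s.primeFactors, F p) * (∏ p ∈ v.primeFactors, F p) * ∏ p ∈ u.primeFactors, F p := by
    intro F
    rw [hS, prod_union dsvu, prod_union dsv]
  have prs : ∏ p ∈ s.primeFactors, p = s := Nat.prod_primeFactors_of_squarefree (dv_squarefree hs)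
  have prv : ∏ p ∈ v.primeFactors, p = v := Nat.prod_primeFactors_of_squarefree (dv_squarefree hv)
  have pru : ∏ p ∈ u.primeFactors, p = u := Nat.prod_primeFactors_of_squarefree (dv_squarefree hu)
  have hq : ∏ p ∈ S, p ^ e p = s ^ 2 * v ^ 2 * u := by
    rw [splitN]
    congr 1
    · congr 1
      · rw [← prs, ← prod_pow]
        rw [prs]
        refine prod_congr rfl fun p hp => ?_
        rw [he]
        simp only [(es p hp).1, if_false]
      · rw [← prv, ← prod_pow]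
        rw [prv]
        refine prod_congr rfl fun p hp => ?_
        rw [he]
        simp only [ev p hp, if_false]
    · conv_rhs => rw [← pru]
      refine prod_congr rfl fun p hp => ?_
      rw [he]
      simp only [hp, if_true, pow_one]
  have hqX : (∏ p ∈ S, p ^ e p) ^ 4 ≤ X := by
    rw [hq]
    refine le_trans ?_ hsvu
    have h1 : (s ^ 2 * v ^ 2 * u) ≤ (s * v * u) ^ 2 := by
      have h2 : u ≤ u ^ 2 := Nat.le_self_pow two_ne_zero u
      calc s ^ 2 * v ^ 2 * u ≤ s ^ 2 * v ^ 2 * u ^ 2 := Nat.mul_le_mul_left _ h2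
        _ = _ := by ring
    calc (s ^ 2 * v ^ 2 * u) ^ 4 ≤ ((s * v * u) ^ 2) ^ 4 := Nat.pow_le_pow_left h1 4
      _ = _ := by rw [← pow_mul]
  have hmain := crt_count hsv hC (by omega) hy hzy hyX S hSp e (fun p _ => by
      rw [he]
      simp only
      split_ifs <;> norm_num) W hqX T (fun t ht => by
    obtain ⟨h1, h2, h3, h4, h5⟩ := hT t ht
    refine ⟨h1, fun p hp => ?_, fun p hp hpS hd => ?_⟩
    · rcases mem_union.1 hp with hp1 | hp1
      · rcases mem_union.1 hp1 with hp2 | hp2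
        · -- `p ∣ s`
          have hpp := (hsz p hp2).2
          rw [hW, he]
          simp only [(es p hp2).1, (es p hp2).2, if_false]
          have h6 : p ∣ S1 z y (fF P t) () := by
            rw [h2]
            exact Nat.dvd_of_mem_primeFactors hp2
          obtain ⟨-, h7, h8⟩ := (dvd_S1 hpp).1 h6
          obtain ⟨j, hj⟩ := (dvd_FF hpp _).1 h7
          have h9 : ¬ (p : ℤ) ^ 2 ∣ (P j).eval (t : ℤ) := by
            rw [← g.sq_dvd_FF hpp (hsz p hp2).1.1 hj]
            exact h8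
          have hm := mod_dvd t (p ^ 2)
          rw [Nat.cast_pow] at hm
          have hm1 : (p : ℤ) ∣ (t : ℤ) - ((t % p ^ 2 : ℕ) : ℤ) :=
            (dvd_pow_self (p : ℤ) two_ne_zero).trans hm
          have h10 : (p : ℤ) ∣ (P j).eval ((t % p ^ 2 : ℕ) : ℤ) :=
            (dvd_eval_congr (P j) hm1).1 hj
          unfold Wf
          rw [mem_filter, mem_range]
          refine ⟨Nat.mod_lt _ (pow_pos hpp.pos 2), j, h10, fun h => h9
            ((dvd_eval_congr (P j) hm).2 h), fun i => ?_⟩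
          have h11 := h5 p hp2 i j hj
          rw [Nat.mod_mod_of_dvd t (dvd_pow_self p two_ne_zero),
            ← sg0_congr (P j) hpp hm h10]
          exact h11
        · -- `p ∣ v`
          have hpp := (hvz p hp2).2
          rw [hW, he]
          simp only [ev p hp2, if_false, hp2, if_true]
          have h6 : p ∣ S2 z y (fF P t) () := by
            rw [h3]
            exact Nat.dvd_of_mem_primeFactors hp2
          obtain ⟨-, h7⟩ := (dvd_S2 hpp).1 h6
          have hm := mod_dvd t (p ^ 2)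
          rw [Nat.cast_pow] at hm
          unfold Vf
          rw [mem_filter, mem_range, ← eval_FF]
          exact ⟨Nat.mod_lt _ (pow_pos hpp.pos 2), (dvd_eval_congr (FF P) hm).1 h7⟩
      · -- `p ∣ u`
        have hpp := (huz p hp1).2
        rw [hW, he]
        simp only [hp1, if_true, pow_one]
        unfold rts
        rw [mem_filter, mem_range]
        refine ⟨Nat.mod_lt _ hpp.pos, (dvd_eval_congr (FF P) (mod_dvd t p)).1 ?_⟩
        exact (Int.natCast_dvd_natCast.2 (Nat.dvd_of_mem_primeFactors hp1)).trans h4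
    · have hpp := (mem_PS.1 hp).2
      apply hpS
      by_cases h6 : (p : ℤ) ^ 2 ∣ (FF P).eval (t : ℤ)
      · have h7 : p ∣ v := by
          rw [← h3]
          exact (dvd_S2 hpp).2 ⟨hp, h6⟩
        exact mem_union_left _ (mem_union_right _ (Nat.mem_primeFactors.2 ⟨hpp, h7, hv0⟩))
      · have h7 : p ∣ s := by
          rw [← h2]
          exact (dvd_S1 hpp).2 ⟨hp, hd, h6⟩
        exact mem_union_left _ (mem_union_left _ (Nat.mem_primeFactors.2 ⟨hpp, h7, hs0⟩)))
  -- the bound for the classes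
  have hWs : ∀ p ∈ s.primeFactors, ((W p).card : ℝ) ≤
      p * lamP k cls a P p (bv p D) (bs p D) := by
    intro p hp
    rw [hW]
    simp only [(es p hp).1, (es p hp).2, if_false]
    exact card_Wf g (hsz p hp).2 (hsz p hp).1.1 D
  have hWv : ∀ p ∈ v.primeFactors, ((W p).card : ℝ) ≤ c := by
    intro p hp
    rw [hW]
    simp only [ev p hp, if_false, hp, if_true]
    rw [hc]
    exact_mod_cast card_Vf g (hvz p hp).2 (hvz p hp).1.1
  have hWu : ∀ p ∈ u.primeFactors, ((W p).card : ℝ) ≤ c := by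
    intro p hp
    rw [hW]
    simp only [hp, if_true]
    rw [card_rts, hc]
    exact_mod_cast g.rho_le_deg (huz p hp).2 (by have := (huz p hp).1.1; omega)
  have hWprod : (∏ p ∈ S, ((W p).card : ℝ)) ≤
      (∏ p ∈ s.primeFactors, ((p : ℝ) * lamP k cls a P p (bv p D) (bs p D))) *
        (c : ℝ) ^ v.primeFactors.card * (c : ℝ) ^ u.primeFactors.card := by
    rw [splitR, ← prod_const, ← prod_const]
    refine mul_le_mul (mul_le_mul
      (prod_le_prod (fun _ _ => Nat.cast_nonneg _) hWs)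
      (prod_le_prod (fun _ _ => Nat.cast_nonneg _) hWv)
      (prod_nonneg fun _ _ => Nat.cast_nonneg _)
      (prod_nonneg fun p _ => mul_nonneg (Nat.cast_nonneg _) (lamP_nonneg p _ _)))
      (prod_le_prod (fun _ _ => Nat.cast_nonneg _) hWu)
      (prod_nonneg fun _ _ => Nat.cast_nonneg _)
      (mul_nonneg (prod_nonneg fun p _ => mul_nonneg (Nat.cast_nonneg _) (lamP_nonneg p _ _))
        (prod_nonneg fun _ _ => Nat.cast_nonneg _))
  have hSf : S.filter (fun p => p ∈ PS z y) = s.primeFactors ∪ v.primeFactors := by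
    ext p
    rw [mem_filter, hS, mem_union]
    constructor
    · rintro ⟨h1 | h1, h2⟩
      · exact h1
      · have h3 := (huz p h1).1.1
        have h4 := (mem_PS.1 h2).1.2
        omega
    · intro h1
      refine ⟨Or.inl h1, ?_⟩
      rcases mem_union.1 h1 with h2 | h2
      · exact mem_PS.2 (hsz p h2)
      · exact mem_PS.2 (hvz p h2)
  have hpc : ∀ p : ℕ, z < p → (0 : ℝ) < (p : ℝ) - c := by
    intro p hp
    have h1 : (c : ℝ) + 1 ≤ p := by exact_mod_cast (by omega : c + 1 ≤ p)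
    linarith
  have hlog : 0 ≤ (Real.log y) ^ N := pow_nonneg (Real.log_natCast_nonneg y) _
  have hnn : 0 ≤ C * (X / ((∏ p ∈ S, p ^ e p : ℕ) : ℝ)) *
      (∏ p ∈ S.filter (fun p => p ∈ PS z y), (p : ℝ) / ((p : ℝ) - c)) / (Real.log y) ^ N := by
    refine div_nonneg (mul_nonneg (mul_nonneg hC (by positivity)) ?_) hlog
    refine prod_nonneg fun p hp => ?_
    have h1 := (mem_PS.1 (mem_filter.1 hp).2).1.1
    exact div_nonneg (Nat.cast_nonneg _) (hpc p h1).le
  refine hmain.trans ((mul_le_mul_of_nonneg_right hWprod hnn).trans (le_of_eq ?_))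
  rw [hSf, prod_union dsv, hq]
  have hsr : ∏ p ∈ s.primeFactors, (p : ℝ) = s := by
    rw [← Nat.cast_prod, prs]
  have hvr : ∏ p ∈ v.primeFactors, (p : ℝ) = v := by
    rw [← Nat.cast_prod, prv]
  have g1 : ∏ p ∈ s.primeFactors, ((p : ℝ) / ((p : ℝ) - c)) = s * gw 1 c s := by
    unfold gw
    conv_rhs => rw [← hsr]
    rw [← prod_mul_distrib]
    exact prod_congr rfl fun p _ => by ring
  have g2 : ∏ p ∈ v.primeFactors, ((p : ℝ) / ((p : ℝ) - c)) = v * gw 1 c v := by
    unfold gw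
    conv_rhs => rw [← hvr]
    rw [← prod_mul_distrib]
    exact prod_congr rfl fun p _ => by ring
  rw [g1, g2, prod_mul_distrib, hsr]
  have hs' : (s : ℝ) ≠ 0 := by exact_mod_cast hs0
  have hv' : (v : ℝ) ≠ 0 := by exact_mod_cast hv0
  have hu' : (u : ℝ) ≠ 0 := by exact_mod_cast hu0
  push_cast
  have e1 : (s : ℝ) * (s * v) / ((s : ℝ) ^ 2 * (v : ℝ) ^ 2 * u) = 1 / (v * u) := by
    field_simp
  generalize ∏ p ∈ s.primeFactors, lamP k cls a P p (bv p D) (bs p D) = Pi0 at *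
  generalize gw 1 c s = gs at *
  generalize gw 1 c v = gv at *
  generalize (c : ℝ) ^ v.primeFactors.card = cv at *
  generalize (c : ℝ) ^ u.primeFactors.card = cu at *
  generalize (Real.log y) ^ N = L at *
  calc (s : ℝ) * Pi0 * cv * cu * (C * (X / ((s : ℝ) ^ 2 * (v : ℝ) ^ 2 * u)) *
        (s * gs * (v * gv)) / L) =
      C * X * (Pi0 * gs) * (cv * gv) * cu * ((s : ℝ) * (s * v) / ((s : ℝ) ^ 2 * (v : ℝ) ^ 2 * u)) /
        L := by ring
    _ = _ := by
      rw [e1]
      ring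

end

end Pool.Agent.L0h5.TF
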