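import Pool.Agent.L0h5.TF.Four
import Pool.Agent.W125.RK2.COMB4

/-!
# Unlinked sets
-/

set_option autoImplicit false
set_option linter.unusedSectionVars false

namespace Pool.Agent.L0h5.TF

open Finset Pool.Agent.W262.RK

lemma Al_three (v x : Bool × Bool) :
    (Al 3 v x = true) ↔ Even ((if (x.1 && v.1) = true then 1 else 0) +
      (if (x.2 && v.2) = true then 1 else 0)) := by
  rcases v with ⟨v1, v2⟩
  rcases x with ⟨x1, x2⟩
  cases v1 <;> cases v2 <;> cases x1 <;> cases x2 <;> decide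

lemma odd_bit (v x : Bool × Bool) :
    decide (Odd ((if (x.1 && v.1) = true then 1 else 0) +
      (if (x.2 && v.2) = true then 1 else 0))) = xor (x.1 && v.1) (x.2 && v.2) := by
  rcases v with ⟨v1, v2⟩
  rcases x with ⟨x1, x2⟩
  cases v1 <;> cases v2 <;> cases x1 <;> cases x2 <;> decide

lemma nd_one (x v : Vk 1) : nd x v = ((if ((x 0).1 && (v 0).1) = true then 1 else 0) +
      (if ((x 0).2 && (v 0).2) = true then 1 else 0)) := by
  unfold nd
  rw [Fin.sum_univ_one]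

section

variable {J : Type} [Fintype J] [DecidableEq J] {cls : J → Fin 4}

lemma wst_one (c : Fin 4) (l : Lb 1) : wst c l.1.1 l.1.2 =
    if Al c (l.1.1 0) (l.1.2 0) = true then (if c = 3 then (1 / 4 : ℝ) else 1 / 2) else 0 := by
  unfold wst
  rw [Fin.prod_univ_one]
  by_cases hc : c = 3
  · subst hc
    have h1 : Al 3 (l.1.1 0) (l.1.2 0) = true := by
      rw [Al_three, ← nd_one]
      exact l.2
    simp [h1]
  · simp [hc]

/-- the largest unlinked set for one copy -/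
lemma comb_one (n : ℕ) (hn : ∀ k, k ≠ 3 → (univ.filter (fun j => cls j = k)).card = n)
    (U : Finset (Lb 1)) (hU : ∀ i ∈ U, ∀ i' ∈ U, Ll i i' = Ll i' i) :
    ∑ i ∈ U, ∑ j, wst (cls j) i.1.1 i.1.2 ≤ (Fintype.card J : ℕ) := by
  classical
  set U' : Finset (I4 cls) := univ.filter (fun i : I4 cls =>
    ∃ l ∈ U, l.1.1 0 = i.1.2.1 ∧ l.1.2 0 = i.1.2.2) with hU'
  have h1 := Pool.Agent.W125.RK2.comb4 J cls n hn U' (by
    intro i hi i' hi'
    obtain ⟨l, hl, e1, e2⟩ := (mem_filter.1 hi).2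
    obtain ⟨l', hl', e1', e2'⟩ := (mem_filter.1 hi').2
    have h2 := hU l hl l' hl'
    unfold Ll at h2
    rw [nd_one, nd_one, odd_bit, odd_bit, e1, e2, e1', e2'] at h2
    unfold L4
    exact h2)
  refine le_trans (le_of_eq ?_) h1
  have h2 : ∑ i ∈ U, ∑ j, wst (cls j) i.1.1 i.1.2 =
      ∑ q ∈ (U ×ˢ (univ : Finset J)).filter (fun q => Al (cls q.2) (q.1.1.1 0) (q.1.1.2 0) = true),
        (if cls q.2 = 3 then (1 / 4 : ℝ) else 1 / 2) := by
    rw [sum_filter, sum_product]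
    refine sum_congr rfl fun l _ => sum_congr rfl fun j _ => ?_
    exact wst_one (cls j) l
  rw [h2]
  refine sum_bij (fun q hq => (⟨(q.2, q.1.1.1 0, q.1.1.2 0), (mem_filter.1 hq).2⟩ : I4 cls))
    ?_ ?_ ?_ ?_
  · intro q hq
    exact mem_filter.2 ⟨mem_univ _, q.1, (mem_product.1 (mem_filter.1 hq).1).1, rfl, rfl⟩
  · intro q _ q' _ h
    have h3 := congrArg Subtype.val h
    simp only [Prod.mk.injEq] at h3
    obtain ⟨h4, h5, h6⟩ := h3
    refine Prod.ext (Subtype.ext (Prod.ext ?_ ?_)) h4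
    · funext i
      rw [Subsingleton.elim i 0]
      exact h5
    · funext i
      rw [Subsingleton.elim i 0]
      exact h6
  · intro i hi
    obtain ⟨l, hl, e1, e2⟩ := (mem_filter.1 hi).2
    refine ⟨(l, i.1.1), ?_, ?_⟩
    · rw [mem_filter, mem_product]
      refine ⟨⟨hl, mem_univ _⟩, ?_⟩
      show Al (cls i.1.1) (l.1.1 0) (l.1.2 0) = true
      rw [e1, e2]
      exact i.2
    · apply Subtype.ext
      exact Prod.ext rfl (Prod.ext e1 e2)
  · intro q _
    rfl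

lemma pos_one (n : ℕ) (hn : ∀ k, k ≠ 3 → (univ.filter (fun j => cls j = k)).card = n)
    [Nonempty J] (i : Lb 1) : 0 < ∑ j, wst (cls j) i.1.1 i.1.2 := by
  have h0 : ∀ j, 0 ≤ wst (cls j) i.1.1 i.1.2 := fun j => wst_nonneg _ _ _
  by_cases h3 : ∃ j, cls j = 3
  · obtain ⟨j, hj⟩ := h3
    refine lt_of_lt_of_le ?_ (single_le_sum (fun j _ => h0 j) (mem_univ j))
    rw [wst_one, hj]
    have h1 : Al 3 (i.1.1 0) (i.1.2 0) = true := by
      rw [Al_three, ← nd_one]
      exact i.2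
    simp [h1]
  · obtain ⟨j0⟩ := (inferInstance : Nonempty J)
    have hn0 : 0 < n := by
      have h4 : cls j0 ≠ 3 := fun h => h3 ⟨j0, h⟩
      rw [← hn (cls j0) h4]
      exact card_pos.2 ⟨j0, mem_filter.2 ⟨mem_univ _, rfl⟩⟩
    have hex : ∀ k : Fin 4, k ≠ 3 → ∃ j, cls j = k := by
      intro k hk
      have h5 : 0 < (univ.filter (fun j => cls j = k)).card := by
        rw [hn k hk]
        exact hn0
      obtain ⟨j, hj⟩ := card_pos.1 h5
      exact ⟨j, (mem_filter.1 hj).2⟩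
    have hal : ∃ k : Fin 4, k ≠ 3 ∧ Al k (i.1.1 0) (i.1.2 0) = true := by
      have h6 : Al 3 (i.1.1 0) (i.1.2 0) = true := by
        rw [Al_three, ← nd_one]
        exact i.2
      revert h6
      generalize i.1.1 0 = v
      generalize i.1.2 0 = x
      rcases v with ⟨v1, v2⟩
      rcases x with ⟨x1, x2⟩
      cases v1 <;> cases v2 <;> cases x1 <;> cases x2 <;> decide
    obtain ⟨k, hk3, hk⟩ := hal
    obtain ⟨j, hj⟩ := hex k hk3
    refine lt_of_lt_of_le ?_ (single_le_sum (fun j _ => h0 j) (mem_univ j))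
    rw [wst_one, hj, if_pos hk, if_neg hk3]
    norm_num

end

/-! ### many copies, only twists -/

/-- the local pairing -/
def ep (l w : (Bool × Bool) × (Bool × Bool)) : ℤ :=
  ((if (w.2.1 && l.1.1) = true then -1 else 1) * (if (w.2.2 && l.1.2) = true then -1 else 1)) *
  ((if (l.2.1 && w.1.1) = true then -1 else 1) * (if (l.2.2 && w.1.2) = true then -1 else 1))

lemma ep_orth (l l' : (Bool × Bool) × (Bool × Bool)) :
    ∑ w, ep l w * ep l' w = if l = l' then 16 else 0 := by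
  revert l l'
  decide +kernel

/-- the pairing -/
def Ep {k : ℕ} (l w : Vk k × Vk k) : ℤ := ∏ i, ep (l.1 i, l.2 i) (w.1 i, w.2 i)

lemma Ep_eq {k : ℕ} (l w : Vk k × Vk k) : Ep l w = (-1) ^ (nd w.2 l.1 + nd l.2 w.1) := by
  unfold Ep nd
  rw [pow_add, ← prod_pow_eq_pow_sum, ← prod_pow_eq_pow_sum, ← prod_mul_distrib]
  refine prod_congr rfl fun i _ => ?_
  unfold ep
  rw [pow_add, pow_add]
  congr 1
  · congr 1 <;> split_ifs <;> simp
  · congr 1 <;> split_ifs <;> simp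

lemma Ep_orth {k : ℕ} (l l' : Vk k × Vk k) :
    ∑ w : Vk k × Vk k, Ep l w * Ep l' w = if l = l' then 16 ^ k else 0 := by
  classical
  have h1 : ∑ w : Vk k × Vk k, Ep l w * Ep l' w =
      ∑ w : Fin k → (Bool × Bool) × (Bool × Bool),
        ∏ i, (ep (l.1 i, l.2 i) (w i) * ep (l'.1 i, l'.2 i) (w i)) := by
    refine Fintype.sum_equiv (Equiv.arrowProdEquivProdArrow (Fin k) (fun _ => Bool × Bool)
      (fun _ => Bool × Bool)).symm _ _ fun w => ?_
    unfold Ep
    rw [← prod_mul_distrib]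
    rfl
  have h0 := prod_univ_sum (fun _ : Fin k => (univ : Finset ((Bool × Bool) × (Bool × Bool))))
    (fun i w => ep (l.1 i, l.2 i) w * ep (l'.1 i, l'.2 i) w)
  rw [Fintype.piFinset_univ] at h0
  rw [h1, ← h0]
  rw [prod_congr rfl fun i _ => ep_orth (l.1 i, l.2 i) (l'.1 i, l'.2 i)]
  by_cases h : l = l'
  · subst h
    simp
  · rw [if_neg h]
    have h2 : ∃ i, ¬ ((l.1 i, l.2 i) = (l'.1 i, l'.2 i)) := by
      by_contra hcon
      push Not at hcon
      apply h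
      refine Prod.ext ?_ ?_
      · funext i
        exact congrArg Prod.fst (hcon i)
      · funext i
        exact congrArg Prod.snd (hcon i)
    obtain ⟨i, hi⟩ := h2
    exact prod_eq_zero (mem_univ i) (if_neg hi)

/-- an isotropic set has at most `4 ^ k` elements -/
lemma card_isotropic {k : ℕ} (U : Finset (Vk k × Vk k))
    (hU : ∀ l ∈ U, ∀ w ∈ U, Even (nd w.2 l.1 + nd l.2 w.1)) : U.card ≤ 4 ^ k := by
  classical
  have h1 : ∑ w : Vk k × Vk k, (∑ l ∈ U, Ep l w) ^ 2 = 16 ^ k * (U.card : ℤ) := by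
    have h2 : ∀ w : Vk k × Vk k, (∑ l ∈ U, Ep l w) ^ 2 = ∑ l ∈ U, ∑ l' ∈ U, Ep l w * Ep l' w := by
      intro w
      rw [sq, sum_mul_sum]
    rw [sum_congr rfl fun w _ => h2 w, sum_comm]
    have h3 : ∀ l ∈ U, ∑ w : Vk k × Vk k, ∑ l' ∈ U, Ep l w * Ep l' w = 16 ^ k := by
      intro l hl
      rw [sum_comm, sum_congr rfl fun l' _ => Ep_orth l l', sum_ite_eq, if_pos hl]
    rw [sum_congr rfl h3, sum_const, nsmul_eq_mul, mul_comm]
  have h2 : ∑ w ∈ U, (∑ l ∈ U, Ep l w) ^ 2 ≤ ∑ w : Vk k × Vk k, (∑ l ∈ U, Ep l w) ^ 2 :=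
    sum_le_sum_of_subset_of_nonneg (subset_univ _) fun w _ _ => sq_nonneg _
  have h3 : ∑ w ∈ U, (∑ l ∈ U, Ep l w) ^ 2 = (U.card : ℤ) * (U.card : ℤ) ^ 2 := by
    have h4 : ∀ w ∈ U, (∑ l ∈ U, Ep l w) ^ 2 = (U.card : ℤ) ^ 2 := by
      intro w hw
      have h5 : ∀ l ∈ U, Ep l w = 1 := by
        intro l hl
        rw [Ep_eq]
        exact (hU l hl w hw).neg_one_pow
      rw [sum_congr rfl h5, sum_const, nsmul_eq_mul, mul_one]
    rw [sum_congr rfl h4, sum_const, nsmul_eq_mul]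
  rw [h1, h3] at h2
  rcases U.card.eq_zero_or_pos with h0 | h0
  · rw [h0]
    exact Nat.zero_le _
  · have h4 : U.card * U.card ^ 2 ≤ 16 ^ k * U.card := by exact_mod_cast h2
    have h5 : U.card ^ 2 ≤ 16 ^ k := by
      rw [mul_comm (16 ^ k)] at h4
      exact Nat.le_of_mul_le_mul_left h4 h0
    have h6 : (16 : ℕ) ^ k = (4 ^ k) ^ 2 := by
      rw [← pow_mul, mul_comm k 2, pow_mul]
      norm_num
    rw [h6] at h5
    exact (Nat.pow_le_pow_iff_left two_ne_zero).1 h5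

/-- the pair of a label -/
def lv {k : ℕ} (i : Lb k) : Vk k × Vk k := i.1

lemma lv_inj {k : ℕ} : Function.Injective (lv (k := k)) := fun _ _ h => Subtype.ext h

lemma comb_three {J : Type} [Fintype J] {cls : J → Fin 4} {k : ℕ} (h3 : ∀ j, cls j = 3)
    (U : Finset (Lb k)) (hU : ∀ i ∈ U, ∀ i' ∈ U, Ll i i' = Ll i' i) :
    ∑ i ∈ U, ∑ j, wst (cls j) i.1.1 i.1.2 ≤ (Fintype.card J : ℕ) := by
  classical
  have h1 : ∀ i : Lb k, ∑ j, wst (cls j) i.1.1 i.1.2 = (Fintype.card J : ℝ) * (1 / 4) ^ k := by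
    intro i
    have h2 : ∀ j, wst (cls j) i.1.1 i.1.2 = (1 / 4) ^ k := by
      intro j
      unfold wst
      rw [h3 j]
      simp
    rw [sum_congr rfl fun j _ => h2 j, sum_const, card_univ, nsmul_eq_mul]
  rw [sum_congr rfl fun i _ => h1 i, sum_const, nsmul_eq_mul]
  have h4 : (U.image lv).card ≤ 4 ^ k := by
    refine card_isotropic _ ?_
    intro l hl w hw
    obtain ⟨i, hi, rfl⟩ := mem_image.1 hl
    obtain ⟨i', hi', rfl⟩ := mem_image.1 hw
    have h5 := hU i hi i' hi'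
    unfold Ll at h5
    rw [decide_eq_decide] at h5
    rw [Nat.even_add]
    constructor
    · intro h6
      rw [← Nat.not_odd_iff_even] at h6 ⊢
      exact fun h7 => h6 (h5.2 h7)
    · intro h6
      rw [← Nat.not_odd_iff_even] at h6 ⊢
      exact fun h7 => h6 (h5.1 h7)
  have h5 : U.card ≤ 4 ^ k := by
    rwa [card_image_of_injective _ lv_inj] at h4
  have h6 : (U.card : ℝ) ≤ 4 ^ k := by exact_mod_cast h5
  have h7 : (0 : ℝ) ≤ (Fintype.card J : ℝ) * (1 / 4) ^ k := by positivity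
  calc (U.card : ℝ) * ((Fintype.card J : ℝ) * (1 / 4) ^ k) ≤
      4 ^ k * ((Fintype.card J : ℝ) * (1 / 4) ^ k) := mul_le_mul_of_nonneg_right h6 h7
    _ = (Fintype.card J : ℝ) * (4 * (1 / 4)) ^ k := by
      rw [mul_pow]
      ring
    _ = _ := by norm_num

lemma pos_three {J : Type} [Fintype J] [Nonempty J] {cls : J → Fin 4} {k : ℕ}
    (h3 : ∀ j, cls j = 3) (i : Lb k) : 0 < ∑ j, wst (cls j) i.1.1 i.1.2 := by
  refine sum_pos (fun j _ => ?_) univ_nonempty
  unfold wst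
  rw [h3 j]
  simp

end Pool.Agent.L0h5.TF
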