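import Pool.Agent.L0h5.MR.Mertens
import Pool.Agent.W372.RK2.CNT4
import Pool.Agent.W342.RK2.LocL

/-!
# The lifts of the roots modulo `p ^ 2`
-/

set_option autoImplicit false

namespace Pool.Agent.L0h5.TF

open Finset Polynomial Pool.Agent.W262.RK Pool.Agent.L0h5.MR

/-- Taylor -/
lemma taylor2 (P : ℤ[X]) {p : ℕ} {a b : ℤ} (h : (p : ℤ) ∣ b - a) :
    (p : ℤ) ^ 2 ∣ P.eval b - P.eval a - (derivative P).eval a * (b - a) := by
  obtain ⟨k, hk⟩ := P.binomExpansion a (b - a)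
  rw [add_sub_cancel] at hk
  rw [hk]
  obtain ⟨c, hc⟩ := h
  refine ⟨k * c ^ 2, ?_⟩
  rw [hc]
  ring

lemma inj_lift (P : ℤ[X]) {p : ℕ} (hp : p.Prime) {a b : ℤ} (h : (p : ℤ) ∣ b - a)
    (hd : ¬ (p : ℤ) ∣ (derivative P).eval a) (h2 : (p : ℤ) ^ 2 ∣ P.eval b - P.eval a) :
    (p : ℤ) ^ 2 ∣ b - a := by
  have h1 := taylor2 P h
  have h3 : (p : ℤ) ^ 2 ∣ (derivative P).eval a * (b - a) := by
    have := dvd_sub h2 h1
    rwa [sub_sub_cancel] at this
  have h4 : IsCoprime ((p : ℤ) ^ 2) ((derivative P).eval a) :=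
    ((Prime.coprime_iff_not_dvd (Nat.prime_iff_prime_int.1 hp)).2 hd).pow_left
  exact h4.dvd_of_dvd_mul_left h3

lemma dvd_eval_sub (P : ℤ[X]) {n a b : ℤ} (h : n ∣ b - a) : n ∣ P.eval b - P.eval a :=
  h.trans (sub_dvd_eval_sub b a P)

lemma dvd_eval_congr (P : ℤ[X]) {n a b : ℤ} (h : n ∣ b - a) : n ∣ P.eval b ↔ n ∣ P.eval a := by
  have h1 := dvd_eval_sub P h
  constructor
  · intro h2
    have := dvd_sub h2 h1
    rwa [sub_sub_cancel] at this
  · intro h2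
    have := dvd_add h1 h2
    rwa [sub_add_cancel] at this

lemma mod_dvd (t n : ℕ) : (n : ℤ) ∣ (t : ℤ) - ((t % n : ℕ) : ℤ) := by
  refine ⟨((t / n : ℕ) : ℤ), ?_⟩
  have := Nat.mod_add_div t n
  zify at this
  push_cast
  linarith

/-- the lifts with square -/
lemma card_sq (P : ℤ[X]) {p : ℕ} (hp : p.Prime)
    (hd : ∀ r : ℤ, (p : ℤ) ∣ P.eval r → ¬ (p : ℤ) ∣ (derivative P).eval r) :
    ((range (p ^ 2)).filter (fun x : ℕ => (p : ℤ) ^ 2 ∣ P.eval (x : ℤ))).card ≤ rho P p := by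
  unfold rho
  apply card_le_card_of_injOn (fun x => x % p)
  · intro x hx
    have hx' := mem_filter.1 (mem_coe.1 hx)
    rw [mem_coe, mem_filter, mem_range]
    refine ⟨Nat.mod_lt _ hp.pos, ?_⟩
    have h1 : (p : ℤ) ∣ P.eval (x : ℤ) := (dvd_pow_self (p : ℤ) two_ne_zero).trans hx'.2
    exact (dvd_eval_congr P (mod_dvd x p)).1 h1
  · intro x hx x' hx' hxx
    have h1 := mem_filter.1 (mem_coe.1 hx)
    have h2 := mem_filter.1 (mem_coe.1 hx')
    have h3 : (p : ℤ) ∣ (x' : ℤ) - x := by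
      have e1 := mod_dvd x p
      have e2 := mod_dvd x' p
      simp only at hxx
      rw [hxx] at e1
      have := dvd_sub e2 e1
      rwa [sub_sub_sub_cancel_right] at this
    have h4 := inj_lift P hp h3
      (hd x ((dvd_pow_self (p : ℤ) two_ne_zero).trans h1.2)) (dvd_sub h2.2 h1.2)
    have h5 : ((p ^ 2 : ℕ) : ℤ) ∣ (x' : ℤ) - x := by
      push_cast
      exact h4
    have h6 : x ≡ x' [MOD p ^ 2] := (Nat.modEq_iff_dvd).2 h5
    have h7 := Nat.ModEq.eq_of_lt_of_lt h6 (mem_range.1 h1.1) (mem_range.1 h2.1)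
    exact h7

/-- the lifts with given sign -/
lemma card_half (P : ℤ[X]) {p : ℕ} (hp : p.Prime) (hp2 : p ≠ 2) (r : ℕ) (neg : Bool)
    (hr : (p : ℤ) ∣ P.eval (r : ℤ)) (hd : ¬ (p : ℤ) ∣ (derivative P).eval (r : ℤ)) :
    (((range (p ^ 2)).filter (fun x : ℕ => x % p = r ∧ ¬ (p : ℤ) ^ 2 ∣ P.eval (x : ℤ) ∧
      sg0 p (P.eval (x : ℤ) / p) = neg)).card : ℝ) ≤ p / 2 := by
  have hp0 : (p : ℤ) ≠ 0 := by exact_mod_cast hp.ne_zero
  set e : ℤ := if neg = true then -1 else 1 with he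
  have h1 := Pool.Agent.W372.RK2.card_W hp hp2 e (by rw [he]; split_ifs <;> simp)
  have hroot : ∀ x : ℕ, x % p = r → (p : ℤ) ∣ P.eval (x : ℤ) := by
    intro x hx
    refine (dvd_eval_congr P (mod_dvd x p)).2 ?_
    rw [hx]
    exact hr
  have h2 : ((range (p ^ 2)).filter (fun x : ℕ => x % p = r ∧ ¬ (p : ℤ) ^ 2 ∣ P.eval (x : ℤ) ∧
      sg0 p (P.eval (x : ℤ) / p) = neg)).card ≤
      ((range p).filter (fun x : ℕ => jacobiSym x p = e)).card := by
    apply card_le_card_of_injOn (fun x : ℕ => ((P.eval (x : ℤ) / p) % p).toNat)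
    · intro x hx
      obtain ⟨hx1, hx2, hx3, hx4⟩ := mem_filter.1 (mem_coe.1 hx)
      rw [mem_coe, mem_filter, mem_range]
      have h3 : 0 ≤ (P.eval (x : ℤ) / p) % p := Int.emod_nonneg _ hp0
      have h4 : (P.eval (x : ℤ) / p) % p < p := Int.emod_lt_of_pos _ (by exact_mod_cast hp.pos)
      show (P.eval (x : ℤ) / p % p).toNat < p ∧
        jacobiSym ((P.eval (x : ℤ) / p % p).toNat : ℤ) p = e
      refine ⟨by omega, ?_⟩
      rw [Int.toNat_of_nonneg h3]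
      have h5 : jacobiSym ((P.eval (x : ℤ) / p) % p) p = jacobiSym (P.eval (x : ℤ) / p) p :=
        (jacobiSym.mod_left _ _).symm
      rw [h5]
      have h6 : ¬ (p : ℤ) ∣ P.eval (x : ℤ) / p := by
        intro h
        apply hx3
        obtain ⟨m, hm⟩ := hroot x hx2
        rw [hm, Int.mul_ediv_cancel_left _ hp0] at h
        rw [hm, pow_two]
        exact mul_dvd_mul_left _ h
      have : Fact p.Prime := ⟨hp⟩
      have h7 := Pool.Agent.W342.RK2.jac_ne h6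
      unfold sg0 at hx4
      rw [he]
      rcases h7 with h7 | h7
      · rw [h7] at hx4 ⊢
        rw [← hx4]
        simp
      · rw [h7] at hx4 ⊢
        rw [← hx4]
        simp
    · intro x hx x' hx' hxx
      obtain ⟨hx1, hx2, hx3, hx4⟩ := mem_filter.1 (mem_coe.1 hx)
      obtain ⟨hx1', hx2', hx3', hx4'⟩ := mem_filter.1 (mem_coe.1 hx')
      simp only at hxx
      have h3 : 0 ≤ (P.eval (x : ℤ) / p) % p := Int.emod_nonneg _ hp0
      have h3' : 0 ≤ (P.eval (x' : ℤ) / p) % p := Int.emod_nonneg _ hp0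
      have h4 : (P.eval (x : ℤ) / p) % p = (P.eval (x' : ℤ) / p) % p := by omega
      have h5 : (p : ℤ) ∣ P.eval (x' : ℤ) / p - P.eval (x : ℤ) / p := by
        have : P.eval (x : ℤ) / p ≡ P.eval (x' : ℤ) / p [ZMOD p] := h4
        exact this.dvd
      have h6 : (p : ℤ) ^ 2 ∣ P.eval (x' : ℤ) - P.eval (x : ℤ) := by
        obtain ⟨m, hm⟩ := hroot x hx2
        obtain ⟨m', hm'⟩ := hroot x' hx2'
        rw [hm, hm', Int.mul_ediv_cancel_left _ hp0, Int.mul_ediv_cancel_left _ hp0] at h5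
        rw [hm, hm', ← mul_sub, pow_two]
        exact mul_dvd_mul_left _ h5
      have h7 : (p : ℤ) ∣ (x' : ℤ) - x := by
        have e1 := mod_dvd x p
        have e2 := mod_dvd x' p
        rw [hx2] at e1
        rw [hx2'] at e2
        have := dvd_sub e2 e1
        rwa [sub_sub_sub_cancel_right] at this
      have h8 : ¬ (p : ℤ) ∣ (derivative P).eval (x : ℤ) := by
        intro h
        apply hd
        have e1 := mod_dvd x p
        rw [hx2] at e1
        exact (dvd_eval_congr (derivative P) e1).1 h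
      have h9 := inj_lift P hp h7 h8 h6
      have h10 : ((p ^ 2 : ℕ) : ℤ) ∣ (x' : ℤ) - x := by
        push_cast
        exact h9
      have h11 : x ≡ x' [MOD p ^ 2] := (Nat.modEq_iff_dvd).2 h10
      exact Nat.ModEq.eq_of_lt_of_lt h11 (mem_range.1 hx1) (mem_range.1 hx1')
  have h3 : 2 * ((range (p ^ 2)).filter (fun x : ℕ => x % p = r ∧ ¬ (p : ℤ) ^ 2 ∣
      P.eval (x : ℤ) ∧ sg0 p (P.eval (x : ℤ) / p) = neg)).card ≤ p := by omega
  have h4 : (2 : ℝ) * (((range (p ^ 2)).filter (fun x : ℕ => x % p = r ∧ ¬ (p : ℤ) ^ 2 ∣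
      P.eval (x : ℤ) ∧ sg0 p (P.eval (x : ℤ) / p) = neg)).card : ℝ) ≤ p := by exact_mod_cast h3
  linarith

/-- the sign depends on the class modulo `p ^ 2` -/
lemma sg0_congr (P : ℤ[X]) {p : ℕ} (hp : p.Prime) {a b : ℤ} (h : (p : ℤ) ^ 2 ∣ b - a)
    (hr : (p : ℤ) ∣ P.eval a) : sg0 p (P.eval b / p) = sg0 p (P.eval a / p) := by
  have hp0 : (p : ℤ) ≠ 0 := by exact_mod_cast hp.ne_zero
  have h1 : (p : ℤ) ^ 2 ∣ P.eval b - P.eval a := dvd_eval_sub P h
  have hb : (p : ℤ) ∣ P.eval b :=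
    (dvd_eval_congr P ((dvd_pow_self (p : ℤ) two_ne_zero).trans h)).2 hr
  obtain ⟨m, hm⟩ := hr
  obtain ⟨m', hm'⟩ := hb
  rw [hm, hm', ← mul_sub, pow_two] at h1
  have h2 : (p : ℤ) ∣ m' - m := by
    exact (mul_dvd_mul_iff_left hp0).1 h1
  rw [hm, hm', Int.mul_ediv_cancel_left _ hp0, Int.mul_ediv_cancel_left _ hp0]
  unfold sg0
  have h3 : m' % p = m % p := by
    have : m ≡ m' [ZMOD p] := (Int.modEq_iff_dvd).2 h2
    exact this.symm
  rw [jacobiSym.mod_left m', jacobiSym.mod_left m, h3]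

end Pool.Agent.L0h5.TF
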