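import Pool.Agent.L0h5.TF.Good
import Pool.Agent.L0h5.TF.Lift
import Pool.Agent.W342.RK2.LocL
import Pool.Agent.W214.RK2.Desc4

/-!
# The family and the bound for the rank
-/

set_option autoImplicit false
set_option linter.unusedSectionVars false

namespace Pool.Agent.L0h5.TF

open Finset Polynomial Pool.Agent.W262.RK Pool.Agent.L0h5.MR

section

variable {J : Type} [Fintype J] [DecidableEq J]

/-- the support of `F_k` -/
def sp (cls : J → Fin 4) (k : Fin 3) : Finset J :=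
  univ.filter (fun l => cls l = k.castSucc ∨ cls l = 3)

/-- the polynomial `F_k` -/
noncomputable def FP (cls : J → Fin 4) (a : Fin 3 → ℤ) (P : J → ℤ[X]) (k : Fin 3) : ℤ[X] :=
  C (a k) * ∏ l ∈ sp cls k, P l

/-- the constants -/
noncomputable def kapP (cls : J → Fin 4) (a : Fin 3 → ℤ) (P : J → ℤ[X]) (j : J) (r : ℕ)
    (k : Fin 3) : ℤ :=
  if cls j = 3 then a k * ∏ l ∈ (sp cls k).erase j, (P l).eval (r : ℤ)
  else if cls j = 0 then -(FP cls a P 1).eval (r : ℤ)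
  else if cls j = 1 then -(FP cls a P 0).eval (r : ℤ)
  else (FP cls a P 0).eval (r : ℤ)

variable {cls : J → Fin 4} {a : Fin 3 → ℤ} {P : J → ℤ[X]} {z : ℕ}

lemma eval_FP (k : Fin 3) (r : ℤ) :
    (FP cls a P k).eval r = a k * ∏ l ∈ sp cls k, (P l).eval r := by
  unfold FP
  rw [eval_mul, eval_C, eval_prod]

lemma FP_unit (g : Gz P a z) {p : ℕ} (hp : p.Prime) (hz : z < p) {j : J} {r : ℤ}
    (h : (p : ℤ) ∣ (P j).eval r) (k : Fin 3) (hj : j ∉ sp cls k) :
    ¬ (p : ℤ) ∣ (FP cls a P k).eval r := by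
  rw [eval_FP]
  intro hd
  rcases (Nat.prime_iff_prime_int.1 hp).dvd_or_dvd hd with h1 | h1
  · exact g.ak p hp hz k h1
  · exact g.not_dvd_prod hp hz h hj h1

lemma rest_unit (g : Gz P a z) {p : ℕ} (hp : p.Prime) (hz : z < p) {j : J} {r : ℤ}
    (h : (p : ℤ) ∣ (P j).eval r) (k : Fin 3) :
    ¬ (p : ℤ) ∣ a k * ∏ l ∈ (sp cls k).erase j, (P l).eval r := by
  intro hd
  rcases (Nat.prime_iff_prime_int.1 hp).dvd_or_dvd hd with h1 | h1
  · exact g.ak p hp hz k h1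
  · exact g.not_dvd_prod hp hz h (notMem_erase _ _) h1

lemma not_mem_sp {j : J} {k : Fin 3} (h3 : cls j ≠ 3) (hk : cls j ≠ k.castSucc) :
    j ∉ sp cls k := by
  unfold sp
  rw [mem_filter]
  rintro ⟨-, h | h⟩
  · exact hk h
  · exact h3 h

lemma mem_sp {j : J} {k : Fin 3} (hk : cls j = 3 ∨ cls j = k.castSucc) : j ∈ sp cls k := by
  unfold sp
  rw [mem_filter]
  exact ⟨mem_univ _, hk.symm⟩

lemma kap_unit (g : Gz P a z) {p : ℕ} (hp : p.Prime) (hz : z < p) {j : J} {r : ℕ}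
    (h : (p : ℤ) ∣ (P j).eval (r : ℤ)) (k : Fin 3) : ¬ (p : ℤ) ∣ kapP cls a P j r k := by
  unfold kapP
  by_cases h3 : cls j = 3
  · rw [if_pos h3]
    exact rest_unit g hp hz h k
  · rw [if_neg h3]
    by_cases h0 : cls j = 0
    · rw [if_pos h0, dvd_neg]
      exact FP_unit g hp hz h 1 (not_mem_sp h3 (by rw [h0]; decide))
    · rw [if_neg h0]
      by_cases h1 : cls j = 1
      · rw [if_pos h1, dvd_neg]
        exact FP_unit g hp hz h 0 (not_mem_sp h3 (by rw [h1]; decide))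
      · rw [if_neg h1]
        exact FP_unit g hp hz h 0 (not_mem_sp h3 (by
          intro h'
          exact h0 h'))

lemma jac_unit {p : ℕ} (hp : p.Prime) {x : ℤ} (hx : ¬ (p : ℤ) ∣ x) :
    jacobiSym x p = 1 ∨ jacobiSym x p = -1 := by
  have : Fact p.Prime := ⟨hp⟩
  exact Pool.Agent.W342.RK2.jac_ne hx

lemma jac_congr {p : ℕ} {x x' : ℤ} (h : (p : ℤ) ∣ x - x') : jacobiSym x' p = jacobiSym x p := by
  have h1 : x' ≡ x [ZMOD p] := (Int.modEq_iff_dvd).2 h
  have h2 : x' % p = x % p := h1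
  rw [jacobiSym.mod_left x', jacobiSym.mod_left x, h2]

lemma jac_self {p : ℕ} (hp : p.Prime) {x x' : ℤ} (hx : ¬ (p : ℤ) ∣ x) (h : (p : ℤ) ∣ x - x') :
    jacobiSym x' p * jacobiSym x p = 1 := by
  rw [jac_congr h]
  rcases jac_unit hp hx with h1 | h1 <;> rw [h1] <;> norm_num

lemma FP_congr (k : Fin 3) {p : ℕ} {x x' : ℤ} (h : (p : ℤ) ∣ x - x') :
    (p : ℤ) ∣ (FP cls a P k).eval x - (FP cls a P k).eval x' := dvd_eval_sub _ h

/-- exactly one factor -/
lemma FP_exact (g : Gz P a z) {p : ℕ} (hp : p.Prime) (hz : z < p) {j : J} {r : ℤ}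
    (h : (p : ℤ) ∣ (P j).eval r) (h2 : ¬ (p : ℤ) ^ 2 ∣ (P j).eval r) (k : Fin 3)
    (hk : cls j = 3 ∨ cls j = k.castSucc) :
    (p : ℤ) ∣ (FP cls a P k).eval r ∧ ¬ (p : ℤ) ^ 2 ∣ (FP cls a P k).eval r ∧
      (FP cls a P k).eval r / p =
        (P j).eval r / p * (a k * ∏ l ∈ (sp cls k).erase j, (P l).eval r) := by
  have h3 : (FP cls a P k).eval r =
      (P j).eval r * (a k * ∏ l ∈ (sp cls k).erase j, (P l).eval r) := by
    rw [eval_FP, ← mul_prod_erase (sp cls k) (fun l => (P l).eval r) (mem_sp hk)]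
    ring
  have h4 := rest_unit (cls := cls) g hp hz h k
  refine ⟨?_, ?_, ?_⟩
  · rw [h3]
    exact h.mul_right _
  · rw [h3, sq_dvd_prod hp h4]
    exact h2
  · rw [h3]
    obtain ⟨m, hm⟩ := h
    have hp0 : (p : ℤ) ≠ 0 := by exact_mod_cast hp.ne_zero
    rw [hm, mul_assoc, Int.mul_ediv_cancel_left _ hp0, Int.mul_ediv_cancel_left _ hp0]

lemma locH_P (g : Gz P a z) (hrel : FP cls a P 0 - FP cls a P 1 = FP cls a P 2) {p : ℕ}
    (hp : p.Prime) (hz : z < p) {j : J} {t : ℕ} (h : (p : ℤ) ∣ (P j).eval (t : ℤ))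
    (h2 : ¬ (p : ℤ) ^ 2 ∣ (P j).eval (t : ℤ)) :
    LocH (cls j) (kapP cls a P j (t % p)) (sg0 p ((P j).eval (t : ℤ) / p)) p
      ((FP cls a P 0).eval (t : ℤ)) ((FP cls a P 1).eval (t : ℤ)) := by
  have hmod : (p : ℤ) ∣ (t : ℤ) - ((t % p : ℕ) : ℤ) := mod_dvd t p
  have hrel' : (FP cls a P 0).eval (t : ℤ) - (FP cls a P 1).eval (t : ℤ) =
      (FP cls a P 2).eval (t : ℤ) := by
    rw [← hrel, eval_sub]
  unfold LocH
  by_cases c0 : cls j = 0
  · rw [if_pos c0]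
    have h3 : cls j ≠ 3 := by rw [c0]; decide
    have e1 := FP_exact (cls := cls) (a := a) g hp hz h h2 0 (Or.inr (by rw [c0]; rfl))
    have e2 := FP_unit (cls := cls) g hp hz h 1 (not_mem_sp h3 (by rw [c0]; decide))
    refine ⟨e1.1, e1.2.1, e2, ?_⟩
    unfold kapP
    rw [if_neg h3, if_pos c0, neg_mul_neg, jacobiSym.mul_left]
    exact jac_self hp e2 (FP_congr 1 hmod)
  rw [if_neg c0]
  by_cases c1 : cls j = 1
  · rw [if_pos c1]
    have h3 : cls j ≠ 3 := by rw [c1]; decide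
    have e1 := FP_exact (cls := cls) (a := a) g hp hz h h2 1 (Or.inr (by rw [c1]; rfl))
    have e2 := FP_unit (cls := cls) g hp hz h 0 (not_mem_sp h3 (by rw [c1]; decide))
    refine ⟨e1.1, e1.2.1, e2, ?_⟩
    unfold kapP
    rw [if_neg h3, if_neg c0, if_pos c1, neg_mul_neg, jacobiSym.mul_left]
    exact jac_self hp e2 (FP_congr 0 hmod)
  rw [if_neg c1]
  by_cases c2 : cls j = 2
  · rw [if_pos c2, hrel']
    have h3 : cls j ≠ 3 := by rw [c2]; decide
    have e1 := FP_exact (cls := cls) (a := a) g hp hz h h2 2 (Or.inr (by rw [c2]; rfl))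
    have e2 := FP_unit (cls := cls) g hp hz h 0 (not_mem_sp h3 (by rw [c2]; decide))
    refine ⟨e1.1, e1.2.1, e2, ?_⟩
    unfold kapP
    rw [if_neg h3, if_neg c0, if_neg c1, jacobiSym.mul_left]
    exact jac_self hp e2 (FP_congr 0 hmod)
  rw [if_neg c2]
  have h3 : cls j = 3 := by
    clear h h2 hmod hrel' 
    generalize cls j = c at *
    revert c0 c1 c2
    revert c
    decide
  have hp0 : (p : ℤ) ≠ 0 := by exact_mod_cast hp.ne_zero
  have hun : ¬ (p : ℤ) ∣ (P j).eval (t : ℤ) / p := by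
    intro h5
    apply h2
    obtain ⟨m, hm⟩ := h
    rw [hm, Int.mul_ediv_cancel_left _ hp0] at h5
    rw [hm, pow_two]
    exact mul_dvd_mul_left _ h5
  have hneg : jacobiSym ((P j).eval (t : ℤ) / p) p =
      if sg0 p ((P j).eval (t : ℤ) / p) = true then -1 else 1 := by
    unfold sg0
    rcases jac_unit hp hun with h5 | h5 <;> rw [h5] <;> simp
  have e : ∀ k, (p : ℤ) ∣ (FP cls a P k).eval (t : ℤ) ∧ ¬ (p : ℤ) ^ 2 ∣ (FP cls a P k).eval (t : ℤ) ∧
      jacobiSym (kapP cls a P j (t % p) k * ((FP cls a P k).eval (t : ℤ) / p)) p =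
        (if sg0 p ((P j).eval (t : ℤ) / p) = true then -1 else 1) := by
    intro k
    obtain ⟨e1, e2, e3⟩ := FP_exact (cls := cls) (a := a) g hp hz h h2 k (Or.inl h3)
    refine ⟨e1, e2, ?_⟩
    rw [e3, ← hneg]
    unfold kapP
    rw [if_pos h3]
    have e4 : (p : ℤ) ∣ (a k * ∏ l ∈ (sp cls k).erase j, (P l).eval (t : ℤ)) -
        (a k * ∏ l ∈ (sp cls k).erase j, (P l).eval ((t % p : ℕ) : ℤ)) := by
      have e5 := dvd_eval_sub (C (a k) * ∏ l ∈ (sp cls k).erase j, P l) hmod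
      simp only [eval_mul, eval_C, eval_prod] at e5
      exact e5
    have e6 := jac_self hp (rest_unit (cls := cls) g hp hz h k) e4
    generalize a k * ∏ l ∈ (sp cls k).erase j, (P l).eval ((t % p : ℕ) : ℤ) = x' at *
    generalize a k * ∏ l ∈ (sp cls k).erase j, (P l).eval (t : ℤ) = x at *
    rw [jacobiSym.mul_left x' _, jacobiSym.mul_left _ x, mul_left_comm, e6, mul_one]
  rw [hrel']
  exact ⟨(e 0).1, (e 1).1, (e 0).2.1, (e 1).2.1, (e 2).2.1, (e 0).2.2, (e 1).2.2, (e 2).2.2⟩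

end

end Pool.Agent.L0h5.TF
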