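import Pool.Agent.L0h5.TF.Cnt
import Pool.Agent.L0h5.NT.ANTg

/-!
# The average of the powers of `2 ^ rank` in a family given by polynomials
-/

set_option autoImplicit false
set_option linter.unusedSectionVars false

namespace Pool.Agent.L0h5.TF

open Finset Polynomial Pool.Agent.W262.RK Pool.Agent.L0h5.MR
open Pool.Agent.W307.RT (S1 S2 Gd)

lemma mem_TupU {z y : ℕ} {s : Unit → ℕ} : s ∈ Tup Unit z y ↔ s () ∈ (PP z y).divisors := by
  unfold Tup
  rw [mem_filter, Fintype.mem_piFinset]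
  constructor
  · intro h
    exact h.1 ()
  · intro h
    exact ⟨fun _ => h, fun i j hij => absurd (Subsingleton.elim i j) hij⟩

lemma sum_TupU {z y : ℕ} (F : ℕ → ℝ) :
    ∑ s ∈ Tup Unit z y, F (s ()) = ∑ s ∈ (PP z y).divisors, F s := by
  refine sum_nbij' (fun s => s ()) (fun s => fun _ => s) ?_ ?_ ?_ ?_ ?_
  · intro s hs
    exact mem_TupU.1 hs
  · intro s hs
    exact mem_TupU.2 hs
  · intro s _
    funext x
    rfl
  · intro s _
    rfl
  · intro s _
    rfl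

section

variable {J : Type} [Fintype J] [DecidableEq J] {cls : J → Fin 4} {a : Fin 3 → ℤ} {P : J → ℤ[X]}
  {z k : ℕ}

open Classical in
lemma sumNL (g : Gz P a z) {c N K y0 : ℕ} {C : ℝ} (hc : c = ∑ j, (P j).natDegree)
    (hcz : 2 * c + 2 ≤ z) (hC : 0 ≤ C) (hsv : SvC (FF P) c N z C K y0)
    {X y Y s v u : ℕ} (hy : y0 ≤ y) (hzy : z < y) (hyX : y ^ K ≤ X)
    (hs : s ∈ (PP z y).divisors) (hv : v ∈ (PP z y).divisors) (hu : u ∈ (PP y Y).divisors)
    (hsvu : (s * v * u) ^ 8 ≤ X)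
    (T : Finset ℕ) (hT : ∀ t ∈ T, t ∈ Icc 1 X ∧ S1 z y (fF P t) () = s ∧
      S2 z y (fF P t) () = v ∧ (u : ℤ) ∣ (FF P).eval (t : ℤ)) :
    ∑ t ∈ T, (NL s (Lt cls a P t) : ℝ) ^ k ≤ C * X * (Gs (lamP k cls a P) s * gw 1 c s) *
      ((c : ℝ) ^ v.primeFactors.card * (gw 1 c v / v)) *
      ((c : ℝ) ^ u.primeFactors.card / u) / (Real.log y) ^ N := by
  have hgs := gw_nonneg (c := c) (by omega) hs
  have hgv := gw_nonneg (c := c) (by omega) hv
  have hlog : 0 ≤ (Real.log y) ^ N := pow_nonneg (Real.log_natCast_nonneg y) _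
  have hG := Gs_nonneg (k := k) (cls := cls) (a := a) (P := P) s
  rcases T.eq_empty_or_nonempty with hE | ⟨t0, ht0⟩
  · rw [hE, sum_empty]
    positivity
  have hcop : s.Coprime v := by
    obtain ⟨-, h1, h2, -⟩ := hT t0 ht0
    apply Nat.coprime_of_dvd
    intro p hp hps hpv
    rw [← h1, dvd_S1 hp] at hps
    rw [← h2, dvd_S2 hp] at hpv
    exact hps.2.2 hpv.2
  set Q : ℕ → (Fin k → ℕ × ℕ) → Prop := fun t D => ∀ p ∈ s.primeFactors, ∀ i,
    Lt cls a P t p (bv p D i).1 (bv p D i).2 (bs p D i).1 (bs p D i).2 with hQ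
  have h1 : ∀ t ∈ T, (NL s (Lt cls a P t) : ℝ) ^ k =
      ∑ D ∈ Dv k s, if Q t D then (1 : ℝ) else 0 := by
    intro t _
    rw [NL_pow]
    refine sum_congr rfl fun D _ => ?_
    unfold iL
    have h2 : ∀ p ∈ s.primeFactors, ∏ i, (if Lt cls a P t p (bv p D i).1 (bv p D i).2
        (bs p D i).1 (bs p D i).2 then (1 : ℝ) else 0) =
        if ∀ i, Lt cls a P t p (bv p D i).1 (bv p D i).2 (bs p D i).1 (bs p D i).2 then
          (1 : ℝ) else 0 := by
      intro p _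
      rw [prod_boole]
      simp only [mem_univ, true_implies]
    rw [prod_congr rfl h2, prod_boole]
  rw [sum_congr rfl h1, sum_comm]
  have h2 : ∀ D ∈ Dv k s, ∑ t ∈ T, (if Q t D then (1 : ℝ) else 0) ≤
      C * X * ((∏ p ∈ s.primeFactors, lamP k cls a P p (bv p D) (bs p D)) *
      gw 1 c s) * ((c : ℝ) ^ v.primeFactors.card * (gw 1 c v / v)) *
      ((c : ℝ) ^ u.primeFactors.card / u) / (Real.log y) ^ N := by
    intro D _
    rw [← sum_filter, sum_const, nsmul_eq_mul, mul_one]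
    refine cntD g hc hcz hC hsv hy hzy hyX hs hv hu hsvu hcop D (T.filter fun t => Q t D) ?_
    intro t ht
    rw [mem_filter] at ht
    obtain ⟨h3, h4, h5, h6⟩ := hT t ht.1
    exact ⟨h3, h4, h5, h6, ht.2⟩
  refine (sum_le_sum h2).trans (le_of_eq ?_)
  rw [Gs_def, ← sum_div]
  congr 1
  rw [← sum_mul, ← sum_mul]
  congr 1
  congr 1
  rw [← mul_sum, ← sum_mul]

/-- **The main estimate** -/
theorem core (h : Fm P a) (hrel : FP cls a P 0 - FP cls a P 1 = FP cls a P 2)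
    (hpos : ∀ i : Lb k, 0 < ∑ j, wst (cls j) i.1.1 i.1.2)
    (hcomb : ∀ U : Finset (Lb k), (∀ i ∈ U, ∀ i' ∈ U, Ll i i' = Ll i' i) →
      ∑ i ∈ U, ∑ j, wst (cls j) i.1.1 i.1.2 ≤ (Fintype.card J : ℕ)) :
    ∃ C2 : ℝ, ∀ X : ℕ, 1 ≤ X →
      ∑ t ∈ (Icc 1 X).filter (fun t : ℕ => (FF P).eval (t : ℤ) ≠ 0),
        ((2 : ℝ) ^ Module.finrank ℤ (EAB ((FP cls a P 0).eval (t : ℤ))
          ((FP cls a P 1).eval (t : ℤ))).toAffine.Point) ^ k ≤ C2 * X := by
  classical
  set c : ℕ := ∑ j, (P j).natDegree with hc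
  set N : ℕ := Fintype.card J with hN
  obtain ⟨z1, hz1⟩ := h.good
  obtain ⟨z2, hz2⟩ := avg (k := k) cls P h.irr c N hpos hcomb
  set z : ℕ := z1 + z2 + 2 * c + 2 with hz
  have g : Gz P a z := hz1 z (by omega)
  have hcz : 2 * c + 2 ≤ z := by omega
  obtain ⟨C', hC'⟩ := hz2 z (by omega) (kapP cls a P)
  obtain ⟨C, K, y0, hC0, hK1, hsv⟩ := svP (FF P) c N z hcz
    (fun p hp hpz => g.rho_le_deg hp hpz) (lower h g)
  set E : ℕ := (FF P).natDegree + 1 with hE
  set M : ℕ := ∑ i ∈ range ((FF P).natDegree + 1), ((FF P).coeff i).natAbs with hM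
  set b : ℝ := 4 ^ k * (c : ℝ) with hb
  have hb0 : 0 ≤ b := by positivity
  have hcb : (c : ℝ) ≤ b := by
    rw [hb]
    have h1 : (1 : ℝ) ≤ 4 ^ k := one_le_pow₀ (by norm_num)
    exact le_mul_of_one_le_left (Nat.cast_nonneg _) h1
  refine Pool.Agent.L0h5.NT.ant_g Unit ℕ
    (fun X => (Icc 1 X).filter (fun t : ℕ => (FF P).eval (t : ℤ) ≠ 0)) (fun t => fF P t)
    (fun X => (X : ℝ)) z c N (fun s => Gs (lamP k cls a P) (s ()))
    (fun t => ((2 : ℝ) ^ Module.finrank ℤ (EAB ((FP cls a P 0).eval (t : ℤ))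
          ((FP cls a P 1).eval (t : ℤ))).toAffine.Point) ^ k) b (C * (4 ^ (z + 2)) ^ k) C'
    ((4 ^ E) ^ k) K (y0 + M + 1) hb0 hcz ?_ ?_ ?_ (fun s => Gs_nonneg _)
    (fun t => by positivity) (by positivity) (one_le_pow₀ (one_le_pow₀ (by norm_num))) hK1
    ?_ ?_ ?_
  · intro X Y hXY t ht
    rw [mem_filter, mem_Icc] at ht ⊢
    exact ⟨⟨ht.1.1, ht.1.2.trans hXY⟩, ht.2⟩
  · intro X hX
    show (1 : ℝ) ≤ (X : ℝ)
    exact_mod_cast hX
  · intro X t ht
    rw [mem_filter] at ht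
    exact ⟨fun _ => ht.2, fun p _ _ j l hjl => absurd (Subsingleton.elim j l) hjl⟩
  · intro y _ s e hse
    have h1 := mem_TupU.1 hse
    have h2 := sub_growth (k := k) (cls := cls) g h1
    simp only [univ_unique, sum_singleton]
    exact h2
  · intro y hy
    have h1 := sum_TupU (z := z) (y := y) fun s => Gs (lamP k cls a P) s * gw 1 c s
    simp only [univ_unique, prod_singleton]
    refine le_trans (le_of_eq h1) (hC' y hy)
  · intro X y Y k' hy hzy hyX hXk s hs v hv u hu hsvu T' hT' hT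
    have hs' := mem_TupU.1 hs
    have hv' := mem_TupU.1 hv
    have hu' := mem_TupU.1 hu
    simp only [univ_unique, prod_singleton] at hsvu ⊢
    have hyX1 : y ≤ X := le_trans (Nat.le_self_pow (by omega) y) hyX
    have hX1 : 1 ≤ X := by omega
    have hTT : ∀ t ∈ T', t ∈ Icc 1 X ∧ S1 z y (fF P t) () = s () ∧
        S2 z y (fF P t) () = v () ∧ ((u () : ℕ) : ℤ) ∣ (FF P).eval (t : ℤ) := by
      intro t ht
      obtain ⟨h1, h2, h3⟩ := hT t ht
      exact ⟨(mem_filter.1 (hT' ht)).1, congrFun h1 (), congrFun h2 (), h3 ()⟩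
    have h1 := sumNL (k := k) (cls := cls) g hc hcz hC0 hsv (by omega) hzy hyX hs' hv' hu' hsvu
      T' hTT
    have hR : ∀ t ∈ T', ((2 : ℝ) ^ Module.finrank ℤ (EAB ((FP cls a P 0).eval (t : ℤ))
          ((FP cls a P 1).eval (t : ℤ))).toAffine.Point) ^ k ≤
        (4 ^ (z + 2)) ^ k * ((4 ^ E) ^ k) ^ k' * (4 ^ k) ^ (v ()).primeFactors.card *
          (NL (s ()) (Lt cls a P t) : ℝ) ^ k := by
      intro t ht
      obtain ⟨h2, h3, h4, h5⟩ := hTT t ht
      have h6 := (mem_filter.1 (hT' ht)).2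
      have h7 : ((FF P).eval (t : ℤ)).natAbs ≤ X ^ E := by
        refine (natAbs_eval_le (FF P) (mem_Icc.1 h2).2 hX1).trans ?_
        rw [hE, pow_succ, mul_comm]
        exact Nat.mul_le_mul_left _ (by omega)
      have h8 := rankP (cls := cls) (y := y) h g hrel hX1 (by omega) h6 h7 (by omega) hXk
      rw [h3, h4] at h8
      have h9 : (2 : ℝ) ^ Module.finrank ℤ (EAB ((FP cls a P 0).eval (t : ℤ))
          ((FP cls a P 1).eval (t : ℤ))).toAffine.Point ≤
          4 ^ (z + 2) * (4 ^ E) ^ k' * 4 ^ (v ()).primeFactors.card *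
            (NL (s ()) (Lt cls a P t) : ℝ) := by exact_mod_cast h8
      refine (pow_le_pow_left₀ (by positivity) h9 k).trans (le_of_eq ?_)
      rw [mul_pow, mul_pow, mul_pow]
      congr 1
      congr 1
      · congr 1
        rw [← pow_mul, ← pow_mul, ← pow_mul, ← pow_mul]
        congr 1
        ring
      · rw [← pow_mul, ← pow_mul, mul_comm]
    refine (sum_le_sum hR).trans ?_
    rw [← mul_sum]
    have hgs := gw_nonneg (c := c) (by omega) hs'
    have hgv := gw_nonneg (c := c) (by omega) hv'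
    have hlog : 0 ≤ (Real.log y) ^ N := pow_nonneg (Real.log_natCast_nonneg y) _
    have hG := Gs_nonneg (k := k) (cls := cls) (a := a) (P := P) (s ())
    have hcu : (c : ℝ) ^ (u ()).primeFactors.card / (u () : ℝ) ≤
        b ^ (u ()).primeFactors.card / (u () : ℝ) := by
      apply div_le_div_of_nonneg_right _ (Nat.cast_nonneg _)
      exact pow_le_pow_left₀ (Nat.cast_nonneg _) hcb _
    have h2 : (0 : ℝ) ≤ (4 ^ (z + 2)) ^ k * ((4 ^ E) ^ k) ^ k' *
        (4 ^ k) ^ (v ()).primeFactors.card := by positivity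
    refine (mul_le_mul_of_nonneg_left h1 h2).trans ?_
    have hbv : b ^ (v ()).primeFactors.card =
        (4 ^ k) ^ (v ()).primeFactors.card * (c : ℝ) ^ (v ()).primeFactors.card := by
      rw [hb, mul_pow]
    rw [hbv]
    have h3 : 0 ≤ C * (4 ^ (z + 2)) ^ k * ((4 ^ E) ^ k) ^ k' * X *
        (Gs (lamP k cls a P) (s ()) * gw 1 c (s ())) * ((4 ^ k) ^ (v ()).primeFactors.card *
          (c : ℝ) ^ (v ()).primeFactors.card * (gw 1 c (v ()) / (v () : ℝ))) := by positivity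
    have h4 := div_le_div_of_nonneg_right (mul_le_mul_of_nonneg_left hcu h3) hlog
    refine le_trans (le_of_eq ?_) h4
    ring

end

end Pool.Agent.L0h5.TF
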