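import Pool.Agent.L0h5.TF.Four
import Pool.Agent.L0h5.MR.Mertens
import Pool.Agent.L0h5.AG.A4

/-!
# The average over the local conditions
-/

set_option autoImplicit false

namespace Pool.Agent.L0h5.TF

open Finset Polynomial Pool.Agent.W262.RK Pool.Agent.L0h5.MR Pool.Agent.L0h5.AG

/-- the roots modulo `p` -/
def rts (P : ℤ[X]) (p : ℕ) : Finset ℕ := (range p).filter (fun r : ℕ => (p : ℤ) ∣ P.eval (r : ℤ))

lemma card_rts (P : ℤ[X]) (p : ℕ) : (rts P p).card = rho P p := rfl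

section

variable {J : Type} [Fintype J] {k : ℕ}

/-- the local average -/
noncomputable def lamJ (cls : J → Fin 4) (kap : J → ℕ → Fin 3 → ℤ) (P : J → ℤ[X]) (p : ℕ)
    (v h : Vk k) : ℝ :=
  ∑ j, ∑ r ∈ rts (P j) p, lst (cls j) (kap j r) p v h

/-- the coefficients of the local average -/
noncomputable def bJ (cls : J → Fin 4) (kap : J → ℕ → Fin 3 → ℤ) (P : J → ℤ[X]) (p : ℕ)
    (v x : Vk k) : ℝ :=
  ∑ j, ∑ r ∈ rts (P j) p, bst (cls j) (kap j r) p v x

lemma lamJ_eq (cls : J → Fin 4) (kap : J → ℕ → Fin 3 → ℤ) (P : J → ℤ[X]) (p : ℕ)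
    (v h : Vk k) : lamJ cls kap P p v h = ∑ x, bJ cls kap P p v x * chi x h := by
  unfold lamJ bJ
  simp only [sum_mul]
  rw [sum_comm]
  refine sum_congr rfl fun j _ => ?_
  rw [sum_comm]
  refine sum_congr rfl fun r _ => ?_
  exact lst_eq _ _ _ _ _

lemma bJ_odd (cls : J → Fin 4) (kap : J → ℕ → Fin 3 → ℤ) (P : J → ℤ[X]) (p : ℕ)
    (v x : Vk k) (h : ¬ Even (nd x v)) : bJ cls kap P p v x = 0 := by
  unfold bJ
  exact sum_eq_zero fun j _ => sum_eq_zero fun r _ => bst_odd _ _ _ _ _ h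

lemma bJ_le (cls : J → Fin 4) (kap : J → ℕ → Fin 3 → ℤ) (P : J → ℤ[X]) (p : ℕ)
    (v x : Vk k) : |bJ cls kap P p v x| ≤ ∑ j, wst (cls j) v x * rho (P j) p := by
  unfold bJ
  refine (abs_sum_le_sum_abs _ _).trans (sum_le_sum fun j _ => ?_)
  refine (abs_sum_le_sum_abs _ _).trans ?_
  refine (sum_le_sum fun r _ => bst_le (cls j) (kap j r) p v x).trans ?_
  rw [sum_const, card_rts, nsmul_eq_mul, mul_comm]

lemma sum_rho_c (P : ℤ[X]) (hirr : Irreducible (P.map (Int.castRingHom ℚ))) (c z : ℕ)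
    (hc : 2 * c + 2 ≤ z) (hlc : ∀ p : ℕ, p.Prime → z < p → ¬ (p : ℤ) ∣ P.leadingCoeff) :
    ∃ C : ℝ, ∀ y : ℕ, z < y →
      ∑ p ∈ PS z y, (rho P p : ℝ) / ((p : ℝ) - c) ≤ Real.log (Real.log y) + C := by
  obtain ⟨C, hC⟩ := mertens_rho P hirr
  refine ⟨C + 2 * c * P.natDegree, fun y hy => ?_⟩
  have h1 : ∀ p ∈ PS z y, (rho P p : ℝ) / ((p : ℝ) - c) ≤
      (rho P p : ℝ) / p + 2 * c * P.natDegree * ((p : ℝ) ^ 2)⁻¹ := by
    intro p hp
    obtain ⟨⟨h2, h3⟩, h4⟩ := mem_PS.1 hp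
    have h5 : (2 * c + 3 : ℝ) ≤ p := by exact_mod_cast (by omega : 2 * c + 3 ≤ p)
    have hc0 : (0 : ℝ) ≤ c := Nat.cast_nonneg c
    have hp0 : (0 : ℝ) < p := by linarith
    have h6 : (rho P p : ℝ) ≤ P.natDegree := by exact_mod_cast rho_le P h4 (hlc p h4 h2)
    have h7 : (0 : ℝ) ≤ rho P p := Nat.cast_nonneg _
    have h8 : (0 : ℝ) < (p : ℝ) - c := by linarith
    have h9 : (rho P p : ℝ) / ((p : ℝ) - c) - (rho P p : ℝ) / p =
        (rho P p : ℝ) * (c / (p * (p - c))) := by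
      field_simp
      ring
    have h10 : (c : ℝ) / (p * (p - c)) ≤ 2 * c * ((p : ℝ) ^ 2)⁻¹ := by
      rw [← div_eq_mul_inv, div_le_div_iff₀ (by positivity) (by positivity)]
      nlinarith [mul_nonneg hc0 hp0.le, mul_nonneg (mul_nonneg hc0 hp0.le)
        (by linarith : (0 : ℝ) ≤ p - 2 * c)]
    have h11 : (rho P p : ℝ) * (c / (p * (p - c))) ≤
        P.natDegree * (2 * c * ((p : ℝ) ^ 2)⁻¹) := by
      apply mul_le_mul h6 h10 (by positivity) (Nat.cast_nonneg _)
    linarith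
  refine (sum_le_sum h1).trans ?_
  rw [sum_add_distrib, ← mul_sum]
  have h2 : ∑ p ∈ PS z y, (rho P p : ℝ) / p ≤ Real.log (Real.log y) + C := by
    have h3 := (abs_le.1 (hC y (by omega))).2
    have h4 : ∑ p ∈ PS z y, (rho P p : ℝ) / p ≤ ∑ p ∈ pr y, (rho P p : ℝ) / p := by
      apply sum_le_sum_of_subset_of_nonneg
      · intro p hp
        obtain ⟨⟨h2, h3⟩, h4⟩ := mem_PS.1 hp
        unfold pr
        rw [mem_filter, mem_Icc]
        exact ⟨⟨h4.one_lt.le, h3⟩, h4⟩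
      · intro p _ _
        positivity
    linarith
  have h3 : ∑ p ∈ PS z y, ((p : ℝ) ^ 2)⁻¹ ≤ 1 := by
    have h4 : ∑ p ∈ PS z y, ((p : ℝ) ^ 2)⁻¹ ≤ ∑ p ∈ Ioc z y, ((p : ℝ) ^ 2)⁻¹ := by
      apply sum_le_sum_of_subset_of_nonneg (filter_subset _ _)
      intro p _ _
      positivity
    have h5 := sum_Ioc_inv_sq_le_sub (α := ℝ) (k := z) (n := y) (by omega) hy.le
    have h6 : ((z : ℝ))⁻¹ ≤ 1 := by
      apply inv_le_one_of_one_le₀
      exact_mod_cast (by omega : 1 ≤ z)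
    have h7 : (0 : ℝ) ≤ ((y : ℝ))⁻¹ := by positivity
    linarith
  have h4 : (0 : ℝ) ≤ 2 * c * P.natDegree := by positivity
  nlinarith

/-- **The average is bounded by a power of the logarithm** -/
theorem avg (cls : J → Fin 4) (P : J → ℤ[X])
    (hirr : ∀ j, Irreducible ((P j).map (Int.castRingHom ℚ))) (c N : ℕ)
    (hpos : ∀ i : Lb k, 0 < ∑ j, wst (cls j) i.1.1 i.1.2)
    (hcomb : ∀ U : Finset (Lb k), (∀ i ∈ U, ∀ i' ∈ U, Ll i i' = Ll i' i) →
      ∑ i ∈ U, ∑ j, wst (cls j) i.1.1 i.1.2 ≤ N) :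
    ∃ z0 : ℕ, ∀ z, z0 ≤ z → ∀ kap : J → ℕ → Fin 3 → ℤ, ∃ C : ℝ, ∀ y, z < y →
      ∑ s ∈ (PP z y).divisors, Gs (lamJ (k := k) cls kap P) s * gw 1 c s ≤
        C * (Real.log y) ^ N := by
  classical
  set B : ℕ := 2 * ∑ j, (P j).natDegree + 2 with hBdef
  have hB : 0 < B := by omega
  have hBr : (0 : ℝ) < B := by exact_mod_cast hB
  set e : Ix k B → ℝ := fun i => (∑ j, wst (cls j) i.1.1.1 i.1.1.2) / B with he
  obtain ⟨z0, hz0⟩ := ag (Ix k B) e (Lk (k := k) (B := B)) c N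
    (fun i => div_pos (hpos i.1) hBr)
    (fun i => by
      unfold Lk Ll
      rw [decide_eq_false_iff_not, Nat.not_odd_iff_even]
      exact i.1.2)
    (fun U hU => by
      have h1 : ∑ i ∈ U, e i ≤ ∑ l ∈ U.image Prod.fst, ∑ j, wst (cls j) l.1.1 l.1.2 := by
        have h2 : ∑ i ∈ U, e i = ∑ l ∈ U.image Prod.fst, ∑ i ∈ U.filter (fun i => i.1 = l), e i :=
          (sum_fiberwise_of_maps_to (fun i hi => mem_image_of_mem _ hi) _).symm
        rw [h2]
        refine sum_le_sum fun l _ => ?_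
        have h3 : ∀ i ∈ U.filter (fun i => i.1 = l), e i = (∑ j, wst (cls j) l.1.1 l.1.2) / B := by
          intro i hi
          rw [he, ← (mem_filter.1 hi).2]
        rw [sum_congr rfl h3, sum_const, nsmul_eq_mul]
        have h4 : (U.filter (fun i => i.1 = l)).card ≤ B := by
          have h5 : (U.filter (fun i => i.1 = l)).card ≤ (univ : Finset (Fin B)).card := by
            apply card_le_card_of_injOn Prod.snd (fun i _ => mem_univ _)
            intro i hi i' hi' hii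
            have h6 := (mem_filter.1 (mem_coe.1 hi)).2
            have h7 := (mem_filter.1 (mem_coe.1 hi')).2
            exact Prod.ext (h6.trans h7.symm) hii
          rwa [card_univ, Fintype.card_fin] at h5
        have h5 : 0 ≤ ∑ j, wst (cls j) l.1.1 l.1.2 := (hpos l).le
        have h6 : ((U.filter (fun i => i.1 = l)).card : ℝ) ≤ B := by exact_mod_cast h4
        calc ((U.filter (fun i => i.1 = l)).card : ℝ) * ((∑ j, wst (cls j) l.1.1 l.1.2) / B) ≤
            B * ((∑ j, wst (cls j) l.1.1 l.1.2) / B) :=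
              mul_le_mul_of_nonneg_right h6 (div_nonneg h5 hBr.le)
          _ = _ := by field_simp
      refine h1.trans (hcomb _ ?_)
      intro l hl l' hl'
      obtain ⟨i, hi, rfl⟩ := mem_image.1 hl
      obtain ⟨i', hi', rfl⟩ := mem_image.1 hl'
      exact hU i hi i' hi')
  set M : ℕ := ∑ j, (P j).leadingCoeff.natAbs with hM
  have hlc : ∀ z, M ≤ z → ∀ j, ∀ p : ℕ, p.Prime → z < p → ¬ (p : ℤ) ∣ (P j).leadingCoeff := by
    intro z hz j p _ hzp hd
    have h0 : (P j).leadingCoeff ≠ 0 := by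
      rw [Ne, leadingCoeff_eq_zero]
      intro h
      have := (hirr j).ne_zero
      rw [h, Polynomial.map_zero] at this
      exact this rfl
    have h1 : p ∣ (P j).leadingCoeff.natAbs := Int.natCast_dvd.1 hd
    have h2 := Nat.le_of_dvd (Int.natAbs_pos.2 h0) h1
    have h3 : (P j).leadingCoeff.natAbs ≤ M :=
      single_le_sum (f := fun j => (P j).leadingCoeff.natAbs) (fun _ _ => Nat.zero_le _)
        (mem_univ j)
    omega
  refine ⟨z0 + M + 2 * c + 2, fun z hz kap => ?_⟩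
  have hlcz := hlc z (by omega)
  choose Cj hCj using fun j => sum_rho_c (P j) (hirr j) c z (by omega) (hlcz j)
  have hpc : ∀ p : ℕ, z < p → (0 : ℝ) < (p : ℝ) - c := by
    intro p hp
    have : (2 * c + 3 : ℝ) ≤ p := by exact_mod_cast (by omega : 2 * c + 3 ≤ p)
    have hc0 : (0 : ℝ) ≤ c := Nat.cast_nonneg c
    linarith
  obtain ⟨C, hC⟩ := hz0 z (by omega) (wt (B := B) (bJ (k := k) cls kap P) c) (∑ j, |Cj j|)
    (fun i p hp hpz => by
      unfold wt
      rw [abs_div, abs_of_pos (mul_pos hBr (hpc p hpz)), div_mul_eq_div_div]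
      refine div_le_div_of_nonneg_right ?_ (hpc p hpz).le
      rw [div_le_iff₀ hBr]
      refine (bJ_le cls kap P p _ _).trans ?_
      have h1 : ∑ j, wst (cls j) i.1.1.1 i.1.1.2 * (rho (P j) p : ℝ) ≤
          ∑ j, ((P j).natDegree : ℝ) := by
        refine sum_le_sum fun j _ => ?_
        have h2 : (rho (P j) p : ℝ) ≤ (P j).natDegree := by
          exact_mod_cast rho_le (P j) hp (hlcz j p hp hpz)
        have h3 : (0 : ℝ) ≤ rho (P j) p := Nat.cast_nonneg _
        calc wst (cls j) i.1.1.1 i.1.1.2 * (rho (P j) p : ℝ) ≤ 1 * (rho (P j) p : ℝ) :=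
              mul_le_mul_of_nonneg_right (wst_le _ _ _) h3
          _ ≤ _ := by rw [one_mul]; exact h2
      refine h1.trans ?_
      rw [hBdef]
      push_cast
      linarith)
    (fun i y hy => by
      have hly : (0 : ℝ) ≤ Real.log (Real.log y) + |Real.log (Real.log y)| := by
        linarith [neg_abs_le (Real.log (Real.log y))]
      have h1 : ∀ p ∈ PS z y, |wt (B := B) (bJ (k := k) cls kap P) c i p| ≤
          ∑ j, (wst (cls j) i.1.1.1 i.1.1.2 / B) * ((rho (P j) p : ℝ) / ((p : ℝ) - c)) := by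
        intro p hp
        obtain ⟨⟨h2, h3⟩, h4⟩ := mem_PS.1 hp
        unfold wt
        rw [abs_div, abs_of_pos (mul_pos hBr (hpc p h2)), div_le_iff₀ (mul_pos hBr (hpc p h2)),
          sum_mul]
        refine (bJ_le cls kap P p _ _).trans (le_of_eq (sum_congr rfl fun j _ => ?_))
        have := hpc p h2
        field_simp
      refine (sum_le_sum h1).trans ?_
      rw [sum_comm]
      simp only [← mul_sum]
      have h2 : ∀ j, (wst (cls j) i.1.1.1 i.1.1.2 / B) *
          ∑ p ∈ PS z y, ((rho (P j) p : ℝ) / ((p : ℝ) - c)) ≤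
          (wst (cls j) i.1.1.1 i.1.1.2 / B) * Real.log (Real.log y) + |Cj j| := by
        intro j
        have h3 : 0 ≤ wst (cls j) i.1.1.1 i.1.1.2 / (B : ℝ) :=
          div_nonneg (wst_nonneg _ _ _) hBr.le
        have h4 : wst (cls j) i.1.1.1 i.1.1.2 / (B : ℝ) ≤ 1 := by
          rw [div_le_one hBr]
          refine (wst_le _ _ _).trans ?_
          exact_mod_cast hB
        have h5 := mul_le_mul_of_nonneg_left (hCj j y hy) h3
        have h6 : wst (cls j) i.1.1.1 i.1.1.2 / (B : ℝ) * Cj j ≤ |Cj j| := by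
          refine (mul_le_mul_of_nonneg_left (le_abs_self _) h3).trans ?_
          exact mul_le_of_le_one_left (abs_nonneg _) h4
        rw [mul_add] at h5
        linarith
      refine (sum_le_sum fun j _ => h2 j).trans (le_of_eq ?_)
      rw [sum_add_distrib, ← sum_mul, ← sum_div])
  refine ⟨C, fun y hy => ?_⟩
  rw [exp_id hB (lamJ (k := k) cls kap P) (bJ cls kap P) c z y
    (fun p _ v h => lamJ_eq cls kap P p v h) (fun p _ v x h => bJ_odd cls kap P p v x h)]
  refine (le_abs_self _).trans ((hC y hy).trans (le_of_eq ?_))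
  rw [Real.rpow_natCast]

end

end Pool.Agent.L0h5.TF
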