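import Pool.Agent.L0h5.TF.Two
import Pool.Agent.L0h5.TF.Comb

/-!
# Factorization of the polynomials of a family
-/

set_option autoImplicit false
set_option linter.unusedSectionVars false

namespace Pool.Agent.L0h5.TF

open Finset Polynomial Pool.Agent.W262.RK UniqueFactorizationMonoid

/-- the number of the irreducible factors over the rationals -/
noncomputable def nfac (G : ℤ[X]) : ℕ :=
  Multiset.card (normalizedFactors (G.map (Int.castRingHom ℚ)))

lemma assoc_eq {u v : ℚ[X]} (h : Associated u v) : ∃ m : ℚ, m ≠ 0 ∧ u = C m * v := by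
  obtain ⟨w, hw⟩ := h.symm
  obtain ⟨m, hm, hm'⟩ := Polynomial.isUnit_iff.1 w.isUnit
  refine ⟨m, hm.ne_zero, ?_⟩
  rw [← hw, ← hm', mul_comm]

open Classical in
theorem data (H : Fin 4 → ℤ[X]) (hsq : Squarefree (∏ c, (H c).map (Int.castRingHom ℚ))) :
    ∃ (J : Type) (_ : Fintype J) (_ : DecidableEq J) (cls : J → Fin 4) (P : J → ℤ[X])
      (M : Fin 4 → ℚ), (∀ j, Irreducible ((P j).map (Int.castRingHom ℚ))) ∧
      (∀ i j, i ≠ j → IsCoprime ((P i).map (Int.castRingHom ℚ))
        ((P j).map (Int.castRingHom ℚ))) ∧ (∀ c, M c ≠ 0) ∧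
      (∀ c, ∏ j ∈ univ.filter (fun j => cls j = c), (P j).map (Int.castRingHom ℚ) =
        C (M c) * (H c).map (Int.castRingHom ℚ)) ∧
      ∀ c, (univ.filter (fun j => cls j = c)).card = nfac (H c) := by
  set ι := Int.castRingHom ℚ with hι
  have hne : ∀ c, (H c).map ι ≠ 0 := fun c h =>
    hsq.ne_zero (prod_eq_zero (mem_univ c) h)
  have hsqc : ∀ c, Squarefree ((H c).map ι) := fun c =>
    hsq.squarefree_of_dvd (dvd_prod_of_mem (fun c => (H c).map ι) (mem_univ c))
  set s : Fin 4 → Finset ℚ[X] := fun c => (normalizedFactors ((H c).map ι)).toFinset with hs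
  have hmem : ∀ c q, q ∈ s c → Irreducible q ∧ normalize q = q ∧ q ∣ (H c).map ι := by
    intro c q hq
    rw [hs, Multiset.mem_toFinset] at hq
    exact ⟨irreducible_of_normalized_factor q hq, normalize_normalized_factor q hq,
      dvd_of_mem_normalizedFactors hq⟩
  have hnod : ∀ c, (normalizedFactors ((H c).map ι)).Nodup := fun c =>
    (squarefree_iff_nodup_normalizedFactors (hne c)).1 (hsqc c)
  have hcard : ∀ c, (s c).card = nfac (H c) := by
    intro c
    rw [hs]
    unfold nfac
    exact Multiset.toFinset_card_of_nodup (hnod c)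
  have hprod : ∀ c, ∃ m : ℚ, m ≠ 0 ∧ ∏ q ∈ s c, q = C m * (H c).map ι := by
    intro c
    apply assoc_eq
    have h1 : ∏ q ∈ s c, q = (normalizedFactors ((H c).map ι)).prod := by
      rw [hs]
      show (Multiset.map (fun q => q) (normalizedFactors ((H c).map ι)).toFinset.val).prod = _
      rw [Multiset.toFinset_val, (hnod c).dedup, Multiset.map_id']
    rw [h1]
    exact prod_normalizedFactors (hne c)
  choose m hm0 hm using hprod
  choose d hd0 P hP using clear_den
  set J := Σ c : Fin 4, {q // q ∈ s c} with hJ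
  have hirr : ∀ j : J, Irreducible ((P j.2.1).map ι) := by
    intro j
    rw [hP]
    have h1 : IsUnit (C ((d j.2.1 : ℤ) : ℚ)) :=
      Polynomial.isUnit_C.2 (isUnit_iff_ne_zero.2 (by exact_mod_cast hd0 j.2.1))
    exact (irreducible_isUnit_mul h1).2 (hmem j.1 j.2.1 j.2.2).1
  refine ⟨J, inferInstance, Classical.decEq _, Sigma.fst, fun j => P j.2.1,
    fun c => (∏ q ∈ s c, ((d q : ℤ) : ℚ)) * m c, hirr, ?_, ?_, ?_, ?_⟩
  · intro i j hij
    have hdvd : ¬ (P i.2.1).map ι ∣ (P j.2.1).map ι := by
      intro h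
      have h1 := (hirr i).associated_of_dvd (hirr j) h
      rw [hP, hP] at h1
      have h2 : Associated i.2.1 j.2.1 := by
        have e1 : Associated (C ((d i.2.1 : ℤ) : ℚ) * i.2.1) i.2.1 :=
          associated_unit_mul_left _ _
            (Polynomial.isUnit_C.2 (isUnit_iff_ne_zero.2 (by exact_mod_cast hd0 i.2.1)))
        have e2 : Associated (C ((d j.2.1 : ℤ) : ℚ) * j.2.1) j.2.1 :=
          associated_unit_mul_left _ _
            (Polynomial.isUnit_C.2 (isUnit_iff_ne_zero.2 (by exact_mod_cast hd0 j.2.1)))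
        exact e1.symm.trans (h1.trans e2)
      obtain ⟨h3, h4, h5⟩ := hmem i.1 i.2.1 i.2.2
      obtain ⟨h3', h4', h5'⟩ := hmem j.1 j.2.1 j.2.2
      have h6 : i.2.1 = j.2.1 := by
        rw [← h4, ← h4']
        exact normalize_eq_normalize_iff_associated.2 h2
      by_cases hc : i.1 = j.1
      · apply hij
        obtain ⟨ci, qi⟩ := i
        obtain ⟨cj, qj⟩ := j
        simp only at hc
        subst hc
        simp only at h6
        have h7 : qi = qj := Subtype.ext h6
        rw [h7]
      · have h7 : i.2.1 * i.2.1 ∣ ∏ c, (H c).map ι := by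
          rw [← mul_prod_erase univ _ (mem_univ i.1)]
          refine mul_dvd_mul h5 ?_
          have h8 : j.1 ∈ univ.erase i.1 := mem_erase.2 ⟨fun h => hc h.symm, mem_univ _⟩
          have h9 : i.2.1 ∣ (H j.1).map ι := by
            rw [h6]
            exact h5'
          exact h9.trans (dvd_prod_of_mem (fun c => (H c).map ι) h8)
        exact h3.not_isUnit (hsq _ h7)
    exact (EuclideanDomain.dvd_or_coprime _ _ (hirr i)).resolve_left hdvd
  · intro c
    refine mul_ne_zero (prod_ne_zero_iff.2 fun q _ => by exact_mod_cast hd0 q) (hm0 c)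
  · intro c
    have h1 : ∏ j ∈ univ.filter (fun j : J => j.1 = c), (P j.2.1).map ι =
        ∏ q ∈ s c, (P q).map ι := by
      refine prod_bij (fun j _ => j.2.1) ?_ ?_ ?_ ?_
      · rintro ⟨c', q⟩ hj
        have h2 : c' = c := (mem_filter.1 hj).2
        subst h2
        exact q.2
      · rintro ⟨c', q⟩ hj ⟨c'', q'⟩ hj' h
        have h2 : c' = c := (mem_filter.1 hj).2
        have h3 : c'' = c := (mem_filter.1 hj').2
        subst h2
        subst h3
        simp only at h
        have h4 : q = q' := Subtype.ext h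
        rw [h4]
      · intro q hq
        exact ⟨⟨c, ⟨q, hq⟩⟩, mem_filter.2 ⟨mem_univ _, rfl⟩, rfl⟩
      · intro j _
        rfl
    rw [h1, prod_congr rfl fun q _ => hP q, prod_mul_distrib, hm, ← map_prod, C_mul, mul_assoc]
  · intro c
    rw [← hcard c]
    refine card_bij (fun j _ => j.2.1) ?_ ?_ ?_
    · rintro ⟨c', q⟩ hj
      have h2 : c' = c := (mem_filter.1 hj).2
      subst h2
      exact q.2
    · rintro ⟨c', q⟩ hj ⟨c'', q'⟩ hj' h
      have h2 : c' = c := (mem_filter.1 hj).2
      have h3 : c'' = c := (mem_filter.1 hj').2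
      subst h2
      subst h3
      simp only at h
      have h4 : q = q' := Subtype.ext h
      rw [h4]
    · intro q hq
      exact ⟨⟨c, ⟨q, hq⟩⟩, mem_filter.2 ⟨mem_univ _, rfl⟩, rfl⟩

end Pool.Agent.L0h5.TF
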