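import Pool.Agent.L0h5.TF.Fac

/-!
# The averages for families with squarefree discriminant
-/

set_option autoImplicit false
set_option linter.unusedSectionVars false

namespace Pool.Agent.L0h5.TF

open Finset Polynomial Pool.Agent.W262.RK

lemma exists_u (c : Fin 3 → ℚ) (hc : ∀ k, c k ≠ 0) : ∃ u : ℤ, u ≠ 0 ∧ ∀ k, ∃ a : ℤ, a ≠ 0 ∧
    (a : ℚ) * c k = (u : ℚ) ^ 2 := by
  classical
  have hn : ∀ k, (c k).num ≠ 0 := fun k => Rat.num_ne_zero.2 (hc k)
  refine ⟨∏ k, (c k).num, prod_ne_zero_iff.2 fun k _ => hn k, fun k =>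
    ⟨(∏ l, (c l).num) * (∏ l ∈ univ.erase k, (c l).num) * (c k).den, ?_, ?_⟩⟩
  · refine mul_ne_zero (mul_ne_zero (prod_ne_zero_iff.2 fun k _ => hn k)
      (prod_ne_zero_iff.2 fun k _ => hn k)) ?_
    exact_mod_cast (c k).den_nz
  · have h1 : (∏ l, ((c l).num : ℚ)) = ((c k).num : ℚ) * ∏ l ∈ univ.erase k, ((c l).num : ℚ) :=
      (mul_prod_erase univ (fun l => ((c l).num : ℚ)) (mem_univ k)).symm
    have h2 : ((c k).den : ℚ) * c k = (c k).num := by
      have := Rat.mul_den_eq_num (c k)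
      rw [mul_comm]
      exact this
    push_cast
    rw [sq]
    conv_rhs => rw [h1]
    rw [h1]
    linear_combination (((c k).num : ℚ) * ∏ l ∈ univ.erase k, ((c l).num : ℚ)) *
      (∏ l ∈ univ.erase k, ((c l).num : ℚ)) * h2

lemma cs_ne (k : Fin 3) : k.castSucc ≠ (3 : Fin 4) := by
  revert k
  decide

theorem fam (H : Fin 4 → ℤ[X]) (hsq : Squarefree (∏ c, (H c).map (Int.castRingHom ℚ))) :
    ∃ (J : Type) (_ : Fintype J) (_ : DecidableEq J) (cls : J → Fin 4) (P : J → ℤ[X])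
      (a : Fin 3 → ℤ) (u : ℤ), Fm P a ∧ u ≠ 0 ∧
      (∀ k : Fin 3, FP cls a P k = C (u ^ 2) * (H 3 * H k.castSucc)) ∧
      (∀ c, (univ.filter (fun j => cls j = c)).card = nfac (H c)) ∧
      (∀ t : ℤ, (∀ c, (H c).eval t ≠ 0) → (FF P).eval t ≠ 0) := by
  classical
  obtain ⟨J, i1, i2, cls, P, M, hirr, hcop, hM, hprod, hcard⟩ := data H hsq
  obtain ⟨u, hu, ha⟩ := exists_u (fun k : Fin 3 => M k.castSucc * M 3)
    (fun k => mul_ne_zero (hM _) (hM _))
  choose a ha0 ha using ha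
  refine ⟨J, i1, i2, cls, P, a, u, ⟨hirr, hcop, ha0⟩, hu, fun k => ?_, hcard, fun t ht => ?_⟩
  · apply Polynomial.map_injective (Int.castRingHom ℚ) (RingHom.injective_int _)
    have h1 : ∏ l ∈ sp cls k, (P l).map (Int.castRingHom ℚ) =
        (∏ j ∈ univ.filter (fun j => cls j = k.castSucc), (P j).map (Int.castRingHom ℚ)) *
        ∏ j ∈ univ.filter (fun j => cls j = 3), (P j).map (Int.castRingHom ℚ) := by
      rw [← prod_union]
      · congr 1
        unfold sp
        exact filter_or _ _ _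
      · rw [disjoint_filter]
        intro j _ h2 h3
        rw [h2] at h3
        exact cs_ne k h3
    unfold FP
    rw [Polynomial.map_mul, Polynomial.map_mul, Polynomial.map_mul, Polynomial.map_prod, h1,
      hprod, hprod, map_C, map_C]
    have h2 : (C ((Int.castRingHom ℚ) (u ^ 2)) : ℚ[X]) = C ((Int.castRingHom ℚ) (a k)) *
        (C (M k.castSucc) * C (M 3)) := by
      rw [← C_mul, ← C_mul]
      congr 1
      have := ha k
      simp only [eq_intCast] at this ⊢
      push_cast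
      linarith
    rw [h2]
    ring
  · intro h0
    have h1 : ((FF P).map (Int.castRingHom ℚ)).eval (t : ℚ) = 0 := by
      rw [eval_intCast_map, Int.cast_id, h0, map_zero]
    have h2 : (FF P).map (Int.castRingHom ℚ) = ∏ c, (C (M c) * (H c).map (Int.castRingHom ℚ)) := by
      unfold FF
      rw [Polynomial.map_prod, ← prod_congr rfl fun c _ => hprod c]
      exact (prod_fiberwise univ cls _).symm
    rw [h2, eval_prod, prod_eq_zero_iff] at h1
    obtain ⟨c, _, hc⟩ := h1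
    rw [eval_mul, eval_C, eval_intCast_map, Int.cast_id, eq_intCast] at hc
    rcases mul_eq_zero.1 hc with h3 | h3
    · exact hM c h3
    · apply ht c
      exact_mod_cast h3

/-- the trivial case of constant families -/
lemma const_case {R : ℤ → ℝ} (r : ℝ) (hr : 0 ≤ r) (hR : ∀ t, R t ≤ r) (Q : ℤ → Prop)
    [DecidablePred Q] : ∃ C : ℝ, ∀ X : ℕ, 1 ≤ X →
      ∑ t ∈ (Icc (-(X : ℤ)) X).filter Q, R t ≤ C * X := by
  refine ⟨3 * r, fun X hX => ?_⟩
  have h1 : ∑ t ∈ (Icc (-(X : ℤ)) X).filter Q, R t ≤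
      ∑ t ∈ (Icc (-(X : ℤ)) X).filter Q, r := sum_le_sum fun t _ => hR t
  refine h1.trans ?_
  rw [sum_const, nsmul_eq_mul]
  have h2 : ((Icc (-(X : ℤ)) X).filter Q).card ≤ 2 * X + 1 := by
    refine (card_filter_le _ _).trans (le_of_eq ?_)
    rw [Int.card_Icc]
    omega
  have h3 : (((Icc (-(X : ℤ)) X).filter Q).card : ℝ) ≤ 3 * X := by
    have h4 : ((Icc (-(X : ℤ)) X).filter Q).card ≤ 3 * X := by omega
    exact_mod_cast h4
  calc _ ≤ (3 * (X : ℝ)) * r := mul_le_mul_of_nonneg_right h3 hr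
    _ = 3 * r * X := by ring

section

variable (H : Fin 4 → ℤ[X]) (k : ℕ)

/-- all the polynomials are constant -/
lemma const_of_empty (hne : ∀ c, (H c).map (Int.castRingHom ℚ) ≠ 0) (h : ∀ c, nfac (H c) = 0)
    (c : Fin 4) : ∃ m : ℤ, H c = C m := by
  have h1 := h c
  unfold nfac at h1
  rw [Multiset.card_eq_zero] at h1
  have h2 := UniqueFactorizationMonoid.prod_normalizedFactors (hne c)
  rw [h1, Multiset.prod_zero] at h2
  have h3 : IsUnit ((H c).map (Int.castRingHom ℚ)) := by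
    exact (associated_one_iff_isUnit.1 h2.symm)
  have h4 := natDegree_eq_zero_of_isUnit h3
  rw [natDegree_map_eq_of_injective (RingHom.injective_int _)] at h4
  exact ⟨(H c).coeff 0, eq_C_of_natDegree_eq_zero h4⟩

/-- general form -/
theorem gen (hsq : Squarefree (∏ c, (H c).map (Int.castRingHom ℚ)))
    (hrel : H 0 - H 1 = H 2)
    (hyp : (k = 1 ∧ ∃ n, ∀ c, c ≠ 3 → nfac (H c) = n) ∨ (∀ c, c ≠ 3 → nfac (H c) = 0)) :
    ∃ C : ℝ, ∀ X : ℕ, 1 ≤ X →
      ∑ t ∈ (Icc (-(X : ℤ)) X).filter (fun t : ℤ => (H 3 * H 0 * H 1 * H 2).eval t ≠ 0),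
        ((2 : ℝ) ^ Module.finrank ℤ (EAB ((H 3 * H 0).eval t)
          ((H 3 * H 1).eval t)).toAffine.Point) ^ k ≤ C * X := by
  classical
  have hne : ∀ c, (H c).map (Int.castRingHom ℚ) ≠ 0 := fun c h =>
    hsq.ne_zero (prod_eq_zero (mem_univ c) h)
  obtain ⟨J, i1, i2, cls, P, a, u, hFm, hu, hFP, hcard, hFF⟩ := fam H hsq
  rcases isEmpty_or_nonempty J with hJ | hJ
  · -- constant family
    have h0 : ∀ c, nfac (H c) = 0 := by
      intro c
      rw [← hcard c]
      exact card_eq_zero.2 (eq_empty_of_isEmpty _)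
    have h1 := const_of_empty H hne h0
    obtain ⟨m0, hm0⟩ := h1 0
    obtain ⟨m1, hm1⟩ := h1 1
    obtain ⟨m3, hm3⟩ := h1 3
    refine const_case (((2 : ℝ) ^ Module.finrank ℤ (EAB (m3 * m0) (m3 * m1)).toAffine.Point) ^ k)
      (by positivity) (fun t => ?_) _
    have e0 : (H 3 * H 0).eval t = m3 * m0 := by rw [hm3, hm0, eval_mul, eval_C, eval_C]
    have e1 : (H 3 * H 1).eval t = m3 * m1 := by rw [hm3, hm1, eval_mul, eval_C, eval_C]
    show ((2 : ℝ) ^ Module.finrank ℤ (EAB ((H 3 * H 0).eval t)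
          ((H 3 * H 1).eval t)).toAffine.Point) ^ k ≤ _
    rw [e0, e1]
  · have hrel' : FP cls a P 0 - FP cls a P 1 = FP cls a P 2 := by
      rw [hFP, hFP, hFP]
      have h2 : H (Fin.castSucc 2) = H (Fin.castSucc 0) - H (Fin.castSucc 1) := hrel.symm
      rw [h2]
      ring
    have hpc : (∀ i : Lb k, 0 < ∑ j, wst (cls j) i.1.1 i.1.2) ∧
        ∀ U : Finset (Lb k), (∀ i ∈ U, ∀ i' ∈ U, Ll i i' = Ll i' i) →
          ∑ i ∈ U, ∑ j, wst (cls j) i.1.1 i.1.2 ≤ (Fintype.card J : ℕ) := by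
      rcases hyp with ⟨rfl, n, hn⟩ | h0
      · have hn' : ∀ c, c ≠ 3 → (univ.filter (fun j => cls j = c)).card = n := fun c hc => by
          rw [hcard c, hn c hc]
        exact ⟨fun i => pos_one n hn' i, fun U hU => comb_one n hn' U hU⟩
      · have h3 : ∀ j, cls j = 3 := by
          intro j
          by_contra hj
          have h4 := h0 (cls j) hj
          rw [← hcard (cls j), card_eq_zero] at h4
          have h5 : j ∈ univ.filter (fun l => cls l = cls j) := mem_filter.2 ⟨mem_univ _, rfl⟩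
          rw [h4] at h5
          exact absurd h5 (notMem_empty _)
        exact ⟨fun i => pos_three h3 i, fun U hU => comb_three h3 U hU⟩
    obtain ⟨C, hC⟩ := core2 (k := k) hFm hrel' hpc.1 hpc.2
    refine ⟨C, fun X hX => le_trans ?_ (hC X hX)⟩
    have hterm : ∀ t : ℤ, ((2 : ℝ) ^ Module.finrank ℤ (EAB ((H 3 * H 0).eval t)
          ((H 3 * H 1).eval t)).toAffine.Point) ^ k =
        ((2 : ℝ) ^ Module.finrank ℤ (EAB ((FP cls a P 0).eval t)
          ((FP cls a P 1).eval t)).toAffine.Point) ^ k := by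
      intro t
      have e0 : (FP cls a P 0).eval t = u ^ 2 * (H 3 * H 0).eval t := by
        rw [hFP, eval_mul, eval_C]
        rfl
      have e1 : (FP cls a P 1).eval t = u ^ 2 * (H 3 * H 1).eval t := by
        rw [hFP, eval_mul, eval_C]
        rfl
      rw [e0, e1, rank_scale _ _ hu]
    rw [sum_congr rfl fun t _ => hterm t]
    refine sum_le_sum_of_subset_of_nonneg ?_ (fun t _ _ => by positivity)
    intro t ht
    rw [mem_filter] at ht ⊢
    refine ⟨ht.1, hFF t fun c => ?_⟩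
    have h5 := ht.2
    simp only [eval_mul] at h5
    have h6 : (H 3).eval t ≠ 0 ∧ (H 0).eval t ≠ 0 ∧ (H 1).eval t ≠ 0 ∧ (H 2).eval t ≠ 0 := by
      refine ⟨?_, ?_, ?_, ?_⟩ <;> intro h7 <;> apply h5 <;> rw [h7] <;> ring
    obtain ⟨a3, a0, a1, a2⟩ := h6
    fin_cases c
    · exact a0
    · exact a1
    · exact a2
    · exact a3

end

end Pool.Agent.L0h5.TF
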