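import Pool.Agent.L0h5.TF.Exp

/-!
# Fourier coefficients of the local conditions
-/

set_option autoImplicit false

namespace Pool.Agent.L0h5.TF

open Finset Pool.Agent.W262.RK

open Pool.Agent.W762.RK2 (sg)

/-- one character -/
noncomputable def ch1 (x h : Bool × Bool) : ℝ :=
  (if x.1 = true then sg h.1 else 1) * (if x.2 = true then sg h.2 else 1)

lemma chi_prod {k : ℕ} (x h : Vk k) : chi x h = ∏ i, ch1 (x i) (h i) := rfl

open Classical in
/-- the indicator of the local condition -/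
noncomputable def lq (c : Fin 4) (κ : Fin 3 → ℤ) (neg : Bool) (p : ℕ) (v h : Bool × Bool) : ℝ :=
  if LL c κ neg p v.1 v.2 h.1 h.2 then 1 else 0

/-- the Fourier coefficient -/
noncomputable def cf (c : Fin 4) (κ : Fin 3 → ℤ) (neg : Bool) (p : ℕ) (v x : Bool × Bool) : ℝ :=
  (1 / 4) * ∑ h : Bool × Bool, lq c κ neg p v h * ch1 x h

lemma inv_gen (f : Bool × Bool → ℝ) (h : Bool × Bool) :
    f h = ∑ x : Bool × Bool, ((1 / 4) * ∑ h' : Bool × Bool, f h' * ch1 x h') * ch1 x h := by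
  rcases h with ⟨h1, h2⟩
  simp only [Fintype.sum_prod_type, Fintype.sum_bool, ch1, sg]
  cases h1 <;> cases h2 <;> simp <;> ring

lemma cf_inv (c : Fin 4) (κ : Fin 3 → ℤ) (neg : Bool) (p : ℕ) (v h : Bool × Bool) :
    lq c κ neg p v h = ∑ x, cf c κ neg p v x * ch1 x h :=
  inv_gen (fun h => lq c κ neg p v h) h

lemma lq_nonneg (c : Fin 4) (κ : Fin 3 → ℤ) (neg : Bool) (p : ℕ) (v h : Bool × Bool) :
    0 ≤ lq c κ neg p v h := by
  unfold lq
  split_ifs <;> norm_num

lemma lq_le (c : Fin 4) (κ : Fin 3 → ℤ) (neg : Bool) (p : ℕ) (v h : Bool × Bool) :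
    lq c κ neg p v h ≤ 1 := by
  unfold lq
  split_ifs <;> norm_num

lemma lq_neg {c : Fin 4} (hc : c ≠ 3) (κ : Fin 3 → ℤ) (neg neg' : Bool) (p : ℕ)
    (v h : Bool × Bool) : lq c κ neg p v h = lq c κ neg' p v h := by
  unfold lq LL
  have h3 : c = 0 ∨ c = 1 ∨ c = 2 := by
    revert c; decide
  rcases h3 with rfl | rfl | rfl <;> simp

lemma cf_neg {c : Fin 4} (hc : c ≠ 3) (κ : Fin 3 → ℤ) (neg neg' : Bool) (p : ℕ)
    (v x : Bool × Bool) : cf c κ neg p v x = cf c κ neg' p v x := by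
  unfold cf
  congr 1
  exact sum_congr rfl fun h _ => by rw [lq_neg hc κ neg neg']

lemma cf_le {c : Fin 4} (hc : c ≠ 3) (κ : Fin 3 → ℤ) (neg : Bool) (p : ℕ)
    (v x : Bool × Bool) : |cf c κ neg p v x| ≤ if Al c v x = true then 1 / 2 else 0 := by
  have h3 : c = 0 ∨ c = 1 ∨ c = 2 := by
    revert c; decide
  rcases v with ⟨v1, v2⟩
  rcases x with ⟨x1, x2⟩
  unfold cf lq LL
  simp only [Fintype.sum_prod_type, Fintype.sum_bool, ch1, sg]
  generalize sg0 p (κ 0) = s
  rcases h3 with rfl | rfl | rfl <;> cases v1 <;> cases v2 <;> cases x1 <;> cases x2 <;>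
    cases s <;> simp [Al, ec] <;> norm_num

lemma cf_three (κ : Fin 3 → ℤ) (p : ℕ) (v : Bool × Bool) : ∃ A B : Bool, ∀ (neg : Bool)
    (x : Bool × Bool), cf 3 κ neg p v x =
      (1 / 4) * ch1 x (xor (v.1 && neg) A, xor (v.2 && neg) B) := by
  refine ⟨(xor (v.1 && !v.2 && sg0 p (κ 0)) (xor (!v.1 && v.2 && sg0 p (κ 0 * κ 1))
      (v.1 && v.2 && sg0 p (κ 1)))), (xor (v.1 && !v.2 && sg0 p (κ 0 * κ 2))
      (xor (!v.1 && v.2 && sg0 p (-κ 0)) (v.1 && v.2 && sg0 p (-κ 2)))), fun neg x => ?_⟩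
  unfold cf
  congr 1
  rw [sum_eq_single (xor (v.1 && neg) (xor (v.1 && !v.2 && sg0 p (κ 0))
    (xor (!v.1 && v.2 && sg0 p (κ 0 * κ 1)) (v.1 && v.2 && sg0 p (κ 1)))),
    xor (v.2 && neg) (xor (v.1 && !v.2 && sg0 p (κ 0 * κ 2))
      (xor (!v.1 && v.2 && sg0 p (-κ 0)) (v.1 && v.2 && sg0 p (-κ 2)))))]
  · unfold lq LL
    rw [if_pos (by simp), one_mul]
  · intro h _ hh
    unfold lq LL
    rw [if_neg, zero_mul]
    rw [if_neg (by decide), if_neg (by decide), if_neg (by decide)]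
    rintro ⟨h1, h2⟩
    exact hh (Prod.ext h1 h2)
  · intro h
    exact absurd (mem_univ _) h

lemma abs_ch1 (x h : Bool × Bool) : |ch1 x h| = 1 := by
  rcases h with ⟨h1, h2⟩
  rcases x with ⟨x1, x2⟩
  unfold ch1 sg
  cases x1 <;> cases x2 <;> cases h1 <;> cases h2 <;> simp

lemma ch1_xor (v x : Bool × Bool) (A B : Bool) :
    ch1 x (xor (v.1 && true) A, xor (v.2 && true) B) =
      ch1 x (xor (v.1 && false) A, xor (v.2 && false) B) *
        (-1) ^ ((if (x.1 && v.1) = true then 1 else 0) + (if (x.2 && v.2) = true then 1 else 0)) := by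
  rcases v with ⟨v1, v2⟩
  rcases x with ⟨x1, x2⟩
  unfold ch1 sg
  cases x1 <;> cases x2 <;> cases v1 <;> cases v2 <;> cases A <;> cases B <;> simp

lemma cf_three_le (κ : Fin 3 → ℤ) (neg : Bool) (p : ℕ) (v x : Bool × Bool) :
    |cf 3 κ neg p v x| ≤ 1 / 4 := by
  obtain ⟨A, B, h⟩ := cf_three κ p v
  rw [h, abs_mul, abs_ch1]
  norm_num [abs_of_pos]

lemma cf_three_neg (κ : Fin 3 → ℤ) (p : ℕ) (v x : Bool × Bool) :
    cf 3 κ true p v x = cf 3 κ false p v x *
      (-1) ^ ((if (x.1 && v.1) = true then 1 else 0) + (if (x.2 && v.2) = true then 1 else 0)) := by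
  obtain ⟨A, B, h⟩ := cf_three κ p v
  rw [h, h, ch1_xor]
  ring

lemma Al_even {c : Fin 4} (hc : c ≠ 3) {v x : Bool × Bool} (h : Al c v x = true) :
    Even ((if (x.1 && v.1) = true then 1 else 0) + (if (x.2 && v.2) = true then 1 else 0)) := by
  have h3 : c = 0 ∨ c = 1 ∨ c = 2 := by
    clear h
    revert c; decide
  rcases v with ⟨v1, v2⟩
  rcases x with ⟨x1, x2⟩
  revert h
  rcases h3 with rfl | rfl | rfl <;> cases v1 <;> cases v2 <;> cases x1 <;> cases x2 <;> decide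

section

variable {k : ℕ}

/-- the contribution of a state -/
noncomputable def lst (c : Fin 4) (κ : Fin 3 → ℤ) (p : ℕ) (v h : Vk k) : ℝ :=
  ∑ neg : Bool, (1 / 2) * ∏ i, lq c κ neg p (v i) (h i)

/-- the coefficients of a state -/
noncomputable def bst (c : Fin 4) (κ : Fin 3 → ℤ) (p : ℕ) (v x : Vk k) : ℝ :=
  ∑ neg : Bool, (1 / 2) * ∏ i, cf c κ neg p (v i) (x i)

lemma lst_eq (c : Fin 4) (κ : Fin 3 → ℤ) (p : ℕ) (v h : Vk k) :
    lst c κ p v h = ∑ x, bst c κ p v x * chi x h := by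
  unfold lst bst
  have h1 : ∀ neg : Bool, ∏ i, lq c κ neg p (v i) (h i) =
      ∑ x : Vk k, (∏ i, cf c κ neg p (v i) (x i)) * chi x h := by
    intro neg
    rw [prod_congr rfl fun i _ => cf_inv c κ neg p (v i) (h i), prod_univ_sum,
      Fintype.piFinset_univ]
    refine sum_congr rfl fun x _ => ?_
    rw [chi_prod, ← prod_mul_distrib]
  rw [sum_congr rfl fun neg _ => by rw [h1 neg]]
  simp only [Fintype.sum_bool]
  rw [← mul_add, ← sum_add_distrib, mul_sum]
  refine sum_congr rfl fun x _ => ?_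
  ring

lemma bst_odd (c : Fin 4) (κ : Fin 3 → ℤ) (p : ℕ) (v x : Vk k) (h : ¬ Even (nd x v)) :
    bst c κ p v x = 0 := by
  unfold bst
  by_cases hc : c = 3
  · subst hc
    rw [Fintype.sum_bool, prod_congr rfl fun i _ => cf_three_neg κ p (v i) (x i),
      prod_mul_distrib, prod_pow_eq_pow_sum]
    have h1 : (-1 : ℝ) ^ (∑ i, ((if ((x i).1 && (v i).1) = true then 1 else 0) +
      (if ((x i).2 && (v i).2) = true then 1 else 0))) = -1 :=
      Odd.neg_one_pow (Nat.not_even_iff_odd.1 h)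
    rw [h1]
    ring
  · have h1 : ∃ i, ¬ Even ((if ((x i).1 && (v i).1) = true then 1 else 0) +
        (if ((x i).2 && (v i).2) = true then 1 else 0)) := by
      by_contra hcon
      push Not at hcon
      exact h (Finset.even_sum _ fun i _ => hcon i)
    obtain ⟨i, hi⟩ := h1
    have h2 : ∀ neg : Bool, ∏ i, cf c κ neg p (v i) (x i) = 0 := by
      intro neg
      apply prod_eq_zero (mem_univ i)
      have h3 := cf_le hc κ neg p (v i) (x i)
      rw [if_neg (fun h' => hi (Al_even hc h'))] at h3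
      exact abs_nonpos_iff.1 h3
    simp [h2]

/-- the weight of a state -/
noncomputable def wst (c : Fin 4) (v x : Vk k) : ℝ :=
  ∏ i, if c = 3 then (1 / 4 : ℝ) else if Al c (v i) (x i) = true then 1 / 2 else 0

lemma wst_nonneg (c : Fin 4) (v x : Vk k) : 0 ≤ wst c v x := by
  unfold wst
  refine prod_nonneg fun i _ => ?_
  split_ifs <;> norm_num

lemma wst_le (c : Fin 4) (v x : Vk k) : wst c v x ≤ 1 := by
  unfold wst
  refine prod_le_one (fun i _ => ?_) fun i _ => ?_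
  · split_ifs <;> norm_num
  · split_ifs <;> norm_num

lemma bst_le (c : Fin 4) (κ : Fin 3 → ℤ) (p : ℕ) (v x : Vk k) :
    |bst c κ p v x| ≤ wst c v x := by
  have h1 : ∀ neg : Bool, |∏ i, cf c κ neg p (v i) (x i)| ≤ wst c v x := by
    intro neg
    rw [abs_prod]
    unfold wst
    refine prod_le_prod (fun i _ => abs_nonneg _) fun i _ => ?_
    by_cases hc : c = 3
    · subst hc
      rw [if_pos rfl]
      exact cf_three_le κ neg p (v i) (x i)
    · rw [if_neg hc]
      exact cf_le hc κ neg p (v i) (x i)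
  unfold bst
  rw [Fintype.sum_bool]
  refine (abs_add_le _ _).trans ?_
  rw [abs_mul, abs_mul, abs_of_pos (by norm_num : (0 : ℝ) < 1 / 2)]
  linarith [h1 true, h1 false]

end

end Pool.Agent.L0h5.TF
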