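import Pool.Agent.L0h5.TF.Avg

/-!
# The large primes are good for a family of polynomials
-/

set_option autoImplicit false
set_option linter.unusedSectionVars false

namespace Pool.Agent.L0h5.TF

open Finset Polynomial Pool.Agent.W262.RK Pool.Agent.L0h5.MR

/-- irreducible over the rationals, pairwise coprime, nonzero constants -/
structure Fm {J : Type} (P : J → ℤ[X]) (a : Fin 3 → ℤ) : Prop where
  irr : ∀ j, Irreducible ((P j).map (Int.castRingHom ℚ))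
  cop : ∀ i j, i ≠ j → IsCoprime ((P i).map (Int.castRingHom ℚ)) ((P j).map (Int.castRingHom ℚ))
  ane : ∀ k, a k ≠ 0

/-- the primes greater than `z` are good -/
structure Gz {J : Type} (P : J → ℤ[X]) (a : Fin 3 → ℤ) (z : ℕ) : Prop where
  two : 2 ≤ z
  lc : ∀ p : ℕ, p.Prime → z < p → ∀ j, ¬ (p : ℤ) ∣ (P j).leadingCoeff
  ak : ∀ p : ℕ, p.Prime → z < p → ∀ k, ¬ (p : ℤ) ∣ a k
  der : ∀ p : ℕ, p.Prime → z < p → ∀ j (r : ℤ), (p : ℤ) ∣ (P j).eval r →
    ¬ (p : ℤ) ∣ (derivative (P j)).eval r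
  cop : ∀ p : ℕ, p.Prime → z < p → ∀ i j, i ≠ j → ∀ r : ℤ, (p : ℤ) ∣ (P i).eval r →
    ¬ (p : ℤ) ∣ (P j).eval r

lemma clear_den (u : ℚ[X]) : ∃ m : ℤ, m ≠ 0 ∧ ∃ A : ℤ[X],
    A.map (Int.castRingHom ℚ) = C (m : ℚ) * u := by
  obtain ⟨b, hb⟩ := IsLocalization.integerNormalization_map_to_map (nonZeroDivisors ℤ) u
  refine ⟨b, nonZeroDivisors.coe_ne_zero b, IsLocalization.integerNormalization
    (nonZeroDivisors ℤ) u, ?_⟩
  have h1 : (algebraMap ℤ ℚ) = Int.castRingHom ℚ := rfl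
  rw [← h1, hb]
  ext n
  simp [Polynomial.coeff_smul]

lemma bez {P Q : ℤ[X]} (h : IsCoprime (P.map (Int.castRingHom ℚ)) (Q.map (Int.castRingHom ℚ))) :
    ∃ n : ℤ, n ≠ 0 ∧ ∃ A B : ℤ[X], A * P + B * Q = C n := by
  obtain ⟨u, v, huv⟩ := h
  obtain ⟨m, hm, A, hA⟩ := clear_den u
  obtain ⟨l, hl, B, hB⟩ := clear_den v
  refine ⟨m * l, mul_ne_zero hm hl, C l * A, C m * B, ?_⟩
  apply Polynomial.map_injective (Int.castRingHom ℚ) (RingHom.injective_int _)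
  rw [Polynomial.map_add, Polynomial.map_mul, Polynomial.map_mul, Polynomial.map_mul,
    Polynomial.map_mul, map_C, map_C, map_C, hA, hB, map_mul, C_mul]
  have h1 : ∀ n : ℤ, (Int.castRingHom ℚ) n = (n : ℚ) := fun n => rfl
  rw [h1, h1]
  linear_combination (C (m : ℚ) * C (l : ℚ)) * huv

lemma bez_bound {P Q : ℤ[X]}
    (h : IsCoprime (P.map (Int.castRingHom ℚ)) (Q.map (Int.castRingHom ℚ))) :
    ∃ z0 : ℕ, ∀ p : ℕ, p.Prime → z0 < p → ∀ r : ℤ, (p : ℤ) ∣ P.eval r → ¬ (p : ℤ) ∣ Q.eval r := by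
  obtain ⟨n, hn, A, B, hAB⟩ := bez h
  refine ⟨n.natAbs, fun p _ hp r h1 h2 => ?_⟩
  have h3 := congrArg (fun q => q.eval r) hAB
  simp only [eval_add, eval_mul, eval_C] at h3
  have h4 : (p : ℤ) ∣ n := by
    rw [← h3]
    exact dvd_add (h1.mul_left _) (h2.mul_left _)
  have h5 := Nat.le_of_dvd (Int.natAbs_pos.2 hn) (Int.natCast_dvd.1 h4)
  omega

section

variable {J : Type} [Fintype J] {P : J → ℤ[X]} {a : Fin 3 → ℤ}

lemma Fm.ne (h : Fm P a) (j : J) : P j ≠ 0 := by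
  intro h0
  have := (h.irr j).ne_zero
  rw [h0, Polynomial.map_zero] at this
  exact this rfl

lemma Fm.good (h : Fm P a) : ∃ z0 : ℕ, ∀ z, z0 ≤ z → Gz P a z := by
  classical
  have h1 : ∀ i j, ∃ z0 : ℕ, i ≠ j → ∀ p : ℕ, p.Prime → z0 < p → ∀ r : ℤ,
      (p : ℤ) ∣ (P i).eval r → ¬ (p : ℤ) ∣ (P j).eval r := by
    intro i j
    by_cases hij : i = j
    · exact ⟨0, fun h' => absurd hij h'⟩
    · obtain ⟨z0, hz0⟩ := bez_bound (h.cop i j hij)
      exact ⟨z0, fun _ => hz0⟩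
  choose z1 hz1 using h1
  have h2 : ∀ j, ∃ z0 : ℕ, ∀ p : ℕ, p.Prime → z0 < p → ∀ r : ℤ,
      (p : ℤ) ∣ (P j).eval r → ¬ (p : ℤ) ∣ (derivative (P j)).eval r := by
    intro j
    apply bez_bound
    rw [← derivative_map]
    exact (h.irr j).separable
  choose z2 hz2 using h2
  refine ⟨2 + ∑ j, (P j).leadingCoeff.natAbs + ∑ k, (a k).natAbs + ∑ j, z2 j +
    ∑ i, ∑ j, z1 i j, fun z hz => ⟨by omega, ?_, ?_, ?_, ?_⟩⟩
  · intro p _ hzp j hd
    have h3 := Nat.le_of_dvd (Int.natAbs_pos.2 (leadingCoeff_ne_zero.2 (h.ne j)))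
      (Int.natCast_dvd.1 hd)
    have h4 := single_le_sum (f := fun j => (P j).leadingCoeff.natAbs) (fun _ _ => Nat.zero_le _)
      (mem_univ j)
    omega
  · intro p _ hzp k hd
    have h3 := Nat.le_of_dvd (Int.natAbs_pos.2 (h.ane k)) (Int.natCast_dvd.1 hd)
    have h4 := single_le_sum (f := fun k => (a k).natAbs) (fun _ _ => Nat.zero_le _)
      (mem_univ k)
    omega
  · intro p hp hzp j
    have h4 := single_le_sum (f := fun j => z2 j) (fun _ _ => Nat.zero_le _) (mem_univ j)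
    exact hz2 j p hp (by omega)
  · intro p hp hzp i j hij
    have h4 := single_le_sum (f := fun j => z1 i j) (fun _ _ => Nat.zero_le _) (mem_univ j)
    have h5 := single_le_sum (f := fun i => ∑ j, z1 i j) (fun _ _ => Nat.zero_le _) (mem_univ i)
    exact hz1 i j hij p hp (by omega)

/-- the product of the polynomials -/
noncomputable def FF (P : J → ℤ[X]) : ℤ[X] := ∏ j, P j

lemma eval_FF (P : J → ℤ[X]) (r : ℤ) : (FF P).eval r = ∏ j, (P j).eval r := by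
  unfold FF
  rw [eval_prod]

lemma dvd_FF {p : ℕ} (hp : p.Prime) (r : ℤ) :
    (p : ℤ) ∣ (FF P).eval r ↔ ∃ j, (p : ℤ) ∣ (P j).eval r := by
  rw [eval_FF, (Nat.prime_iff_prime_int.1 hp).dvd_finsetProd_iff]
  simp

lemma Gz.not_dvd_prod {z : ℕ} (g : Gz P a z) {p : ℕ} (hp : p.Prime) (hz : z < p) {j : J} {r : ℤ}
    (h : (p : ℤ) ∣ (P j).eval r) {U : Finset J} (hU : j ∉ U) :
    ¬ (p : ℤ) ∣ ∏ l ∈ U, (P l).eval r := by
  rw [(Nat.prime_iff_prime_int.1 hp).dvd_finsetProd_iff]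
  rintro ⟨l, hl, hd⟩
  exact g.cop p hp hz j l (fun h' => hU (h' ▸ hl)) r h hd

lemma sq_dvd_prod {p : ℕ} (hp : p.Prime) {x y : ℤ} (hy : ¬ (p : ℤ) ∣ y) :
    (p : ℤ) ^ 2 ∣ x * y ↔ (p : ℤ) ^ 2 ∣ x := by
  constructor
  · intro h
    have h1 : IsCoprime ((p : ℤ) ^ 2) y :=
      ((Prime.coprime_iff_not_dvd (Nat.prime_iff_prime_int.1 hp)).2 hy).pow_left
    exact h1.dvd_of_dvd_mul_right h
  · intro h
    exact h.mul_right _

lemma Gz.sq_dvd_FF {z : ℕ} (g : Gz P a z) {p : ℕ} (hp : p.Prime) (hz : z < p) {j : J}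
    {r : ℤ} (h : (p : ℤ) ∣ (P j).eval r) :
    (p : ℤ) ^ 2 ∣ (FF P).eval r ↔ (p : ℤ) ^ 2 ∣ (P j).eval r := by
  classical
  rw [eval_FF, ← mul_prod_erase univ (fun l => (P l).eval r) (mem_univ j)]
  exact sq_dvd_prod hp (g.not_dvd_prod hp hz h (notMem_erase _ _))

lemma Gz.rho_FF {z : ℕ} (g : Gz P a z) {p : ℕ} (hp : p.Prime) (hz : z < p) :
    rho (FF P) p = ∑ j, rho (P j) p := by
  classical
  have h1 : (range p).filter (fun r : ℕ => (p : ℤ) ∣ (FF P).eval (r : ℤ)) =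
      univ.biUnion fun j => (range p).filter (fun r : ℕ => (p : ℤ) ∣ (P j).eval (r : ℤ)) := by
    ext r
    simp only [mem_filter, mem_biUnion, mem_univ, true_and, dvd_FF hp]
    constructor
    · rintro ⟨h2, j, h3⟩
      exact ⟨j, h2, h3⟩
    · rintro ⟨j, h2, h3⟩
      exact ⟨h2, j, h3⟩
  unfold rho
  rw [h1, card_biUnion]
  intro i _ j _ hij
  rw [Function.onFun, disjoint_left]
  intro r hr hr'
  exact g.cop p hp hz i j hij r (mem_filter.1 hr).2 (mem_filter.1 hr').2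

lemma Gz.rho_le_deg {z : ℕ} (g : Gz P a z) {p : ℕ} (hp : p.Prime) (hz : z < p) :
    rho (FF P) p ≤ ∑ j, (P j).natDegree := by
  rw [g.rho_FF hp hz]
  exact sum_le_sum fun j _ => rho_le (P j) hp (g.lc p hp hz j)

/-- the lower bound for the sum over the roots -/
lemma lower (h : Fm P a) {z : ℕ} (g : Gz P a z) : ∃ C : ℝ, ∀ y : ℕ, 3 ≤ y → z < y →
    (Fintype.card J : ℕ) * Real.log (Real.log y) - C ≤
      ∑ p ∈ PS z y, (rho (FF P) p : ℝ) / p := by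
  classical
  choose C hC using fun j => mertens_rho (P j) (h.irr j)
  refine ⟨∑ j, (C j + ∑ p ∈ pr z, (rho (P j) p : ℝ) / p), fun y hy hzy => ?_⟩
  have h1 : ∑ p ∈ PS z y, (rho (FF P) p : ℝ) / p =
      ∑ j, ∑ p ∈ PS z y, (rho (P j) p : ℝ) / p := by
    rw [sum_comm]
    refine sum_congr rfl fun p hp => ?_
    rw [g.rho_FF (mem_PS.1 hp).2 (mem_PS.1 hp).1.1]
    push_cast
    rw [sum_div]
  have h2 : ∀ j, Real.log (Real.log y) - (C j + ∑ p ∈ pr z, (rho (P j) p : ℝ) / p) ≤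
      ∑ p ∈ PS z y, (rho (P j) p : ℝ) / p := by
    intro j
    have h3 := (abs_le.1 (hC j y hy)).1
    have h4 : ∑ p ∈ pr y, (rho (P j) p : ℝ) / p = ∑ p ∈ pr z, (rho (P j) p : ℝ) / p +
        ∑ p ∈ PS z y, (rho (P j) p : ℝ) / p := by
      rw [← sum_union]
      · congr 1
        ext p
        unfold pr
        rw [mem_union, mem_filter, mem_filter, mem_Icc, mem_Icc, mem_PS]
        constructor
        · rintro ⟨⟨h1, h2⟩, h3⟩
          rcases Nat.lt_or_ge z p with h | h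
          · exact Or.inr ⟨⟨h, h2⟩, h3⟩
          · exact Or.inl ⟨⟨h1, h⟩, h3⟩
        · rintro (⟨⟨h1, h2⟩, h3⟩ | ⟨⟨h1, h2⟩, h3⟩)
          · exact ⟨⟨h1, by omega⟩, h3⟩
          · exact ⟨⟨h3.one_lt.le, h2⟩, h3⟩
      · rw [disjoint_left]
        intro p hp hp'
        unfold pr at hp
        rw [mem_filter, mem_Icc] at hp
        rw [mem_PS] at hp'
        omega
    linarith
  rw [h1]
  refine le_trans (le_of_eq ?_) (sum_le_sum fun j _ => h2 j)
  rw [sum_sub_distrib, sum_const, card_univ, nsmul_eq_mul]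

end

end Pool.Agent.L0h5.TF
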