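import Pool.Agent.L0h5.TF.Fam
import Pool.Agent.W307.RT.Defs
import Pool.Agent.W262.RK.NT1

/-!
# The bound for the rank
-/

set_option autoImplicit false
set_option linter.unusedSectionVars false

namespace Pool.Agent.L0h5.TF

open Finset Polynomial Pool.Agent.W262.RK Pool.Agent.L0h5.MR
open Pool.Agent.W307.RT (S1 S2)

section

variable {J : Type} [Fintype J] [DecidableEq J]

/-- the local conditions at `t` -/
def Lt (cls : J → Fin 4) (a : Fin 3 → ℤ) (P : J → ℤ[X]) (t p : ℕ) (v w h g : Bool) : Prop :=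
  ∀ j, (p : ℤ) ∣ (P j).eval (t : ℤ) → LL (cls j) (kapP cls a P j (t % p))
    (sg0 p ((P j).eval (t : ℤ) / p)) p v w h g

/-- the value -/
noncomputable def fF (P : J → ℤ[X]) (t : ℕ) : Unit → ℤ := fun _ => (FF P).eval (t : ℤ)

variable {cls : J → Fin 4} {a : Fin 3 → ℤ} {P : J → ℤ[X]} {z : ℕ}

lemma dvd_S1 {P : J → ℤ[X]} {z y t p : ℕ} (hp : p.Prime) :
    p ∣ S1 z y (fF P t) () ↔ p ∈ PS z y ∧ (p : ℤ) ∣ (FF P).eval (t : ℤ) ∧
      ¬ (p : ℤ) ^ 2 ∣ (FF P).eval (t : ℤ) := by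
  unfold S1
  rw [prime_dvd_prodS (fun q hq => (mem_PS.1 (mem_filter.1 hq).1).2) hp, mem_filter]
  rfl

lemma dvd_S2 {P : J → ℤ[X]} {z y t p : ℕ} (hp : p.Prime) :
    p ∣ S2 z y (fF P t) () ↔ p ∈ PS z y ∧ (p : ℤ) ^ 2 ∣ (FF P).eval (t : ℤ) := by
  unfold S2
  rw [prime_dvd_prodS (fun q hq => (mem_PS.1 (mem_filter.1 hq).1).2) hp, mem_filter]
  rfl

lemma S1_dvd_PP (P : J → ℤ[X]) (z y t : ℕ) : S1 z y (fF P t) () ∣ PP z y :=
  prod_dvd_prod_of_subset _ _ _ (filter_subset _ _)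

lemma FP_ne (h : Fm P a) {t : ℤ} (h0 : (FF P).eval t ≠ 0) (k : Fin 3) :
    (FP cls a P k).eval t ≠ 0 := by
  rw [eval_FF, prod_ne_zero_iff] at h0
  rw [eval_FP]
  exact mul_ne_zero (h.ane k) (prod_ne_zero_iff.2 fun l _ => h0 l (mem_univ l))

lemma badP (h : Fm P a) (g : Gz P a z) {t y X K E : ℕ} (hX : 1 ≤ X) (hy : 1 ≤ y)
    (h0 : (FF P).eval (t : ℤ) ≠ 0) (hb : ((FF P).eval (t : ℤ)).natAbs ≤ X ^ E) (hE : 1 ≤ E)
    (hK : X < (y + 1) ^ K) :
    ((2 * (FP cls a P 0).eval (t : ℤ) * (FP cls a P 1).eval (t : ℤ) *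
      (FP cls a P 2).eval (t : ℤ)).natAbs.primeFactors.filter
        (fun q => ¬ q ∣ S1 z y (fF P t) ())).card ≤
      z + E * K + (S2 z y (fF P t) ()).primeFactors.card := by
  have hsub : ((2 * (FP cls a P 0).eval (t : ℤ) * (FP cls a P 1).eval (t : ℤ) *
      (FP cls a P 2).eval (t : ℤ)).natAbs.primeFactors.filter
        (fun q => ¬ q ∣ S1 z y (fF P t) ())) ⊆
      ((Icc 1 z) ∪ ((FF P).eval (t : ℤ)).natAbs.primeFactors.filter (y < ·)) ∪
        (S2 z y (fF P t) ()).primeFactors := by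
    intro q hq
    rw [mem_filter] at hq
    have hp := Nat.prime_of_mem_primeFactors hq.1
    have hdv := Nat.dvd_of_mem_primeFactors hq.1
    rw [mem_union, mem_union, mem_Icc]
    rcases Nat.lt_or_ge z q with hzq | hzq
    swap
    · exact Or.inl (Or.inl ⟨hp.one_lt.le, hzq⟩)
    · have hqi : Prime (q : ℤ) := Nat.prime_iff_prime_int.1 hp
      have hdv2 : (q : ℤ) ∣ 2 * (FP cls a P 0).eval (t : ℤ) * (FP cls a P 1).eval (t : ℤ) *
        (FP cls a P 2).eval (t : ℤ) := Int.natCast_dvd.2 hdv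
      have hk : ∃ k, (q : ℤ) ∣ (FP cls a P k).eval (t : ℤ) := by
        rcases hqi.dvd_or_dvd hdv2 with h1 | h1
        · rcases hqi.dvd_or_dvd h1 with h2 | h2
          · rcases hqi.dvd_or_dvd h2 with h3 | h3
            · exfalso
              have h4 : q ∣ 2 := by exact_mod_cast h3
              have h5 := Nat.le_of_dvd (by norm_num) h4
              have := g.two
              omega
            · exact ⟨0, h3⟩
          · exact ⟨1, h2⟩
        · exact ⟨2, h1⟩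
      obtain ⟨k, hk⟩ := hk
      rw [eval_FP] at hk
      rcases hqi.dvd_or_dvd hk with h1 | h1
      · exact absurd h1 (g.ak q hp hzq k)
      · obtain ⟨l, _, hl⟩ := (hqi.dvd_finsetProd_iff _).1 h1
        have hlF : (q : ℤ) ∣ (FF P).eval (t : ℤ) := (dvd_FF hp _).2 ⟨l, hl⟩
        rcases Nat.lt_or_ge y q with hyq | hyq
        · left; right
          rw [mem_filter, Nat.mem_primeFactors]
          exact ⟨⟨hp, Int.natCast_dvd.1 hlF, Int.natAbs_ne_zero.2 h0⟩, hyq⟩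
        · right
          have hPS : q ∈ PS z y := mem_PS.2 ⟨⟨hzq, hyq⟩, hp⟩
          have hsq : (q : ℤ) ^ 2 ∣ (FF P).eval (t : ℤ) := by
            by_contra hcon
            exact hq.2 ((dvd_S1 hp).2 ⟨hPS, hlF, hcon⟩)
          rw [Nat.mem_primeFactors]
          refine ⟨hp, (dvd_S2 hp).2 ⟨hPS, hsq⟩, ?_⟩
          unfold S2
          exact prod_ne_zero_iff.2 fun p hp => (mem_PS.1 (mem_filter.1 hp).1).2.ne_zero
  have hone : (((FF P).eval (t : ℤ)).natAbs.primeFactors.filter (y < ·)).card ≤ E * K := by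
    set S := ((FF P).eval (t : ℤ)).natAbs.primeFactors.filter (y < ·) with hS
    have h1 : (y + 1) ^ S.card ≤ ∏ q ∈ S, q :=
      Finset.pow_card_le_prod _ _ _ (fun q hq => by
        have := (mem_filter.1 hq).2
        omega)
    have h2 : ∏ q ∈ S, q ∣ ((FF P).eval (t : ℤ)).natAbs :=
      (prod_dvd_prod_of_subset _ _ _ (filter_subset _ _)).trans (Nat.prod_primeFactors_dvd _)
    have h3 : ∏ q ∈ S, q ≤ ((FF P).eval (t : ℤ)).natAbs :=
      Nat.le_of_dvd (Nat.pos_of_ne_zero (Int.natAbs_ne_zero.2 h0)) h2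
    have h4 : (y + 1) ^ S.card < (y + 1) ^ (E * K) := by
      calc (y + 1) ^ S.card ≤ X ^ E := h1.trans (h3.trans hb)
        _ < ((y + 1) ^ K) ^ E := Nat.pow_lt_pow_left hK (by omega)
        _ = (y + 1) ^ (E * K) := by rw [← pow_mul, mul_comm]
    exact ((Nat.pow_lt_pow_iff_right (by omega)).1 h4).le
  refine (card_le_card hsub).trans ((card_union_le _ _).trans (add_le_add
    ((card_union_le _ _).trans (add_le_add ?_ hone)) le_rfl))
  simp

lemma XC_Lt (g : Gz P a z) {t p : ℕ} (hp : p.Prime) (hz : z < p) :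
    XC (Lt cls a P t p) := by
  have h1 : ∀ j, (p : ℤ) ∣ (P j).eval (t : ℤ) → XC (LL (cls j) (kapP cls a P j (t % p))
      (sg0 p ((P j).eval (t : ℤ) / p)) p) := by
    intro j hj
    refine Pool.Agent.W342.RK2.xcl _ _ _ p hp ?_ fun k => ?_
    · have := g.two
      omega
    · exact kap_unit g hp hz ((dvd_eval_congr (P j) (mod_dvd t p)).1 hj) k
  exact ⟨fun j hj => (h1 j hj).1, fun a1 b1 c1 d1 a2 b2 c2 d2 e1 e2 j hj =>
    (h1 j hj).2 a1 b1 c1 d1 a2 b2 c2 d2 (e1 j hj) (e2 j hj)⟩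

/-- the rank is bounded by the local count -/
lemma rankP (h : Fm P a) (g : Gz P a z) (hrel : FP cls a P 0 - FP cls a P 1 = FP cls a P 2)
    {t y X k E : ℕ} (hX : 1 ≤ X) (hy : 1 ≤ y)
    (h0 : (FF P).eval (t : ℤ) ≠ 0) (hb : ((FF P).eval (t : ℤ)).natAbs ≤ X ^ E) (hE : 1 ≤ E)
    (hk : X < (y + 1) ^ k) :
    2 ^ Module.finrank ℤ (EAB ((FP cls a P 0).eval (t : ℤ))
      ((FP cls a P 1).eval (t : ℤ))).toAffine.Point ≤
      4 ^ (z + 2) * (4 ^ E) ^ k * 4 ^ (S2 z y (fF P t) ()).primeFactors.card *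
        NL (S1 z y (fF P t) ()) (Lt cls a P t) := by
  have hFne := FP_ne (cls := cls) h h0
  have hrel' : (FP cls a P 0).eval (t : ℤ) - (FP cls a P 1).eval (t : ℤ) =
      (FP cls a P 2).eval (t : ℤ) := by
    rw [← hrel, eval_sub]
  have hz2 : 2 ≤ z := g.two
  have hmd := S1_dvd_PP P z y t
  have hPSof : ∀ p : ℕ, p.Prime → p ∣ S1 z y (fF P t) () → p ∈ PS z y := fun p hp h =>
    (prime_dvd_PP hp).1 (h.trans hmd)
  have hodd : ∀ p : ℕ, p.Prime → p ∣ S1 z y (fF P t) () → p ≠ 2 := by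
    intro p hp h
    have h1 := (mem_PS.1 (hPSof p hp h)).1.1
    omega
  have hd := Pool.Agent.W214.RK2.desc4 (S1 z y (fF P t) ()) (Lt cls a P t)
    ((FP cls a P 0).eval (t : ℤ)) ((FP cls a P 1).eval (t : ℤ)) (hFne 0) (hFne 1)
    (fun h => hFne 2 (by rw [← hrel', h, sub_self]))
    (by
      rw [← Nat.not_even_iff_odd, even_iff_two_dvd]
      intro h
      exact hodd 2 Nat.prime_two h rfl)
    ((PP_squarefree z y).squarefree_of_dvd hmd)
    (fun p hp hpd => XC_Lt g hp (mem_PS.1 (hPSof p hp hpd)).1.1)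
    (fun p hp hpd x x' hx' hcurve e1 e2 he1 he2 hsq1 hsq2 j hj => by
      have hpp : p.Prime := Fact.out
      have hzp := (mem_PS.1 (hPSof p hpp hpd)).1.1
      have h2 : ¬ (p : ℤ) ^ 2 ∣ (P j).eval (t : ℤ) := by
        rw [← g.sq_dvd_FF hpp hzp hj]
        exact ((dvd_S1 hpp).1 hpd).2.2
      refine Pool.Agent.W342.RK2.locl (cls j) (kapP cls a P j (t % p)) _ p _ _
        (hodd p hpp hpd) (fun k => ?_) (locH_P g hrel hpp hzp hj h2) x x' hx' hcurve e1 e2 he1 he2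
        hsq1 hsq2
      exact kap_unit g hpp hzp ((dvd_eval_congr (P j) (mod_dvd t p)).1 hj) k)
  rw [hrel'] at hd
  refine hd.trans (Nat.mul_le_mul_right _ ?_)
  have hc := badP (cls := cls) (y := y) h g hX hy h0 hb hE hk
  calc 4 ^ (((2 * (FP cls a P 0).eval (t : ℤ) * (FP cls a P 1).eval (t : ℤ) *
      (FP cls a P 2).eval (t : ℤ)).natAbs.primeFactors.filter
        (fun q => ¬ q ∣ S1 z y (fF P t) ())).card + 2)
      ≤ 4 ^ ((z + 2) + E * k + (S2 z y (fF P t) ()).primeFactors.card) :=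
        Nat.pow_le_pow_right (by norm_num) (by omega)
    _ = _ := by
        rw [pow_add, pow_add, pow_mul]

lemma natAbs_eval_le (F : ℤ[X]) {t X : ℕ} (ht : t ≤ X) (hX : 1 ≤ X) :
    (F.eval (t : ℤ)).natAbs ≤
      (∑ i ∈ range (F.natDegree + 1), (F.coeff i).natAbs) * X ^ F.natDegree := by
  rw [eval_eq_sum_range, sum_mul]
  refine (Int.natAbs_sum_le _ _).trans (sum_le_sum fun i hi => ?_)
  rw [Int.natAbs_mul, Int.natAbs_pow, Int.natAbs_natCast]
  refine Nat.mul_le_mul_left _ ?_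
  exact (Nat.pow_le_pow_left ht i).trans (Nat.pow_le_pow_right hX (by
    have := mem_range.1 hi
    omega))

end

end Pool.Agent.L0h5.TF
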