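import Pool.Agent.L0h5.MR.Mertens
import Pool.Agent.W262.RK.Bas
import Pool.Agent.H373R2.T7.Fund

/-!
# Upper bound sieve for the values of a polynomial in a residue class
-/

set_option autoImplicit false

namespace Pool.Agent.L0h5.TF

open Finset Polynomial Pool.Agent.W262.RK Pool.Agent.L0h5.MR

lemma cnt_zmod (p : ℕ) [NeZero p] (Q : ZMod p → Prop) [DecidablePred Q] :
    ((range p).filter (fun n : ℕ => Q (n : ZMod p))).card =
      (univ.filter (fun x : ZMod p => Q x)).card := by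
  refine card_bij (fun n _ => (n : ZMod p)) ?_ ?_ ?_
  · intro n hn
    exact mem_filter.2 ⟨mem_univ _, (mem_filter.1 hn).2⟩
  · intro a ha b hb hab
    have h1 := mem_range.1 (mem_filter.1 ha).1
    have h2 := mem_range.1 (mem_filter.1 hb).1
    have h3 := congrArg ZMod.val hab
    rwa [ZMod.val_cast_of_lt h1, ZMod.val_cast_of_lt h2] at h3
  · intro r hr
    refine ⟨r.val, ?_, by simp⟩
    rw [mem_filter] at hr ⊢
    refine ⟨mem_range.2 (ZMod.val_lt r), ?_⟩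
    rw [ZMod.natCast_zmod_val]
    exact hr.2

/-- the forbidden classes -/
def QF (F : ℤ[X]) (z y : ℕ) (r : ℤ) (m : ℕ) (p n : ℕ) : Prop :=
  p ∈ PS z y ∧ ¬ p ∣ m ∧ (p : ℤ) ∣ F.eval (r + (m : ℤ) * ((n : ℤ) - 1))

lemma dvd_iff_eval (F : ℤ[X]) (p : ℕ) (x : ℤ) :
    (p : ℤ) ∣ F.eval x ↔ (F.map (Int.castRingHom (ZMod p))).eval (x : ZMod p) = 0 := by
  rw [eval_cast, ZMod.intCast_zmod_eq_zero_iff_dvd]

lemma nuB_QF (F : ℤ[X]) (z y : ℕ) (r : ℤ) (m : ℕ) (p : ℕ) (hp : p ∈ PS z y) (hpm : ¬ p ∣ m) :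
    Pool.Agent.H373R2.T7.nuB (QF F z y r m) p = rho F p := by
  classical
  have hpp := (mem_PS.1 hp).2
  have : Fact p.Prime := ⟨hpp⟩
  have : NeZero p := ⟨hpp.ne_zero⟩
  have hm : (m : ZMod p) ≠ 0 := by
    intro h
    exact hpm ((ZMod.natCast_eq_zero_iff _ _).1 h)
  have h1 : Pool.Agent.H373R2.T7.nuB (QF F z y r m) p =
      (univ.filter (fun x : ZMod p => (F.map (Int.castRingHom (ZMod p))).eval
        ((r : ZMod p) + m * (x - 1)) = 0)).card := by
    rw [← cnt_zmod p fun x => (F.map (Int.castRingHom (ZMod p))).eval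
        ((r : ZMod p) + m * (x - 1)) = 0]
    unfold Pool.Agent.H373R2.T7.nuB
    congr 1
    refine filter_congr fun n _ => ?_
    unfold QF
    rw [dvd_iff_eval]
    constructor
    · rintro ⟨-, -, h⟩
      push_cast at h
      exact h
    · intro h
      refine ⟨hp, hpm, ?_⟩
      push_cast
      exact h
  have h2 : rho F p = (univ.filter (fun x : ZMod p =>
      (F.map (Int.castRingHom (ZMod p))).eval x = 0)).card := by
    rw [← cnt_zmod p fun x => (F.map (Int.castRingHom (ZMod p))).eval x = 0]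
    unfold rho
    congr 1
    refine filter_congr fun n _ => ?_
    rw [dvd_iff_eval]
    push_cast
    rfl
  rw [h1, h2]
  set φ : ZMod p ≃ ZMod p := (Equiv.subRight (1 : ZMod p)).trans
    ((Equiv.mulLeft₀ (m : ZMod p) hm).trans (Equiv.addLeft (r : ZMod p))) with hφ
  refine card_bij (fun x _ => φ x) ?_ ?_ ?_
  · intro x hx
    rw [mem_filter] at hx ⊢
    exact ⟨mem_univ _, hx.2⟩
  · intro a _ b _ hab
    exact φ.injective hab
  · intro b hb
    refine ⟨φ.symm b, ?_, by simp⟩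
    rw [mem_filter] at hb ⊢
    refine ⟨mem_univ _, ?_⟩
    have h3 : (r : ZMod p) + m * (φ.symm b - 1) = φ (φ.symm b) := rfl
    rw [h3, Equiv.apply_symm_apply]
    exact hb.2

lemma QF_per (F : ℤ[X]) (z y : ℕ) (r : ℤ) (m : ℕ) (p n : ℕ) :
    QF F z y r m p n ↔ QF F z y r m p (n % p) := by
  unfold QF
  refine and_congr_right fun _ => and_congr_right fun _ => ?_
  rw [dvd_iff_eval, dvd_iff_eval]
  push_cast
  rfl

open Classical in
lemma count_leF (F : ℤ[X]) (z y X m r : ℕ) (_hm : 0 < m) :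
    ((Icc 1 X).filter (fun t : ℕ => t ≡ r [MOD m] ∧ ∀ p ∈ PS z y, ¬ p ∣ m →
      ¬ (p : ℤ) ∣ F.eval (t : ℤ))).card ≤
      ((Icc 1 (X / m + 1)).filter (fun n : ℕ => ∀ p ∈ Pool.Agent.H373R2.T7.pz y,
          ¬ QF F z y ((r % m : ℕ) : ℤ) m p n)).card := by
  apply card_le_card_of_injOn (fun t => t / m + 1)
  · intro t ht
    have ht' := Finset.mem_coe.1 ht
    have htX := mem_Icc.1 (mem_filter.1 ht').1
    obtain ⟨hmod, hnd⟩ := (mem_filter.1 ht').2
    rw [Finset.mem_coe, mem_filter, mem_Icc]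
    refine ⟨⟨Nat.le_add_left 1 _, Nat.succ_le_succ (Nat.div_le_div_right htX.2)⟩, fun p _ hQ => ?_⟩
    obtain ⟨hpPS, hpm, hj⟩ := hQ
    have e : ((r % m : ℕ) : ℤ) + (m : ℤ) * (((t / m + 1 : ℕ) : ℤ) - 1) = (t : ℤ) := by
      have h1 : t % m = r % m := hmod
      rw [← h1]
      have := Nat.mod_add_div t m
      push_cast
      zify at this
      linarith
    rw [e] at hj
    exact hnd p hpPS hpm hj
  · intro a ha b hb hab
    have ha' : a % m = r % m := (mem_filter.1 (Finset.mem_coe.1 ha)).2.1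
    have hb' : b % m = r % m := (mem_filter.1 (Finset.mem_coe.1 hb)).2.1
    simp only at hab
    have h1 : a / m = b / m := by omega
    rw [← Nat.mod_add_div a m, ← Nat.mod_add_div b m, ha', hb', h1]

set_option maxHeartbeats 1000000 in
/-- the sieve -/
theorem svP (F : ℤ[X]) (c N z : ℕ) (hz : 2 * c + 2 ≤ z)
    (hc : ∀ p : ℕ, p.Prime → z < p → rho F p ≤ c)
    (hM : ∃ C : ℝ, ∀ y : ℕ, 3 ≤ y → z < y →
      N * Real.log (Real.log y) - C ≤ ∑ p ∈ PS z y, (rho F p : ℝ) / p) :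
    ∃ (C : ℝ) (K y0 : ℕ), 0 ≤ C ∧ 1 ≤ K ∧ ∀ X y : ℕ, y0 ≤ y → z < y → y ^ K ≤ X →
    ∀ m r : ℕ, 1 ≤ m → m ^ 4 ≤ X →
    (((Icc 1 X).filter (fun t : ℕ => t ≡ r [MOD m] ∧ ∀ p ∈ PS z y, ¬ p ∣ m →
      ¬ (p : ℤ) ∣ F.eval (t : ℤ))).card : ℝ) ≤
      C * (X / m) * (∏ p ∈ m.primeFactors.filter (fun p => p ∈ PS z y),
        (p : ℝ) / ((p : ℝ) - c)) / (Real.log y) ^ N := by
  classical
  obtain ⟨K', x0', hK', hF⟩ := Pool.Agent.H373R2.T7.sys_fund (c + 1) (by omega) 1 one_pos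
  obtain ⟨C0, hC0⟩ := hM
  set C1 : ℝ := Real.exp C0 with hC1d
  have hC1 : 0 < C1 := Real.exp_pos _
  refine ⟨4 * C1 + 1, 2 * (K' + N), max x0' 3, by positivity, by omega,
    fun X y hy hzy hyX m r hm1 hmX4 => ?_⟩
  have hy0 : x0' ≤ y := (le_max_left _ _).trans hy
  have hy3 : 3 ≤ y := (le_max_right _ _).trans hy
  have hmpos : 0 < m := hm1
  have hm0 : m ≠ 0 := hmpos.ne'
  have hr := count_leF F z y X m r hmpos
  have hnu : ∀ p ∈ PS z y, ¬ p ∣ m →
      Pool.Agent.H373R2.T7.nuB (QF F z y ((r % m : ℕ) : ℤ) m) p = rho F p :=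
    fun p hp hpm => nuB_QF F z y _ m p hp hpm
  have hnu0 : ∀ p, ¬ (p ∈ PS z y ∧ ¬ p ∣ m) →
      Pool.Agent.H373R2.T7.nuB (QF F z y ((r % m : ℕ) : ℤ) m) p = 0 := by
    intro p hp
    unfold Pool.Agent.H373R2.T7.nuB
    rw [card_eq_zero, filter_eq_empty_iff]
    intro n _ hn
    exact hp ⟨hn.1, hn.2.1⟩
  have hPer : Pool.Agent.H373R2.T7.PerB (QF F z y ((r % m : ℕ) : ℤ) m) (c + 1) := by
    refine ⟨fun p n => QF_per F z y _ m p n, fun p _ => ?_⟩
    by_cases h : p ∈ PS z y ∧ ¬ p ∣ m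
    · rw [hnu p h.1 h.2]
      exact (hc p (mem_PS.1 h.1).2 (mem_PS.1 h.1).1.1).trans (Nat.le_succ c)
    · rw [hnu0 p h]
      exact Nat.zero_le _
  have hfund := hF (y ^ K') y hy0 le_rfl (QF F z y ((r % m : ℕ) : ℤ) m) hPer (X / m + 1)
  have hprod : ∏ p ∈ Pool.Agent.H373R2.T7.pz y,
      (1 - ((Pool.Agent.H373R2.T7.nuB (QF F z y ((r % m : ℕ) : ℤ) m) p : ℕ) : ℝ) / p) =
      ∏ p ∈ (PS z y).filter (fun p => ¬ p ∣ m), (1 - (rho F p : ℝ) / p) := by
    have h1 : ∏ p ∈ (PS z y).filter (fun p => ¬ p ∣ m),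
        (1 - ((Pool.Agent.H373R2.T7.nuB (QF F z y ((r % m : ℕ) : ℤ) m) p : ℕ) : ℝ) / p) =
        ∏ p ∈ Pool.Agent.H373R2.T7.pz y,
      (1 - ((Pool.Agent.H373R2.T7.nuB (QF F z y ((r % m : ℕ) : ℤ) m) p : ℕ) : ℝ) / p) := by
      apply prod_subset
      · intro p hp
        rw [mem_filter, mem_PS] at hp
        exact Pool.Agent.H373R2.T7.mem_pz.2 ⟨hp.1.1.2, hp.1.2⟩
      · intro p _ hp
        rw [mem_filter] at hp
        rw [hnu0 p hp]
        simp
    rw [← h1]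
    refine prod_congr rfl fun p hp => ?_
    rw [mem_filter] at hp
    rw [hnu p hp.1 hp.2]
  rw [hprod] at hfund
  obtain ⟨A, hA⟩ : ∃ A : ℝ, A = ∏ p ∈ (PS z y).filter (fun p => ¬ p ∣ m),
    (1 - (rho F p : ℝ) / p) := ⟨_, rfl⟩
  obtain ⟨B, hB⟩ : ∃ B : ℝ, B = ∏ p ∈ m.primeFactors.filter (fun p => p ∈ PS z y),
    (1 - (rho F p : ℝ) / p) := ⟨_, rfl⟩
  obtain ⟨D, hD⟩ : ∃ D : ℝ, D = ∏ p ∈ m.primeFactors.filter (fun p => p ∈ PS z y),
    ((p : ℝ) / ((p : ℝ) - c)) := ⟨_, rfl⟩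
  have hzc : ∀ p ∈ PS z y, (c : ℝ) + 1 ≤ p := by
    intro p hp
    have h1 := (mem_PS.1 hp).1.1
    exact_mod_cast (by omega : c + 1 ≤ p)
  have hrc : ∀ p ∈ PS z y, (rho F p : ℝ) ≤ c := by
    intro p hp
    exact_mod_cast hc p (mem_PS.1 hp).2 (mem_PS.1 hp).1.1
  have hfpos : ∀ p ∈ PS z y, 0 < 1 - (rho F p : ℝ) / p := by
    intro p hp
    have h1 := hzc p hp
    have h2 := hrc p hp
    have hp0 : (0 : ℝ) < p := by exact_mod_cast (mem_PS.1 hp).2.pos
    rw [sub_pos, div_lt_one hp0]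
    linarith
  have hApos : 0 < A := by
    rw [hA]; exact prod_pos fun p hp => hfpos p (mem_filter.1 hp).1
  have hBpos : 0 < B := by
    rw [hB]; exact prod_pos fun p hp => hfpos p (mem_filter.1 hp).2
  have hAB : A * B = ∏ p ∈ PS z y, (1 - (rho F p : ℝ) / p) := by
    have h1 : m.primeFactors.filter (fun p => p ∈ PS z y) = (PS z y).filter (fun p => ¬ ¬ p ∣ m) := by
      ext p
      rw [mem_filter, mem_filter, not_not]
      constructor
      · rintro ⟨hp, hp2⟩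
        exact ⟨hp2, Nat.dvd_of_mem_primeFactors hp⟩
      · rintro ⟨h2, h3⟩
        exact ⟨Nat.mem_primeFactors.2 ⟨(mem_PS.1 h2).2, h3, hm0⟩, h2⟩
    rw [hA, hB, h1]
    exact prod_filter_mul_prod_filter_not _ _ _
  have hDB : 1 ≤ D * B := by
    rw [hD, hB, ← prod_mul_distrib]
    have h1 : ∀ p ∈ m.primeFactors.filter (fun p => p ∈ PS z y),
        (1 : ℝ) ≤ (p : ℝ) / ((p : ℝ) - c) * (1 - (rho F p : ℝ) / p) := by
      intro p hp
      have h1 := hzc p (mem_filter.1 hp).2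
      have h1' := hrc p (mem_filter.1 hp).2
      have hp0 : (0 : ℝ) < p := by exact_mod_cast (mem_PS.1 (mem_filter.1 hp).2).2.pos
      have h2 : 0 < (p : ℝ) - c := by linarith
      have h3 : (p : ℝ) / ((p : ℝ) - c) * (1 - (rho F p : ℝ) / p) =
          ((p : ℝ) - rho F p) / ((p : ℝ) - c) := by
        field_simp
      rw [h3, le_div_iff₀ h2]
      linarith
    calc (1 : ℝ) = ∏ p ∈ m.primeFactors.filter (fun p => p ∈ PS z y), (1 : ℝ) := by
          rw [prod_const_one]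
      _ ≤ _ := prod_le_prod (fun _ _ => zero_le_one) h1
  have hD1 : 1 ≤ D := by
    rw [hD]
    have h1 : ∀ p ∈ m.primeFactors.filter (fun p => p ∈ PS z y),
        (1 : ℝ) ≤ (p : ℝ) / ((p : ℝ) - c) := by
      intro p hp
      have h1 := hzc p (mem_filter.1 hp).2
      have h2 : 0 < (p : ℝ) - c := by linarith
      rw [le_div_iff₀ h2]
      have : (0 : ℝ) ≤ c := Nat.cast_nonneg c
      linarith
    calc (1 : ℝ) = ∏ p ∈ m.primeFactors.filter (fun p => p ∈ PS z y), (1 : ℝ) := by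
          rw [prod_const_one]
      _ ≤ _ := prod_le_prod (fun _ _ => zero_le_one) h1
  have hDpos : 0 < D := by linarith
  have hyr : (3 : ℝ) ≤ y := by exact_mod_cast hy3
  have hl1 : 1 < Real.log y := by
    rw [Real.lt_log_iff_exp_lt (by linarith)]
    have := Real.exp_one_lt_d9
    linarith
  have hP : ∏ p ∈ PS z y, (1 - (rho F p : ℝ) / p) ≤ C1 / (Real.log y) ^ N := by
    have h1 : ∏ p ∈ PS z y, (1 - (rho F p : ℝ) / p) ≤
        ∏ p ∈ PS z y, Real.exp (-((rho F p : ℝ) / p)) := by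
      apply prod_le_prod
      · intro p hp
        exact (hfpos p hp).le
      · intro p _
        have := Real.add_one_le_exp (-((rho F p : ℝ) / p))
        linarith
    refine h1.trans ?_
    rw [← Real.exp_sum, sum_neg_distrib]
    have h4 : Real.log y ^ N = Real.exp (N * Real.log (Real.log y)) := by
      rw [← Real.log_pow, Real.exp_log (by positivity)]
    rw [h4, hC1d, ← Real.exp_sub]
    apply Real.exp_le_exp.2
    have := hC0 y hy3 hzy
    linarith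
  have hAle : A ≤ (C1 / (Real.log y) ^ N) * D := by
    have h1 : A ≤ (A * B) * D := by
      calc A = A * 1 := (mul_one _).symm
        _ ≤ A * (D * B) := mul_le_mul_of_nonneg_left hDB hApos.le
        _ = _ := by ring
    refine h1.trans ?_
    rw [hAB]
    exact mul_le_mul_of_nonneg_right hP hDpos.le
  have hly : Real.log y ≤ y := by
    have := Real.log_le_sub_one_of_pos (by linarith : (0 : ℝ) < y)
    linarith
  have hLpos : 0 < (Real.log y) ^ N := by positivity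
  have hmX : m * y ^ (K' + N) ≤ X := by
    have h1 : (m * y ^ (K' + N)) ^ 4 ≤ X ^ 4 := by
      calc (m * y ^ (K' + N)) ^ 4 = m ^ 4 * (y ^ (K' + N)) ^ 4 := by rw [mul_pow]
        _ ≤ m ^ 4 * (y ^ (K' + N)) ^ 6 := by
          apply Nat.mul_le_mul_left
          exact Nat.pow_le_pow_right (pow_pos (by omega) _) (by norm_num)
        _ = m ^ 4 * (y ^ (2 * (K' + N))) ^ 3 := by ring
        _ ≤ X * X ^ 3 := Nat.mul_le_mul hmX4 (Nat.pow_le_pow_left hyX 3)
        _ = X ^ 4 := by ring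
    exact (Nat.pow_le_pow_iff_left (by norm_num)).1 h1
  have hmX' : m ≤ X := by
    refine le_trans ?_ hmX
    exact Nat.le_mul_of_pos_right _ (pow_pos (by omega) _)
  have hmr : (0 : ℝ) < m := by exact_mod_cast hmpos
  have hcnt : (((Icc 1 X).filter (fun t : ℕ => t ≡ r [MOD m] ∧ ∀ p ∈ PS z y, ¬ p ∣ m →
      ¬ (p : ℤ) ∣ F.eval (t : ℤ))).card : ℝ) ≤
      2 * (((X / m + 1 : ℕ) : ℝ) * A) + √((y ^ K' : ℕ) : ℝ) := by
    have h1 : (((Icc 1 X).filter (fun t : ℕ => t ≡ r [MOD m] ∧ ∀ p ∈ PS z y, ¬ p ∣ m →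
        ¬ (p : ℤ) ∣ F.eval (t : ℤ))).card : ℝ) ≤
      (((Icc 1 (X / m + 1)).filter (fun n : ℕ => ∀ p ∈ Pool.Agent.H373R2.T7.pz y,
          ¬ QF F z y ((r % m : ℕ) : ℤ) m p n)).card : ℝ) := by
      exact_mod_cast hr
    have h2 := (abs_le.1 hfund).2
    rw [one_mul, ← hA] at h2
    linarith
  have hX' : ((X / m + 1 : ℕ) : ℝ) ≤ 2 * (X / m) := by
    have h1 : (X / m + 1) * m ≤ 2 * X := by
      have := Nat.div_mul_le_self X m
      rw [add_mul, one_mul]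
      omega
    have h2 : ((X / m + 1 : ℕ) : ℝ) * m ≤ 2 * X := by exact_mod_cast h1
    rw [← mul_div_assoc, le_div_iff₀ hmr]
    exact h2
  have hsq : √((y ^ K' : ℕ) : ℝ) ≤ (X / m) * D / (Real.log y) ^ N := by
    have h1 : (1 : ℝ) ≤ ((y ^ K' : ℕ) : ℝ) := by
      exact_mod_cast Nat.one_le_iff_ne_zero.2 (pow_ne_zero _ (by omega))
    have h2 : √((y ^ K' : ℕ) : ℝ) ≤ ((y ^ K' : ℕ) : ℝ) := by
      rw [Real.sqrt_le_left (by linarith)]
      nlinarith
    refine h2.trans ?_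
    rw [le_div_iff₀ hLpos]
    have h3 : (Real.log y) ^ N ≤ (y : ℝ) ^ N := pow_le_pow_left₀ (by linarith) hly _
    have h4 : (m : ℝ) * (y : ℝ) ^ (K' + N) ≤ X := by exact_mod_cast hmX
    have h5 : (y : ℝ) ^ (K' + N) ≤ X / m := by
      rw [le_div_iff₀ hmr, mul_comm]
      exact h4
    push_cast
    calc (y : ℝ) ^ K' * (Real.log y) ^ N ≤ (y : ℝ) ^ K' * (y : ℝ) ^ N :=
          mul_le_mul_of_nonneg_left h3 (by positivity)
      _ = (y : ℝ) ^ (K' + N) := by rw [pow_add]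
      _ ≤ X / m := h5
      _ = (X / m) * 1 := (mul_one _).symm
      _ ≤ (X / m) * D := mul_le_mul_of_nonneg_left hD1 (by positivity)
  have hmain : 2 * (((X / m + 1 : ℕ) : ℝ) * A) ≤ 4 * C1 * (X / m) * D / (Real.log y) ^ N := by
    calc 2 * (((X / m + 1 : ℕ) : ℝ) * A) ≤
        2 * ((2 * (X / m)) * ((C1 / (Real.log y) ^ N) * D)) := by gcongr
      _ = _ := by ring
  rw [← hD]
  calc (((Icc 1 X).filter (fun t : ℕ => t ≡ r [MOD m] ∧ ∀ p ∈ PS z y, ¬ p ∣ m →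
      ¬ (p : ℤ) ∣ F.eval (t : ℤ))).card : ℝ)
      ≤ 2 * (((X / m + 1 : ℕ) : ℝ) * A) + √((y ^ K' : ℕ) : ℝ) := hcnt
    _ ≤ 4 * C1 * (X / m) * D / (Real.log y) ^ N + (X / m) * D / (Real.log y) ^ N :=
        add_le_add hmain hsq
    _ = (4 * C1 + 1) * (X / m) * D / (Real.log y) ^ N := by ring

end Pool.Agent.L0h5.TF
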