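import Pool.Agent.L0h5.TF.Main
import Pool.Agent.W261.RT.Iso

/-!
# Positive and negative parameters
-/

set_option autoImplicit false
set_option linter.unusedSectionVars false

namespace Pool.Agent.L0h5.TF

open Finset Polynomial Pool.Agent.W262.RK Pool.Agent.L0h5.MR

/-- scaling by a square -/
lemma rank_scale (A B : ℤ) {u : ℤ} (hu : u ≠ 0) :
    Module.finrank ℤ (EAB (u ^ 2 * A) (u ^ 2 * B)).toAffine.Point =
      Module.finrank ℤ (EAB A B).toAffine.Point := by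
  have hur : (u : ℚ) ≠ 0 := by exact_mod_cast hu
  obtain ⟨e⟩ := Pool.Agent.W261.RT.iso (-((A : ℚ) + B)) ((A : ℚ) * B) 0 0 ((u : ℚ)⁻¹)
    (inv_ne_zero hur)
  have h1 : (⟨0, (-((A : ℚ) + B) + 3 * 0) / ((u : ℚ)⁻¹) ^ 2, 0,
      ((A : ℚ) * B + 2 * 0 * (-((A : ℚ) + B)) + 3 * 0 ^ 2) / ((u : ℚ)⁻¹) ^ 4,
      (0 + 0 * ((A : ℚ) * B) + 0 ^ 2 * (-((A : ℚ) + B)) + 0 ^ 3) / ((u : ℚ)⁻¹) ^ 6⟩ :
        WeierstrassCurve ℚ) = EAB (u ^ 2 * A) (u ^ 2 * B) := by
    unfold EAB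
    push_cast
    congr 1
    · field_simp
      ring
    · field_simp
      ring
    · ring
  rw [h1] at e
  exact (e.toIntLinearEquiv.finrank_eq).symm

section

variable {J : Type} [Fintype J] [DecidableEq J] {cls : J → Fin 4} {a : Fin 3 → ℤ} {P : J → ℤ[X]}
  {k : ℕ}

/-- the reflected polynomials -/
noncomputable def rf (P : J → ℤ[X]) (j : J) : ℤ[X] := (P j).comp (-X)

lemma map_comp_neg (Q : ℤ[X]) : (Q.comp (-X)).map (Int.castRingHom ℚ) =
    algEquivAevalNegX (Q.map (Int.castRingHom ℚ)) := by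
  rw [algEquivAevalNegX_apply, map_comp, Polynomial.map_neg, map_X, comp_eq_aeval]

lemma Fm.rf (h : Fm P a) : Fm (rf P) a := by
  refine ⟨fun j => ?_, fun i j hij => ?_, h.ane⟩
  · unfold TF.rf
    rw [map_comp_neg]
    exact (MulEquiv.irreducible_iff (algEquivAevalNegX (R := ℚ))).2 (h.irr j)
  · unfold TF.rf
    rw [map_comp_neg, map_comp_neg]
    exact (h.cop i j hij).map (algEquivAevalNegX (R := ℚ)).toRingEquiv.toRingHom

lemma FP_rf (k : Fin 3) : FP cls a (rf P) k = (FP cls a P k).comp (-X) := by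
  unfold FP rf
  rw [mul_comp, C_comp, Polynomial.prod_comp]

lemma FF_rf : FF (rf P) = (FF P).comp (-X) := by
  unfold FF rf
  rw [Polynomial.prod_comp]

/-- **The main estimate, two-sided** -/
theorem core2 (h : Fm P a) (hrel : FP cls a P 0 - FP cls a P 1 = FP cls a P 2)
    (hpos : ∀ i : Lb k, 0 < ∑ j, wst (cls j) i.1.1 i.1.2)
    (hcomb : ∀ U : Finset (Lb k), (∀ i ∈ U, ∀ i' ∈ U, Ll i i' = Ll i' i) →
      ∑ i ∈ U, ∑ j, wst (cls j) i.1.1 i.1.2 ≤ (Fintype.card J : ℕ)) :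
    ∃ C : ℝ, ∀ X : ℕ, 1 ≤ X →
      ∑ t ∈ (Icc (-(X : ℤ)) X).filter (fun t : ℤ => (FF P).eval t ≠ 0),
        ((2 : ℝ) ^ Module.finrank ℤ (EAB ((FP cls a P 0).eval t)
          ((FP cls a P 1).eval t)).toAffine.Point) ^ k ≤ C * X := by
  classical
  obtain ⟨C1, hC1⟩ := core h hrel hpos hcomb
  obtain ⟨C2, hC2⟩ := core (cls := cls) h.rf (by
    rw [FP_rf, FP_rf, FP_rf, ← sub_comp, hrel]) hpos hcomb
  set R : ℤ → ℝ := fun t => ((2 : ℝ) ^ Module.finrank ℤ (EAB ((FP cls a P 0).eval t)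
          ((FP cls a P 1).eval t)).toAffine.Point) ^ k with hR
  set R' : ℤ → ℝ := fun t => if (FF P).eval t ≠ 0 then R t else 0 with hR'
  have hR0 : ∀ t, 0 ≤ R' t := fun t => by
    rw [hR', hR]
    positivity
  refine ⟨C1 + C2 + R' 0, fun X hX => ?_⟩
  have hXr : (1 : ℝ) ≤ X := by exact_mod_cast hX
  rw [sum_filter]
  have e1 : ∑ t ∈ Icc 1 X, R' (t : ℤ) ≤ C1 * X := by
    have h1 := hC1 X hX
    rw [sum_filter] at h1
    exact h1
  have e2 : ∑ t ∈ Icc 1 X, R' (-(t : ℤ)) ≤ C2 * X := by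
    have h1 := hC2 X hX
    rw [sum_filter] at h1
    refine le_trans (le_of_eq ?_) h1
    refine sum_congr rfl fun t _ => ?_
    have e : ∀ Q : ℤ[X], (Q.comp (-Polynomial.X)).eval (t : ℤ) = Q.eval (-(t : ℤ)) := by
      intro Q
      rw [eval_comp, eval_neg, eval_X]
    rw [FP_rf, FP_rf, FF_rf, e, e, e]
  have hsub : Icc (-(X : ℤ)) X ⊆ ((Icc 1 X).image (fun t : ℕ => (t : ℤ)) ∪
      (Icc 1 X).image (fun t : ℕ => -(t : ℤ))) ∪ {0} := by
    intro t ht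
    rw [mem_Icc] at ht
    rw [mem_union, mem_union, mem_image, mem_image, mem_singleton]
    rcases lt_trichotomy t 0 with h | h | h
    · left; right
      exact ⟨t.natAbs, mem_Icc.2 (by omega), by omega⟩
    · right; exact h
    · left; left
      exact ⟨t.natAbs, mem_Icc.2 (by omega), by omega⟩
  have hun : ∀ S T : Finset ℤ, ∑ t ∈ S ∪ T, R' t ≤ ∑ t ∈ S, R' t + ∑ t ∈ T, R' t := by
    intro S T
    rw [← sum_union_inter]
    exact le_add_of_nonneg_right (sum_nonneg fun t _ => hR0 t)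
  have e3 : ∑ t ∈ (Icc 1 X).image (fun t : ℕ => (t : ℤ)), R' t = ∑ t ∈ Icc 1 X, R' (t : ℤ) :=
    sum_image (fun i _ j _ hij => by exact_mod_cast hij)
  have e4 : ∑ t ∈ (Icc 1 X).image (fun t : ℕ => -(t : ℤ)), R' t =
      ∑ t ∈ Icc 1 X, R' (-(t : ℤ)) :=
    sum_image (fun i _ j _ hij => by simpa using hij)
  show ∑ t ∈ Icc (-(X : ℤ)) X, R' t ≤ (C1 + C2 + R' 0) * X
  have h5 := (sum_le_sum_of_subset_of_nonneg hsub (fun t _ _ => hR0 t)).trans
    ((hun _ _).trans (add_le_add (hun _ _) le_rfl))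
  rw [e3, e4, sum_singleton] at h5
  have h6 : R' 0 ≤ R' 0 * X := le_mul_of_one_le_right (hR0 0) hXr
  linarith

end

end Pool.Agent.L0h5.TF
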